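import Pool.Agent.RZ.RCM9.DatOk
import Pool.Agent.RZ.RCN.LamD

/-! The scalar data of the main density factor for the certificate with rational polynomials. -/

set_option autoImplicit false

namespace Pool.Agent.RZ.RCM9

open Set Bern Pk Pool.Agent.RZ.RCN.K

def cll : List ℚ := [0, 0, 362 / 729, -464 / 729, 452 / 729, -1664 / 3645, 160 / 729, -256 / 5103]
def lupl : List ℚ := [1, -161 / 162, 76 / 81, -20 / 27, 32 / 81, -8 / 81]
def lul : List ℚ := [0, 1, -161 / 324, 76 / 243, -5 / 27, 32 / 405, -4 / 243]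

theorem pv_cll (t : ℝ) : pv cll t = Lm.cl t := by
  simp only [cll, pv, Lm.cl]
  push_cast
  ring

theorem pv_lupl (t : ℝ) : pv lupl t = Lm.lup t := by
  simp only [lupl, pv, Lm.lup]
  push_cast
  ring

theorem pv_lul (t : ℝ) : pv lul t = Lm.lu t := by
  simp only [lul, pv, Lm.lu]
  push_cast
  ring

namespace Dat

variable (d : Dat)

def p0l : List ℚ := ladd (lsmul (1 / 2) (ladd (ladd d.F d.F3) d.F2)) (lsmul d.SP d.Gp)
def IZl : List ℚ := pri d.Z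
def NIl : List ℚ := pri (lsmul d.SP d.np)
def Bpl : List ℚ := pri (lmul d.D (ladd (0 :: lupl) d.p0l))

theorem pv_p0l (t : ℝ) : pv d.p0l t = d.dt.p0 t := by
  unfold p0l
  rw [pv_ladd, pv_lsmul, pv_ladd, pv_ladd, pv_lsmul]
  show _ = (pv d.F t + pv d.F3 t + pv d.F2 t) / 2 + (d.SP : ℝ) * pv d.Gp t
  push_cast
  ring

/-- `dl t - dl² t² / 2` -/
def elf (t : E) : E := qc d.ee * t - qc (d.ee ^ 2 / 2) * t ^ 2

noncomputable def rlf (t : ℝ) : ℝ := (d.ee : ℝ) * t - ((d.ee ^ 2 / 2 : ℚ) : ℝ) * t ^ 2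

noncomputable def ri1 (w w2 c t : ℝ) : ℝ :=
  w * (1 - w) * pv cll t + d.rlf t + c * w2 * ((1 + t) * pv d.Z t - pv d.IZl t)
    + (w2 * (1 / 2) - w) * ((1 + t) * pv d.p0l t) - w * pv d.NIl t

def ei1 (w w2 c t : E) : E :=
  w * (1 - w) * pe cll t + d.elf t + c * w2 * ((1 + t) * pe d.Z t - pe d.IZl t)
    + (w2 * hlf - w) * ((1 + t) * pe d.p0l t) - w * pe d.NIl t

noncomputable def ri3 (w t : ℝ) : ℝ :=
  (1 + (d.th : ℝ) * pv d.Z t * (1 + t)) * (w * (1 - w) * pv cll t + d.rlf t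
      - (1 - w) * (pv lul t + pv d.Bpl t))
    + (1 - w) * t + (1 + t) * (((7 / 16 : ℚ) : ℝ) * w ^ 2 * pv d.Z t
      - (w - w ^ 2 * (1 / 2)) * pv d.p0l t)

def ei3 (w t : E) : E :=
  (1 + qc d.th * pe d.Z t * (1 + t)) * (w * (1 - w) * pe cll t + d.elf t
      - (1 - w) * (pe lul t + pe d.Bpl t))
    + (1 - w) * t + (1 + t) * (qc (7 / 16) * w ^ 2 * pe d.Z t
      - (w - w ^ 2 * hlf) * pe d.p0l t)

theorem val_ei1 (ρ : ℕ → ℝ) (w w2 c t : E) : (d.ei1 w w2 c t).val ρ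
    = d.ri1 (w.val ρ) (w2.val ρ) (c.val ρ) (t.val ρ) := by
  simp only [ei1, ri1, elf, rlf, val_mul, val_pow, val_add, val_sub, val_one, val_qc, val_pe,
    val_hlf]

theorem val_ei3 (ρ : ℕ → ℝ) (w t : E) : (d.ei3 w t).val ρ = d.ri3 (w.val ρ) (t.val ρ) := by
  simp only [ei3, ri3, elf, rlf, val_mul, val_pow, val_add, val_sub, val_one, val_qc, val_pe,
    val_hlf]

/-- `w` in `[0, 3/5]` and in `[3/5, 1]` -/
def wlo : E := qc (3 / 5) * vX
def whi2 : E := qc (3 / 5) + qc (2 / 5) * vX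

def eLDi1 : E := d.ei1 wlo (wlo ^ 2) (qc (7 / 16)) vT
def eLDi2 : E := d.ei1 wlo (wlo ^ 2) 1 vT
def eLDi3 : E := d.ei3 whi2 vT

structure PosL : Prop where
  LDi1 : NN d.eLDi1
  LDi2 : NN d.eLDi2
  LDi3 : NN d.eLDi3

variable {d}

theorem rlf_eq (t : ℝ) : d.rlf t = (d.ee : ℝ) * t - (d.ee : ℝ) ^ 2 * t ^ 2 / 2 := by
  unfold rlf
  push_cast
  ring

/-- **the scalar inequalities of the main factor** -/
theorem ldok (hO : d.dt.Ok) (he : 0 ≤ d.ee) (h : d.PosL) :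
    (d.dt.ld (pv d.IZl) (pv d.NIl) (pv d.Bpl) (d.ee : ℝ)).Ok := by
  refine Dt.ld_ok hO (by exact_mod_cast he) (fun t _ => hasDerivAt_pri _ t) (pri_zero _)
    (fun t _ => ?_) (pri_zero _) (fun t _ => ?_) (pri_zero _) (fun w hw t ht => ?_)
    (fun w hw t ht => ?_) (fun w hw t ht => ?_)
  · refine (hasDerivAt_pri _ t).congr_deriv ?_
    rw [pv_lsmul]
    rfl
  · refine (hasDerivAt_pri _ t).congr_deriv ?_
    rw [pv_lmul, pv_ladd, pv_p0l]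
    show _ = pv d.D t * (t * Lm.lup t + d.dt.p0 t)
    simp only [pv]
    rw [pv_lupl]
    push_cast
    ring
  · have h2 := h.LDi1 (5 / 3 * w) 0 0 t ⟨by linarith [hw.1], by linarith [hw.2]⟩ z01 z01 ht
    simp only [eLDi1, wlo, val_ei1, val_pow, val_mul, val_qc, val_vX, val_vT] at h2
    rw [show ((3 / 5 : ℚ) : ℝ) * (5 / 3 * w) = w by push_cast; ring] at h2
    unfold ri1 at h2
    rw [rlf_eq, pv_cll, pv_p0l] at h2
    push_cast at h2
    show 0 ≤ w * (1 - w) * Lm.cl t + ((d.ee : ℝ) * t - (d.ee : ℝ) ^ 2 * t ^ 2 / 2)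
        + 7 / 16 * w ^ 2 * ((1 + t) * pv d.Z t - pv d.IZl t)
        + (w ^ 2 / 2 - w) * ((1 + t) * d.dt.p0 t) - w * pv d.NIl t
    linarith
  · have h2 := h.LDi2 (5 / 3 * w) 0 0 t ⟨by linarith [hw.1], by linarith [hw.2]⟩ z01 z01 ht
    simp only [eLDi2, wlo, val_ei1, val_pow, val_mul, val_qc, val_one, val_vX, val_vT] at h2
    rw [show ((3 / 5 : ℚ) : ℝ) * (5 / 3 * w) = w by push_cast; ring] at h2
    unfold ri1 at h2
    rw [rlf_eq, pv_cll, pv_p0l] at h2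
    show 0 ≤ w * (1 - w) * Lm.cl t + ((d.ee : ℝ) * t - (d.ee : ℝ) ^ 2 * t ^ 2 / 2)
        + w ^ 2 * ((1 + t) * pv d.Z t - pv d.IZl t)
        + (w ^ 2 / 2 - w) * ((1 + t) * d.dt.p0 t) - w * pv d.NIl t
    linarith
  · have h2 := h.LDi3 (5 / 2 * (w - 3 / 5)) 0 0 t ⟨by linarith [hw.1], by linarith [hw.2]⟩ z01 z01 ht
    simp only [eLDi3, whi2, val_ei3, val_add, val_mul, val_qc, val_vX, val_vT] at h2
    rw [show ((3 / 5 : ℚ) : ℝ) + ((2 / 5 : ℚ) : ℝ) * (5 / 2 * (w - 3 / 5)) = w by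
      push_cast; ring] at h2
    unfold ri3 at h2
    rw [rlf_eq, pv_cll, pv_p0l, pv_lul] at h2
    push_cast at h2
    show 0 ≤ (1 + (d.th : ℝ) * pv d.Z t * (1 + t)) * (w * (1 - w) * Lm.cl t
          + ((d.ee : ℝ) * t - (d.ee : ℝ) ^ 2 * t ^ 2 / 2) - (1 - w) * (Lm.lu t + pv d.Bpl t))
        + (1 - w) * t + (1 + t) * (7 / 16 * w ^ 2 * pv d.Z t - (w - w ^ 2 / 2) * d.dt.p0 t)
    linarith

end Dat

end Pool.Agent.RZ.RCM9
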