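import Pool.Agent.RZ.RCM9.DatOk
import Pool.Agent.RZ.RCN.InstS

/-! The slack of the certificate with rational polynomials. -/

set_option autoImplicit false

namespace Pool.Agent.RZ.RCM9

open Set Bern Pk Pool.Agent.RZ.RCN.K

namespace Dat

variable (d : Dat)

/-- the conditions at time zero -/
structure BdS : Prop where
  z1 : ev d.sg0 0 ≤ ev d.Z' 0
  z2 : ev d.sg0 0 + 1 / 2 * ev d.sg1 0 ≤ ev d.Z' 0
  z3 : ev d.sg0 0 + 1 / 2 * ev d.sg1 0 + 1 / 2 * ev d.sg2 0 ≤ 1 / 2 * ev d.Z' 0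

variable {d}

theorem cont_rsig (x : ℝ) : Continuous (d.rsig x) := by
  unfold rsig
  exact (continuous_const.mul ((continuous_pv _).add (continuous_const.mul (continuous_pv _)))).add
    (continuous_const.mul (continuous_pv _))

theorem sl_zero (hs : d.BdS) {x : ℝ} (hx : x ∈ Icc (0 : ℝ) 1) :
    d.rsig x 0 ≤ eta x * pv d.Z' 0 := by
  have z1 : (ev d.sg0 0 : ℝ) ≤ (ev d.Z' 0 : ℝ) := by exact_mod_cast hs.z1
  have z2 : (ev d.sg0 0 : ℝ) + 1 / 2 * (ev d.sg1 0 : ℝ) ≤ (ev d.Z' 0 : ℝ) := by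
    have h := hs.z2
    have h2 : ((ev d.sg0 0 + 1 / 2 * ev d.sg1 0 : ℚ) : ℝ) ≤ (ev d.Z' 0 : ℝ) := by
      exact_mod_cast h
    push_cast at h2
    exact h2
  have z3 : (ev d.sg0 0 : ℝ) + 1 / 2 * (ev d.sg1 0 : ℝ) + 1 / 2 * (ev d.sg2 0 : ℝ)
      ≤ 1 / 2 * (ev d.Z' 0 : ℝ) := by
    have h := hs.z3
    have h2 : ((ev d.sg0 0 + 1 / 2 * ev d.sg1 0 + 1 / 2 * ev d.sg2 0 : ℚ) : ℝ)
        ≤ ((1 / 2 * ev d.Z' 0 : ℚ) : ℝ) := by exact_mod_cast h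
    push_cast at h2
    exact h2
  rw [pv_ev0]
  rcases le_total x (1 / 2) with h1 | h1
  · rw [rsig_lo h1, eta_lo h1, pv_ev0, pv_ev0]
    refine mul_le_mul_of_nonneg_left ?_ hx.1
    nlinarith [mul_nonneg hx.1 (sub_nonneg.2 z2), mul_nonneg (show 0 ≤ 1 / 2 - x by linarith)
      (sub_nonneg.2 z1)]
  · rw [rsig_hi h1, eta_hi h1, pv_ev0, pv_ev0, pv_ev0]
    nlinarith [mul_nonneg (show 0 ≤ x - 1 / 2 by linarith) (sub_nonneg.2 z3),
      mul_nonneg (show 0 ≤ 1 - x by linarith [hx.2]) (sub_nonneg.2 z2)]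

/-- **the slack** -/
theorem slok (h : d.Pos) (hs : d.BdS) : Sl d.dt.cf d.dt.cg d.rsig :=
  Dt.sl_ok (fun _ hx _ ht => h.sig hx ht) (fun x _ => (cont_rsig x).continuousOn)
    (fun x hx => sl_zero hs hx)
    (fun x hx hx0 t ht => by
      have h1 : d.rsig x t < d.rL0 x (eta x) (d.rK x t) t := h.L0s hx hx0 ht
      unfold rL0 at h1
      show 2 * (1 - x) * d.rK x t + d.rsig x t < eta x * pv d.Z' t * (1 + t) ^ 2
        + 2 * (x * (pv d.o0l t + eta x * pv d.o1l t)) + 2 * (pv d.lam t * d.rS x (eta x) t)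
      linarith)

end Dat

end Pool.Agent.RZ.RCM9
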