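import Pool.Agent.RZ.RCM9.DatK
import Pool.Agent.RZ.RCM9.DatL
import Pool.Agent.RZ.RCM9.DatS

/-! Generated: the numbers of the certificate and the box certificates. -/

set_option autoImplicit false

namespace Pool.Agent.RZ.RCM9.CertN

open Pool.Agent.RZ.RCM9.Bern Pool.Agent.RZ.RCM9.Pk Pool.Agent.RZ.RCM9.Dat Pool.Agent.RZ.RCN.K

def d : Dat where
  rho := 1
  t1 := 1/4
  th := 501/1000
  ST := 107/200
  SP := 209/500
  ee := 1/500
  k1 := 1/2
  shT := [1, 0, 0, 0, (-1)]
  shP := [1, 0, (-17/20)]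
  j := [0, 0, 1/1000, 5729/50000, 191/12500, 0, (-93/12500), 0, 0, 2529/50000, 0, 0, 0, 0, 0, 0, 267/25000]
  F := [0, 0, 47313/50000, (-72709/20000), 67613/10000, (-363027/50000), 416171/100000, (-6083/6250)]
  F2 := [0, 0, 41/5000, 33/1000, (-493/10000), 81/10000]
  F3 := [0, 0, 1083/5000, (-327/625), 977/2000, (-1819/10000)]
  G := [0, 0, 3699/5000, (-10987/5000), 51651/20000, (-67371/50000), 22247/100000]
  Gs := [0, 0, 3729/5000, (-11077/5000), 52011/20000, (-67671/50000), 22247/100000]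
  jp := [0, 0, 1/1000, 5729/50000, 191/12500, 0, (-93/12500), 0, 0, 2529/50000, 0, 0, 0, 0, 0, 0, 267/25000]
  Gp := [0, 0, 3729/5000, (-11077/5000), 52011/20000, (-67671/50000), 22247/100000]
  np := [0, 0, 3/500, (-9/500), 9/500, (-3/500), 0]
  Z := [0, 96999/50000, (-21084/3125), 217021/20000, (-20307/2000), 138957/25000, (-165207/100000), 10157/50000]
  D := [24747/250000, 3569087/1000000, (-4446109/1000000), 2414749/1000000]
  lam := [62499/62500, 257103/500000, 471173/500000, (-744213/1000000), 143831/500000]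
  o0p := [998501/1000000, (-958611/500000), 570469/125000, (-1547337/200000), 8321903/1000000, (-5018847/1000000), 161073/125000]
  o1p := [(-194001/100000), 13224671/1000000, (-32847983/1000000), 50149339/1000000, (-3188283/62500), 15896763/500000, (-4375989/500000)]
  PFp := [(-3/100000), 373891/200000, (-2560743/250000), 6201517/250000, (-16621149/500000), 2244683/100000, (-5865143/1000000)]
  PF2p := [(-61/1000000), 4399/250000, 83711/1000000, (-59371/1000000), (-7843/62500), 3411/500000, (-5839/1000000)]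
  PF3p := [(-3/100000), 405253/1000000, (-583449/500000), 36679/50000, 112493/200000, (-3591/5000)]
  W1p := [1457/1000000, (-4369/50000), 223477/125000, (-1123833/250000), 1136937/250000, (-70137/40000)]
  N := [1/125000, 19553/500000, (-131637/500000), 51393/100000, (-113977/500000)]
  be0 := [100003/100000, 66809/31250, (-1562657/200000), 1892173/200000, (-946367/250000)]
  be1 := [(-38799/20000), 262441/25000, (-14296889/1000000), 1981761/250000, (-903749/1000000)]
  sg0 := [387703/200000, (-487097/62500), 566937/62500, (-1405411/125000), 2933329/50000, (-7858851/62500), 26549243/250000, (-887531/31250), (-538573/200000)]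
  sg1 := [(-673/1000000), 3597/12500, (-1893773/250000), 282527/5000, (-20454847/100000), 4882031/12500, (-97724109/250000), 5882869/31250, (-16289783/500000)]
  sg2 := [(-1938377/1000000), 241883/25000, (-1659357/250000), (-1526189/62500), 4954047/50000, (-111937/500), 75855087/250000, (-26280161/125000), 28218289/500000]
  Plo := [[[0, 523377/500000, (-777081/500000), 1075319/1000000, (-31697/100000)], [0, (-1727321/1000000), 3150507/500000, (-466817/62500), 3045073/1000000], [0, (-122083/1000000), (-778629/1000000), 1045591/500000, (-140567/125000)]], [[0, 52151/1000000, 689951/1000000, (-701567/1000000), 8369/40000], [0, (-591273/1000000), 2336261/1000000, (-625071/250000), 258167/250000], [0, 273873/500000, (-3287997/1000000), 3946073/1000000, (-395153/500000)]], [[0, (-5837/500000), 11797/250000, (-24017/500000), 387/25000], [0, 3541/31250, (-546399/1000000), 261771/250000, (-570329/1000000)], [0, 4949/500000, (-574959/1000000), 1449617/1000000, (-31997/125000)]]]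
  Phi := [[[0, 144113/1000000, 144251/100000, (-2171877/1000000), 57779/62500], [0, (-8247/50000), 39079/62500, (-305979/500000), 12833/31250], [0, 62293/500000, (-1010487/1000000), 1033463/500000, (-494393/500000)]], [[0, (-51529/500000), 1034701/1000000, (-1006007/1000000), 55931/100000], [0, 82781/1000000, (-341451/500000), 704451/500000, 2381/1000000], [0, 90193/500000, (-843013/500000), 137471/31250, (-646421/250000)]], [[0, 10991/250000, (-346933/1000000), 97227/125000, (-27473/100000)], [0, 69111/1000000, (-635219/1000000), 314409/200000, (-360941/1000000)], [0, (-65471/500000), 166199/125000, (-4202367/1000000), 194127/50000]]]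
  Klo := [[1/50000, 10367/500000, (-350721/1000000), 236537/100000, (-192563/25000), 12939549/1000000, (-5381229/500000), 3500903/1000000], [0, 152761/250000, (-11589711/1000000), 16241827/200000, (-52972241/200000), 429845913/1000000, (-166349589/500000), 3045821/31250], [0, (-162603/125000), 6181959/250000, (-17444623/100000), 115325427/200000, (-955554957/1000000), 380803647/500000, (-115585447/500000)]]
  Khi := [[1/50000, 49567/1000000, (-51303/62500), 1026053/200000, (-2978423/200000), 4264071/200000, (-7168133/500000), 3602651/1000000], [(-3/500000), (-3731/40000), 1262919/1000000, (-288911/50000), 1011927/100000, (-3819333/1000000), (-5919389/1000000), 2091351/500000], [23/1000000, (-28/3125), 792141/1000000, (-923069/100000), 8026907/200000, (-15719067/200000), 69507221/1000000, (-2271317/100000)]]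

theorem n_shT : NN d.eshT :=
  NN.of (K := 103) (D := ⟨6, 1, 1, 1⟩) (Box.of 1286707785777184 (by decide +kernel)) (by decide +kernel)

theorem n_shP : NN d.eshP :=
  NN.of (K := 38) (D := ⟨4, 1, 1, 1⟩) (Box.of 1196064 (by decide +kernel)) (by decide +kernel)

theorem n_shT0 : NN d.eshT0 :=
  NN.of (K := 10) (D := ⟨5, 1, 1, 1⟩) (Box.of 4 (by decide +kernel)) (by decide +kernel)

theorem n_sTk : NN d.esTk :=
  NN.of (K := 12) (D := ⟨5, 1, 1, 1⟩) (Box.of 4 (by decide +kernel)) (by decide +kernel)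

theorem n_shP0 : NN d.eshP0 :=
  NN.of (K := 11) (D := ⟨3, 1, 1, 1⟩) (Box.of 4 (by decide +kernel)) (by decide +kernel)

theorem n_lam0 : NN (pe d.lam vT) :=
  NN.of (K := 31) (D := ⟨1, 1, 1, 5⟩) (Box.of 4 (by decide +kernel)) (by decide +kernel)

theorem n_lam1 : NN d.elam1 :=
  NN.of (K := 117) (D := ⟨1, 1, 1, 13⟩) (Box.of 1194267 (by decide +kernel)) (by decide +kernel)

theorem n_o0i : NN d.eo0i :=
  NN.of (K := 162) (D := ⟨1, 1, 1, 16⟩) (Box.of 76433627 (by decide +kernel)) (by decide +kernel)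

theorem n_o1i : NN d.eo1i :=
  NN.of (K := 221) (D := ⟨1, 1, 1, 16⟩) (Box.of 5267960632712509659 (by decide +kernel)) (by decide +kernel)

theorem n_PFi : NN d.ePFi :=
  NN.of (K := 157) (D := ⟨1, 1, 1, 15⟩) (Box.of 4891723995 (by decide +kernel)) (by decide +kernel)

theorem n_PF2i : NN d.ePF2i :=
  NN.of (K := 97) (D := ⟨1, 1, 1, 15⟩) (Box.of 291 (by decide +kernel)) (by decide +kernel)

theorem n_PF3i : NN d.ePF3i :=
  NN.of (K := 146) (D := ⟨1, 1, 1, 14⟩) (Box.of 76658971 (by decide +kernel)) (by decide +kernel)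

theorem n_abd : NN d.eabd :=
  NN.of (K := 48) (D := ⟨1, 1, 1, 9⟩) (Box.of 4 (by decide +kernel)) (by decide +kernel)

theorem n_Di : NN d.eDi :=
  NN.of (K := 251) (D := ⟨1, 1, 1, 20⟩) (Box.of 313055656155 (by decide +kernel)) (by decide +kernel)

theorem n_W1a : NN d.eW1a :=
  NN.of (K := 125) (D := ⟨1, 1, 1, 11⟩) (Box.of 1198299 (by decide +kernel)) (by decide +kernel)

theorem n_W1b : NN d.eW1b :=
  NN.of (K := 97) (D := ⟨1, 1, 1, 19⟩) (Box.of 4 (by decide +kernel)) (by decide +kernel)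

theorem n_N0 : NN (pe d.N vT) :=
  NN.of (K := 80) (D := ⟨1, 1, 1, 5⟩) (Box.of 314143815451 (by decide +kernel)) (by decide +kernel)

theorem n_Nf1 : NN d.eNf1 :=
  NN.of (K := 49) (D := ⟨1, 1, 1, 7⟩) (Box.of 291 (by decide +kernel)) (by decide +kernel)

theorem n_Nf2 : NN d.eNf2 :=
  NN.of (K := 62) (D := ⟨1, 1, 1, 7⟩) (Box.of 18659 (by decide +kernel)) (by decide +kernel)

theorem n_Nf3 : NN d.eNf3 :=
  NN.of (K := 99) (D := ⟨1, 1, 1, 7⟩) (Box.of 4908234979 (by decide +kernel)) (by decide +kernel)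

theorem n_F3G : NN d.eF3G :=
  NN.of (K := 56) (D := ⟨1, 1, 1, 7⟩) (Box.of 18659 (by decide +kernel)) (by decide +kernel)

theorem n_kt : NN (pe d.ktl vT) :=
  NN.of (K := 42) (D := ⟨1, 1, 1, 18⟩) (Box.of 4 (by decide +kernel)) (by decide +kernel)

theorem n_F : NN (pe d.F vT) :=
  NN.of (K := 34) (D := ⟨1, 1, 1, 8⟩) (Box.of 4 (by decide +kernel)) (by decide +kernel)

theorem n_F2 : NN (pe d.F2 vT) :=
  NN.of (K := 20) (D := ⟨1, 1, 1, 6⟩) (Box.of 4 (by decide +kernel)) (by decide +kernel)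

theorem n_F3 : NN (pe d.F3 vT) :=
  NN.of (K := 24) (D := ⟨1, 1, 1, 6⟩) (Box.of 4 (by decide +kernel)) (by decide +kernel)

theorem n_Gs : NN (pe d.Gs vT) :=
  NN.of (K := 31) (D := ⟨1, 1, 1, 7⟩) (Box.of 4 (by decide +kernel)) (by decide +kernel)

theorem n_Z : NN (pe d.Z vT) :=
  NN.of (K := 34) (D := ⟨1, 1, 1, 8⟩) (Box.of 4 (by decide +kernel)) (by decide +kernel)

theorem n_Mp : NN d.eMp :=
  NN.of (K := 131) (D := ⟨1, 1, 1, 17⟩) (Box.of 1197795 (by decide +kernel)) (by decide +kernel)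

theorem n_M1 : NN d.eM1 :=
  NN.of (K := 90) (D := ⟨1, 1, 1, 19⟩) (Box.of 4 (by decide +kernel)) (by decide +kernel)

theorem n_GJ1 : NN d.eGJ1 :=
  NN.of (K := 32) (D := ⟨1, 1, 1, 7⟩) (Box.of 4 (by decide +kernel)) (by decide +kernel)

theorem n_GJ2 : NN d.eGJ2 :=
  NN.of (K := 81) (D := ⟨1, 1, 1, 18⟩) (Box.of 4 (by decide +kernel)) (by decide +kernel)

theorem n_nb : NN d.enb :=
  NN.of (K := 91) (D := ⟨1, 1, 1, 18⟩) (Box.of 4 (by decide +kernel)) (by decide +kernel)

theorem n_sg1l : NN d.esg1l :=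
  NN.of (K := 61) (D := ⟨7, 1, 1, 8⟩) (Box.of 288 (by decide +kernel)) (by decide +kernel)

theorem n_sg1h : NN d.esg1h :=
  NN.of (K := 50) (D := ⟨7, 1, 1, 8⟩) (Box.of 4 (by decide +kernel)) (by decide +kernel)

theorem n_LP0l : NN d.eLP0l :=
  NN.of (K := 60) (D := ⟨2, 1, 1, 19⟩) (Box.of 4 (by decide +kernel)) (by decide +kernel)

theorem n_LP0h : NN d.eLP0h :=
  NN.of (K := 60) (D := ⟨2, 1, 1, 19⟩) (Box.of 4 (by decide +kernel)) (by decide +kernel)

theorem n_sgl : NN d.esgl :=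
  NN.of (K := 78) (D := ⟨2, 1, 1, 9⟩) (Box.of 18659 (by decide +kernel)) (by decide +kernel)

theorem n_sgh : NN d.esgh :=
  NN.of (K := 64) (D := ⟨2, 1, 1, 9⟩) (Box.of 291 (by decide +kernel)) (by decide +kernel)

theorem n_L0l : NN d.eL0l :=
  NN.of (K := 172) (D := ⟨7, 1, 1, 12⟩) (Box.of 81223367252789443 (by decide +kernel)) (by decide +kernel)

theorem n_L0h : NN d.eL0h :=
  NN.of (K := 151) (D := ⟨7, 1, 1, 12⟩) (Box.of 81221228896061635 (by decide +kernel)) (by decide +kernel)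

theorem n_K2l : NN d.eK2l :=
  NN.of (K := 95) (D := ⟨3, 1, 1, 8⟩) (Box.of 20035553855707 (by decide +kernel)) (by decide +kernel)

theorem n_K2h : NN d.eK2h :=
  NN.of (K := 87) (D := ⟨3, 1, 1, 8⟩) (Box.of 1198299 (by decide +kernel)) (by decide +kernel)

theorem n_L1a : NN d.eL1a :=
  NN.of (K := 304) (D := ⟨4, 8, 7, 19⟩) (Box.of 6055660961826205856968585957925340888 (by decide +kernel)) (by decide +kernel)

theorem n_L1b : NN d.eL1b :=
  NN.of (K := 281) (D := ⟨4, 8, 7, 19⟩) (Box.of 417033885415259046639504577583104255321269482184 (by decide +kernel)) (by decide +kernel)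

theorem n_L1c : NN d.eL1c :=
  NN.of (K := 189) (D := ⟨8, 8, 7, 19⟩) (Box.of 1181979 (by decide +kernel)) (by decide +kernel)

theorem n_kp : NN (pe d.kpl vT) :=
  NN.of (K := 42) (D := ⟨1, 1, 1, 18⟩) (Box.of 4 (by decide +kernel)) (by decide +kernel)

theorem n_Gp : NN (pe d.Gp vT) :=
  NN.of (K := 31) (D := ⟨1, 1, 1, 7⟩) (Box.of 4 (by decide +kernel)) (by decide +kernel)

theorem n_np : NN (pe d.np vT) :=
  NN.of (K := 16) (D := ⟨1, 1, 1, 7⟩) (Box.of 4 (by decide +kernel)) (by decide +kernel)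

theorem n_Gp1 : NN d.eGp1 :=
  NN.of (K := 87) (D := ⟨1, 1, 1, 18⟩) (Box.of 4 (by decide +kernel)) (by decide +kernel)

theorem n_Gp2 : NN d.eGp2 :=
  NN.of (K := 81) (D := ⟨1, 1, 1, 18⟩) (Box.of 4 (by decide +kernel)) (by decide +kernel)

theorem n_np1 : NN d.enp1 :=
  NN.of (K := 73) (D := ⟨1, 1, 1, 18⟩) (Box.of 4 (by decide +kernel)) (by decide +kernel)

theorem n_Kbe00 : NN d.ebe00 :=
  NN.of (K := 187) (D := ⟨1, 1, 1, 19⟩) (Box.of 76658915 (by decide +kernel)) (by decide +kernel)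

theorem n_Kbe01 : NN d.ebe01 :=
  NN.of (K := 57) (D := ⟨1, 1, 1, 19⟩) (Box.of 4 (by decide +kernel)) (by decide +kernel)

theorem n_Kbe02 : NN d.ebe02 :=
  NN.of (K := 58) (D := ⟨1, 1, 1, 19⟩) (Box.of 4 (by decide +kernel)) (by decide +kernel)

theorem n_Kbe03 : NN d.ebe03 :=
  NN.of (K := 156) (D := ⟨1, 1, 1, 19⟩) (Box.of 1197851 (by decide +kernel)) (by decide +kernel)

theorem n_Kbe1 : NN d.ebe1 :=
  NN.of (K := 122) (D := ⟨1, 1, 1, 9⟩) (Box.of 82315732121929499 (by decide +kernel)) (by decide +kernel)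

theorem n_KElo : NN d.eElo :=
  NN.of (K := 49) (D := ⟨1, 2, 1, 9⟩) (Box.of 4 (by decide +kernel)) (by decide +kernel)

theorem n_KEhi : NN d.eEhi :=
  NN.of (K := 49) (D := ⟨1, 2, 1, 9⟩) (Box.of 4 (by decide +kernel)) (by decide +kernel)

theorem n_Kmbl : NN d.embl :=
  NN.of (K := 65) (D := ⟨2, 3, 1, 11⟩) (Box.of 4 (by decide +kernel)) (by decide +kernel)

theorem n_Kmbh : NN d.embh :=
  NN.of (K := 68) (D := ⟨2, 4, 1, 11⟩) (Box.of 4 (by decide +kernel)) (by decide +kernel)

theorem n_KPlo : NN d.ePlo :=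
  NN.of (K := 188) (D := ⟨4, 5, 1, 16⟩) (Box.of 1376901950121439696832603 (by decide +kernel)) (by decide +kernel)

theorem n_KPhi : NN d.ePhi :=
  NN.of (K := 220) (D := ⟨4, 8, 1, 16⟩) (Box.of 5216173608887486747 (by decide +kernel)) (by decide +kernel)

theorem n_LDi1 : NN d.eLDi1 :=
  NN.of (K := 99) (D := ⟨3, 1, 1, 9⟩) (Box.of 4908271104 (by decide +kernel)) (by decide +kernel)

theorem n_LDi2 : NN d.eLDi2 :=
  NN.of (K := 86) (D := ⟨3, 1, 1, 9⟩) (Box.of 76693504 (by decide +kernel)) (by decide +kernel)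

theorem n_LDi3 : NN d.eLDi3 :=
  NN.of (K := 130) (D := ⟨3, 1, 1, 20⟩) (Box.of 4 (by decide +kernel)) (by decide +kernel)

theorem pos : d.Pos :=
  ⟨n_shT, n_shP, n_shT0, n_sTk, n_shP0, n_lam0, n_lam1, n_o0i, n_o1i, n_PFi, n_PF2i, n_PF3i, n_abd, n_Di, n_W1a, n_W1b, n_N0, n_Nf1, n_Nf2, n_Nf3, n_F3G, n_kt, n_F, n_F2, n_F3, n_Gs, n_Z, n_Mp, n_M1, n_GJ1, n_GJ2, n_nb, n_sg1l, n_sg1h, n_LP0l, n_LP0h, n_sgl, n_sgh, n_L0l, n_L0h, n_K2l, n_K2h, n_L1a, n_L1b, n_L1c, n_kp, n_Gp, n_np, n_Gp1, n_Gp2, n_np1⟩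

theorem posK : d.PosK :=
  ⟨by decide +kernel, n_Kbe00, n_Kbe01, n_Kbe02, n_Kbe03, n_Kbe1, n_KElo, n_KEhi, n_Kmbl, n_Kmbh, n_KPlo, n_KPhi⟩

theorem posL : d.PosL :=
  ⟨n_LDi1, n_LDi2, n_LDi3⟩

theorem bd : d.Bd := by
  constructor <;> decide +kernel

theorem bdS : d.BdS := by
  constructor <;> decide +kernel

end Pool.Agent.RZ.RCM9.CertN
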