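import Pool.Agent.RZ.RCM9.DatOk
import Pool.Agent.RZ.RCN.Hz

/-! The hazard layer with rational polynomials. -/

set_option autoImplicit false

namespace Pool.Agent.RZ.RCM9

open Set Bern Pk Pool.Agent.RZ.RCN.K

/-- `e^{-v} ≤ 1 - v + v²/2 - v³/6 + v⁴/24` -/
theorem exp_neg_le_T4 {v : ℝ} (hv : 0 ≤ v) :
    Real.exp (-v) ≤ 1 - v + v ^ 2 / 2 - v ^ 3 / 6 + v ^ 4 / 24 := by
  have mono : ∀ (f f' : ℝ → ℝ), (∀ x, HasDerivAt f (f' x) x) → f 0 = 0 →
      (∀ x, 0 ≤ x → 0 ≤ f' x) → ∀ x, 0 ≤ x → 0 ≤ f x := by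
    intro f f' hd h0 hp x hx
    have hm : MonotoneOn f (Ici 0) := by
      refine monotoneOn_of_deriv_nonneg (convex_Ici 0)
        (fun r _ => (hd r).continuousAt.continuousWithinAt)
        (fun r _ => (hd r).differentiableAt.differentiableWithinAt) ?_
      intro r hr
      rw [(hd r).deriv]
      exact hp r (interior_subset hr)
    have := hm (mem_Ici.2 le_rfl) (mem_Ici.2 hx) hx
    rwa [h0] at this
  have de : ∀ x : ℝ, HasDerivAt (fun v : ℝ => Real.exp (-v)) (-Real.exp (-x)) x := by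
    intro x
    have := (hasDerivAt_neg x).exp
    refine this.congr_deriv ?_
    ring
  have d1 : ∀ x : ℝ, HasDerivAt (fun v : ℝ => v) 1 x := fun x => hasDerivAt_id' x
  have d2 : ∀ x : ℝ, HasDerivAt (fun v : ℝ => v ^ 2 / 2) x x := by
    intro x
    refine ((hasDerivAt_pow 2 x).div_const 2).congr_deriv ?_
    norm_num
  have d3 : ∀ x : ℝ, HasDerivAt (fun v : ℝ => v ^ 3 / 6) (x ^ 2 / 2) x := by
    intro x
    refine ((hasDerivAt_pow 3 x).div_const 6).congr_deriv ?_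
    norm_num
    ring
  have d4 : ∀ x : ℝ, HasDerivAt (fun v : ℝ => v ^ 4 / 24) (x ^ 3 / 6) x := by
    intro x
    refine ((hasDerivAt_pow 4 x).div_const 24).congr_deriv ?_
    norm_num
    ring
  have s1 : ∀ x : ℝ, 0 ≤ x → 0 ≤ Real.exp (-x) - (1 - x) := by
    intro x _
    have := Real.one_sub_le_exp_neg x
    linarith
  have s2 : ∀ x : ℝ, 0 ≤ x → 0 ≤ 1 - x + x ^ 2 / 2 - Real.exp (-x) :=
    mono _ _ (fun x => (((d1 x).const_sub 1).add (d2 x)).sub (de x)) (by simp)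
      (fun x hx => by have := s1 x hx; linarith)
  have s3 : ∀ x : ℝ, 0 ≤ x → 0 ≤ Real.exp (-x) - (1 - x + x ^ 2 / 2 - x ^ 3 / 6) :=
    mono _ _ (fun x => (de x).sub ((((d1 x).const_sub 1).add (d2 x)).sub (d3 x))) (by simp)
      (fun x hx => by have := s2 x hx; linarith)
  have s4 : ∀ x : ℝ, 0 ≤ x → 0 ≤ 1 - x + x ^ 2 / 2 - x ^ 3 / 6 + x ^ 4 / 24 - Real.exp (-x) :=
    mono _ _ (fun x => ((((d1 x).const_sub 1).add (d2 x)).sub (d3 x)).add (d4 x) |>.sub (de x))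
      (by simp) (fun x hx => by have := s3 x hx; linarith)
  linarith [s4 v hv]

/-- the data of the hazards -/
structure HDat where
  Elo : List (List ℚ)
  Ehi : List (List ℚ)
  Rlo : List (List ℚ)
  Rhi : List (List ℚ)
  mb : List ℚ
  Qt : List (List ℚ)
  l0 : List ℚ := []
  l1 : List ℚ := []
  /-- for weights above `X0` and times after `T0` the bound comes from inclusion and exclusion -/
  X0 : ℚ := 1/2
  T0 : ℚ := 1

namespace HDat

variable (z : HDat)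

noncomputable def rE (x t : ℝ) : ℝ :=
  if x ≤ 1 / 2 then 1 + x * pv2 z.Elo x t else pv2 z.Ehi (x - 1 / 2) t

noncomputable def rSh (x t : ℝ) : ℝ :=
  if x ≤ 1 / 2 then t + x * pv2 (z.Elo.map pri) x t else pv2 (z.Ehi.map pri) (x - 1 / 2) t

noncomputable def rR (x t : ℝ) : ℝ :=
  if x ≤ 1 / 2 then 1 + x * pv2 z.Rlo x t else pv2 z.Rhi (x - 1 / 2) t

noncomputable def rU (x t : ℝ) : ℝ :=
  if x ≤ 1 / 2 then t + x * pv2 (z.Rlo.map pri) x t else pv2 (z.Rhi.map pri) (x - 1 / 2) t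

/-- the clock -/
noncomputable def Th (t r : ℝ) : ℝ := (t - r) * pv2 z.Qt r t

/-- the lower bound of the hazards of the real pairs, divided by the weights -/
noncomputable def rl (y t : ℝ) : ℝ := pv z.l0 t + eta y * pv z.l1 t

noncomputable def hz : Hzd where
  E := z.rE
  S := z.rSh
  hl := z.rl
  B x t := (z.X0 : ℝ) < x ∧ (z.T0 : ℝ) < t

/-! ### expressions -/

def T4 (v : E) : E := 1 - v + v ^ 2 * E.num 1 2 - v ^ 3 * E.num 1 6 + v ^ 4 * E.num 1 24

def eEl : E := 1 + Dat.xlo * pe2 z.Elo Dat.xlo vT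
def eEh : E := pe2 z.Ehi Dat.xlo vT
def eSl (t : E) : E := t + Dat.xlo * pe2 (z.Elo.map pri) Dat.xlo t
def eSh (t : E) : E := pe2 (z.Ehi.map pri) Dat.xlo t
def eRl : E := 1 + Dat.xlo * pe2 z.Rlo Dat.xlo vT
def eRh : E := pe2 z.Rhi Dat.xlo vT
def eUl (t : E) : E := t + Dat.xlo * pe2 (z.Rlo.map pri) Dat.xlo t
def eUh (t : E) : E := pe2 (z.Rhi.map pri) Dat.xlo t

def fEl (d : Dat) : E := z.eEl - T4 (Dat.xlo * d.esgl)
def fEh (d : Dat) : E := z.eEh - T4 d.esgh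
/-! the new form: weights and times in boxes -/
/-- `X0 X` -/
def xA : E := qc z.X0 * vX
/-- `X0 + (1/2 - X0) X` -/
def xB : E := qc z.X0 + qc (1 / 2 - z.X0) * vX
/-- `T0 T` -/
def tA : E := qc z.T0 * vT
/-- `T0 + (1 - T0) T` -/
def tB : E := qc z.T0 + qc (1 - z.T0) * vT
def gEl (x t : E) : E := 1 + x * pe2 z.Elo x t
def gSl (x t : E) : E := t + x * pe2 (z.Elo.map pri) x t
def gEh (t : E) : E := pe2 z.Ehi Dat.xlo t
def gSh (t : E) : E := pe2 (z.Ehi.map pri) Dat.xlo t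
def sgl (d : Dat) (x t : E) : E := x * (pe d.sg0 t + x * pe d.sg1 t)
def sgh (d : Dat) (t : E) : E :=
  Dat.xhi * (pe d.sg0 t + hlf * pe d.sg1 t) + Dat.xlo * pe d.sg2 t
/-- the bound `D3`, times `(1 + t)²` -/
def eD3 (d : Dat) (x e t : E) : E :=
  (1 + t) * (1 - (1 - x) * t) + (1 + t) ^ 2 * (2 * d.eS x e t - x * (e * pe d.Z t))
def ebb (d : Dat) (x e t : E) : E := 1 + (1 - x) * (pe d.be0 t - 1) + e * pe d.be1 t
def fA (d : Dat) : E := z.gEl z.xA vT - T4 (sgl d z.xA vT)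
def fB (d : Dat) : E := z.gEl z.xB z.tA - T4 (sgl d z.xB z.tA)
def fC (d : Dat) : E := z.gEh z.tA - T4 (sgh d z.tA)
def f3B (d : Dat) : E :=
  z.gEl z.xB z.tB * eD3 d z.xB z.xB z.tB - ebb d z.xB z.xB z.tB * (1 - z.xB * z.gSl z.xB z.tB)
def f3C (d : Dat) : E :=
  z.gEh z.tB * eD3 d Dat.xhi hlf z.tB - ebb d Dat.xhi hlf z.tB * (1 - Dat.xhi * z.gSh z.tB)
def fEB : E := z.gEl z.xB z.tB - Dat.dl
def fEC : E := z.gEh z.tB - Dat.dl
def fdl : E := 1 - Dat.xlo * z.eSl vT - Dat.dl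
def fdh : E := 1 - Dat.xhi * z.eSh vT - Dat.dl
def fRl : E := z.eRl * (1 - Dat.xlo * z.eSl vT) - z.eEl
def fRh : E := z.eRh * (1 - Dat.xhi * z.eSh vT) - z.eEh
def fmb1 : E := pe z.mb vT - 1
def fmbl : E := pe z.mb vT - z.eRl
def fmbh : E := pe z.mb vT - z.eRh
/-- `r = Z T` -/
def rZ : E := vZ * vT
def fthl : E := (vT - rZ) * pe2 z.Qt rZ vT - (z.eUl vT - z.eUl rZ)
def fthh : E := (vT - rZ) * pe2 z.Qt rZ vT - (z.eUh vT - z.eUh rZ)
def fth1 : E := pe2 z.Qt rZ vT - 1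

/-- the conditions on `E`: the old one (slack only), or with inclusion and exclusion -/
inductive LoC (d : Dat) : Prop
  | old (El : NN (z.fEl d)) (Eh : NN (z.fEh d)) (hT : z.T0 = 1)
  | new (hX : 0 < z.X0) (hX1 : z.X0 < 1 / 2) (hT0 : 0 < z.T0) (hT1 : z.T0 < 1)
      (ht : d.t1 ≤ z.T0) (A : NN (z.fA d)) (B : NN (z.fB d)) (C : NN (z.fC d))
      (B3 : NN (z.f3B d)) (C3 : NN (z.f3C d)) (EB : NN z.fEB) (EC : NN z.fEC)

structure Pos (d : Dat) : Prop where
  E : LoC z d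
  denl : NN z.fdl
  denh : NN z.fdh
  Rl : NN z.fRl
  Rh : NN z.fRh
  mb1 : NN z.fmb1
  mbl : NN z.fmbl
  mbh : NN z.fmbh
  thl : NN z.fthl
  thh : NN z.fthh
  th1 : NN z.fth1

variable {z} {d : Dat}

theorem val_T4 (ρ : ℕ → ℝ) (v : E) : (T4 v).val ρ
    = 1 - v.val ρ + (v.val ρ) ^ 2 / 2 - (v.val ρ) ^ 3 / 6 + (v.val ρ) ^ 4 / 24 := by
  have e2 : (E.num 1 2).val ρ = 1 / 2 := val_hlf ρ
  have e6 : (E.num 1 6).val ρ = 1 / 6 := by
    show (((1 : ℤ) : ℝ)) / ((6 : ℕ) : ℝ) = _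
    norm_num
  have e24 : (E.num 1 24).val ρ = 1 / 24 := by
    show (((1 : ℤ) : ℝ)) / ((24 : ℕ) : ℝ) = _
    norm_num
  simp only [T4, val_add, val_sub, val_mul, val_pow, val_one, e2, e6, e24]
  ring

theorem hasDerivAt_S (x t : ℝ) : HasDerivAt (z.rSh x) (z.rE x t) t := by
  unfold rSh rE
  by_cases h : x ≤ 1 / 2
  · simp only [if_pos h]
    exact (hasDerivAt_id' t).add ((hasDerivAt_pv2 _ _ _).const_mul _)
  · simp only [if_neg h]
    exact hasDerivAt_pv2 _ _ _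

theorem hasDerivAt_U (x t : ℝ) : HasDerivAt (z.rU x) (z.rR x t) t := by
  unfold rU rR
  by_cases h : x ≤ 1 / 2
  · simp only [if_pos h]
    exact (hasDerivAt_id' t).add ((hasDerivAt_pv2 _ _ _).const_mul _)
  · simp only [if_neg h]
    exact hasDerivAt_pv2 _ _ _

theorem S_zero (x : ℝ) : z.rSh x 0 = 0 := by
  unfold rSh
  split_ifs
  · rw [pv2_pri_zero]; ring
  · rw [pv2_pri_zero]

theorem continuous_pv2 (l : List (List ℚ)) (x : ℝ) : Continuous (pv2 l x) := by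
  induction l with
  | nil => simp only [pv2]; exact continuous_const
  | cons a l ih => simp only [pv2]; exact (continuous_pv a).add (continuous_const.mul ih)

theorem cont_E (x : ℝ) : Continuous (z.rE x) := by
  unfold rE
  by_cases h : x ≤ 1 / 2
  · simp only [if_pos h]
    exact continuous_const.add (continuous_const.mul (continuous_pv2 _ _))
  · simp only [if_neg h]
    exact continuous_pv2 _ _

open Dat

theorem lo_old {hEl : NN (z.fEl d)} {hEh : NN (z.fEh d)} (hp : d.Pos) {x t : ℝ}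
    (hx : x ∈ Icc (0 : ℝ) 1) (ht : t ∈ Icc (0 : ℝ) 1) : Real.exp (-d.rsig x t) ≤ z.rE x t := by
  refine (exp_neg_le_T4 (hp.sig hx ht)).trans ?_
  rcases le_or_gt x (1 / 2) with h1 | h1
  · have h2 := hEl (2 * x) 0 0 t (two_mul_mem hx.1 h1) z01 z01 ht
    rw [fEl, val_sub, val_T4, val_mul, val_esgl, eEl, val_add, val_mul, val_one, val_pe2, val_xlo,
      val_vT, show 1 / 2 * (2 * x) = x by ring] at h2
    rw [rsig_lo h1]
    unfold rE
    rw [if_pos h1]
    linarith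
  · have h2 := hEh (2 * x - 1) 0 0 t (two_sub_mem h1.le hx.2) z01 z01 ht
    rw [fEh, val_sub, val_T4, val_esgh, eEh, val_pe2, val_xlo, val_vT,
      show 1 / 2 * (2 * x - 1) = x - 1 / 2 by ring, show 1 / 2 + (x - 1 / 2) = x by ring] at h2
    rw [rsig_hi h1.le]
    unfold rE
    rw [if_neg (not_le.2 h1)]
    linarith

/-- coordinates in a box -/
theorem box_mem {a b x : ℝ} (ha : a ≤ x) (hb : x ≤ b) (hab : a < b) :
    ∃ X ∈ Icc (0 : ℝ) 1, a + (b - a) * X = x := by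
  have h : 0 < b - a := by linarith
  refine ⟨(x - a) / (b - a), ⟨div_nonneg (by linarith) h.le, ?_⟩, ?_⟩
  · rw [div_le_one h]; linarith
  · field_simp
    ring

theorem Pos.lo (h : z.Pos d) (hp : d.Pos) {x t : ℝ} (hx : x ∈ Icc (0 : ℝ) 1)
    (ht : t ∈ Icc (0 : ℝ) 1) :
    Real.exp (-d.rsig x t) ≤ z.rE x t ∨ (z.hz.B x t ∧ 0 < z.rE x t) := by
  cases h.E with
  | old El Eh _ => exact Or.inl (lo_old (hEl := El) (hEh := Eh) hp hx ht)
  | new hX hX1 hT0 hT1 _ A B C _ _ EB EC =>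
    have hX' : (0 : ℝ) < z.X0 := by exact_mod_cast hX
    have hX1' : (z.X0 : ℝ) < 1 / 2 := by
      have := (Rat.cast_lt (K := ℝ)).2 hX1
      rwa [show (((1 / 2 : ℚ)) : ℝ) = 1 / 2 by norm_num] at this
    have hT0' : (0 : ℝ) < z.T0 := by exact_mod_cast hT0
    have hT1' : (z.T0 : ℝ) < 1 := by exact_mod_cast hT1
    have ec : (((1 / 2 - z.X0 : ℚ)) : ℝ) = 1 / 2 - (z.X0 : ℝ) := by push_cast; ring
    have et : (((1 - z.T0 : ℚ)) : ℝ) = 1 - (z.T0 : ℝ) := by push_cast; ring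
    rcases le_or_gt x (z.X0 : ℝ) with h1 | h1
    · left
      refine (exp_neg_le_T4 (hp.sig hx ht)).trans ?_
      have h3 : x ≤ 1 / 2 := by linarith
      obtain ⟨X, hXm, eX⟩ := box_mem hx.1 h1 hX'
      have h2 := A X 0 0 t hXm z01 z01 ht
      have eX' : (z.X0 : ℝ) * X = x := by linarith
      simp only [fA, gEl, sgl, xA, val_sub, val_T4, val_mul, val_add, val_one, val_pe, val_pe2,
        val_qc, val_vX, val_vT, eX'] at h2
      rw [rsig_lo h3]
      unfold rE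
      rw [if_pos h3]
      linarith
    · rcases le_or_gt t (z.T0 : ℝ) with h4 | h4
      · left
        refine (exp_neg_le_T4 (hp.sig hx ht)).trans ?_
        obtain ⟨T, hTm, eT⟩ := box_mem ht.1 h4 hT0'
        have eT' : (z.T0 : ℝ) * T = t := by linarith
        rcases le_or_gt x (1 / 2) with h3 | h3
        · obtain ⟨X, hXm, eX⟩ := box_mem h1.le h3 hX1'
          have h2 := B X 0 0 T hXm z01 z01 hTm
          simp only [fB, gEl, sgl, xB, tA, val_sub, val_T4, val_mul, val_add, val_one, val_pe,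
            val_pe2, val_qc, val_vX, val_vT, ec, eX, eT'] at h2
          rw [rsig_lo h3]
          unfold rE
          rw [if_pos h3]
          linarith
        · have h2 := C (2 * x - 1) 0 0 T (two_sub_mem h3.le hx.2) z01 z01 hTm
          simp only [fC, gEh, sgh, tA, val_sub, val_T4, val_mul, val_add, val_pe, val_pe2,
            val_qc, val_xlo, val_xhi, val_hlf, val_vT, eT',
            show 1 / 2 * (2 * x - 1) = x - 1 / 2 by ring,
            show 1 / 2 + (x - 1 / 2) = x by ring] at h2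
          rw [rsig_hi h3.le]
          unfold rE
          rw [if_neg (not_le.2 h3)]
          linarith
      · right
        refine ⟨⟨h1, h4⟩, ?_⟩
        obtain ⟨T, hTm, eT⟩ := box_mem h4.le ht.2 hT1'
        rcases le_or_gt x (1 / 2) with h3 | h3
        · obtain ⟨X, hXm, eX⟩ := box_mem h1.le h3 hX1'
          have h2 := EB X 0 0 T hXm z01 z01 hTm
          simp only [fEB, gEl, xB, tB, val_sub, val_mul, val_add, val_one,
            val_pe2, val_qc, val_vX, val_vT, val_dl, ec, et, eX, eT] at h2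
          unfold rE
          rw [if_pos h3]
          linarith
        · have h2 := EC (2 * x - 1) 0 0 T (two_sub_mem h3.le hx.2) z01 z01 hTm
          simp only [fEC, gEh, tB, val_sub, val_mul, val_add, val_pe2, val_dl,
            val_qc, val_xlo, val_vT, et, eT,
            show 1 / 2 * (2 * x - 1) = x - 1 / 2 by ring] at h2
          unfold rE
          rw [if_neg (not_le.2 h3)]
          linarith

/-- the bound of the pair probabilities, times `(1 + t)²` -/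
noncomputable def rD3 (d : Dat) (x e t : ℝ) : ℝ :=
  (1 + t) * (1 - (1 - x) * t) + (1 + t) ^ 2 * (2 * d.rS x e t - x * (e * pv d.Z t))

theorem val_eD3 (ρ : ℕ → ℝ) (x e t : E) :
    (eD3 d x e t).val ρ = rD3 d (x.val ρ) (e.val ρ) (t.val ρ) := by
  simp only [eD3, rD3, val_add, val_sub, val_mul, val_pow, val_one, val_two, val_eS, val_pe]

theorem val_ebb (ρ : ℕ → ℝ) (x e t : E) :
    (ebb d x e t).val ρ = d.rb (x.val ρ) (e.val ρ) (t.val ρ) := by
  simp only [ebb, rb, val_add, val_sub, val_mul, val_one, val_pe]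

/-- the inequality in the region of inclusion and exclusion -/
theorem Pos.i3 (h : z.Pos d) {x t : ℝ} (hx : x ∈ Icc (0 : ℝ) 1)
    (ht : t ∈ Icc (0 : ℝ) 1) (hB : z.hz.B x t) :
    (d.t1 : ℝ) ≤ t ∧
    d.rb x (eta x) t * (1 - x * z.rSh x t) ≤ z.rE x t * rD3 d x (eta x) t := by
  obtain ⟨h1, h4⟩ := hB
  cases h.E with
  | old _ _ hT =>
    exfalso
    rw [hT] at h4
    have := ht.2
    push_cast at h4
    linarith
  | new hX hX1 hT0 hT1 ht1 _ _ _ B3 C3 _ _ =>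
    have hX1' : (z.X0 : ℝ) < 1 / 2 := by
      have := (Rat.cast_lt (K := ℝ)).2 hX1
      rwa [show (((1 / 2 : ℚ)) : ℝ) = 1 / 2 by norm_num] at this
    have hT1' : (z.T0 : ℝ) < 1 := by exact_mod_cast hT1
    have ht1' : (d.t1 : ℝ) ≤ z.T0 := by exact_mod_cast ht1
    have ec : (((1 / 2 - z.X0 : ℚ)) : ℝ) = 1 / 2 - (z.X0 : ℝ) := by push_cast; ring
    have et : (((1 - z.T0 : ℚ)) : ℝ) = 1 - (z.T0 : ℝ) := by push_cast; ring
    refine ⟨ht1'.trans h4.le, ?_⟩
    obtain ⟨T, hTm, eT⟩ := box_mem h4.le ht.2 hT1'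
    rcases le_or_gt x (1 / 2) with h3 | h3
    · obtain ⟨X, hXm, eX⟩ := box_mem h1.le h3 hX1'
      have h2 := B3 X 0 0 T hXm z01 z01 hTm
      simp only [f3B, gEl, gSl, xB, tB, val_sub, val_mul, val_add, val_one, val_eD3, val_ebb,
        val_pe2, val_qc, val_vX, val_vT, ec, et, eX, eT] at h2
      rw [eta_lo h3]
      unfold rE rSh
      rw [if_pos h3, if_pos h3]
      linarith
    · have h2 := C3 (2 * x - 1) 0 0 T (two_sub_mem h3.le hx.2) z01 z01 hTm
      simp only [f3C, gEh, gSh, tB, val_sub, val_mul, val_add, val_one, val_eD3, val_ebb,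
        val_pe2, val_qc, val_xlo, val_xhi, val_hlf, val_vT, et, eT,
        show 1 / 2 * (2 * x - 1) = x - 1 / 2 by ring,
        show 1 / 2 + (x - 1 / 2) = x by ring] at h2
      rw [eta_hi h3.le]
      unfold rE rSh
      rw [if_neg (not_le.2 h3), if_neg (not_le.2 h3)]
      linarith

theorem Pos.den (h : z.Pos d) {x t : ℝ} (hx : x ∈ Icc (0 : ℝ) 1)
    (ht : t ∈ Icc (0 : ℝ) 1) : 0 < 1 - x * z.rSh x t := by
  rcases le_or_gt x (1 / 2) with h1 | h1
  · have h2 := h.denl (2 * x) 0 0 t (two_mul_mem hx.1 h1) z01 z01 ht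
    rw [fdl, eSl, val_sub, val_sub, val_mul, val_add, val_mul, val_one, val_pe2, val_dl, val_xlo,
      val_vT, show 1 / 2 * (2 * x) = x by ring] at h2
    unfold rSh
    rw [if_pos h1]
    linarith
  · have h2 := h.denh (2 * x - 1) 0 0 t (two_sub_mem h1.le hx.2) z01 z01 ht
    rw [fdh, eSh, val_sub, val_sub, val_mul, val_one, val_pe2, val_dl, val_xlo, val_xhi,
      val_vT, show 1 / 2 * (2 * x - 1) = x - 1 / 2 by ring,
      show 1 / 2 + (x - 1 / 2) = x by ring] at h2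
    unfold rSh
    rw [if_neg (not_le.2 h1)]
    linarith

/-- **the hazard majorant** -/
theorem Pos.ok (h : z.Pos d) (hp : d.Pos) : z.hz.Ok d.rsig where
  lo x hx t ht := h.lo hp hx ht
  d x _ t _ := hasDerivAt_S x t
  z x _ := S_zero x
  c x _ := (cont_E x).continuousOn
  den x hx t ht := h.den hx ht

theorem Pos.R_le (h : z.Pos d) {x t : ℝ} (hx : x ∈ Icc (0 : ℝ) 1)
    (ht : t ∈ Icc (0 : ℝ) 1) : z.rE x t ≤ z.rR x t * (1 - x * z.rSh x t) := by
  rcases le_or_gt x (1 / 2) with h1 | h1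
  · have h2 := h.Rl (2 * x) 0 0 t (two_mul_mem hx.1 h1) z01 z01 ht
    simp only [fRl, eSl, eRl, eEl, val_sub, val_mul, val_add, val_one, val_pe2, val_xlo,
      val_vT] at h2
    rw [show 1 / 2 * (2 * x) = x by ring] at h2
    unfold rSh rR rE
    rw [if_pos h1, if_pos h1, if_pos h1]
    linarith
  · have h2 := h.Rh (2 * x - 1) 0 0 t (two_sub_mem h1.le hx.2) z01 z01 ht
    simp only [fRh, eSh, eRh, eEh, val_sub, val_mul, val_one, val_pe2, val_xlo,
      val_xhi, val_vT] at h2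
    rw [show 1 / 2 * (2 * x - 1) = x - 1 / 2 by ring,
      show 1 / 2 + (x - 1 / 2) = x by ring] at h2
    unfold rSh rR rE
    rw [if_neg (not_le.2 h1), if_neg (not_le.2 h1), if_neg (not_le.2 h1)]
    linarith

theorem Pos.mb_one (h : z.Pos d) {t : ℝ} (ht : t ∈ Icc (0 : ℝ) 1) : 1 ≤ pv z.mb t := by
  have h2 := h.mb1.t ht
  rw [fmb1, val_sub, val_pe, val_one, val_vT] at h2
  linarith

theorem Pos.R_mb (h : z.Pos d) {x t : ℝ} (hx : x ∈ Icc (0 : ℝ) 1)
    (ht : t ∈ Icc (0 : ℝ) 1) : z.rR x t ≤ pv z.mb t := by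
  rcases le_or_gt x (1 / 2) with h1 | h1
  · have h2 := h.mbl (2 * x) 0 0 t (two_mul_mem hx.1 h1) z01 z01 ht
    simp only [fmbl, eRl, val_sub, val_mul, val_add, val_one, val_pe, val_pe2, val_xlo,
      val_vT] at h2
    rw [show 1 / 2 * (2 * x) = x by ring] at h2
    unfold rR
    rw [if_pos h1]
    linarith
  · have h2 := h.mbh (2 * x - 1) 0 0 t (two_sub_mem h1.le hx.2) z01 z01 ht
    simp only [fmbh, eRh, val_sub, val_pe, val_pe2, val_xlo, val_vT] at h2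
    rw [show 1 / 2 * (2 * x - 1) = x - 1 / 2 by ring] at h2
    unfold rR
    rw [if_neg (not_le.2 h1)]
    linarith

theorem Pos.rr_mb (h : z.Pos d) {x t : ℝ} (hx : x ∈ Icc (0 : ℝ) 1)
    (ht : t ∈ Icc (0 : ℝ) 1) : z.hz.rr x t ≤ pv z.mb t := by
  show z.rE x t / (1 - x * z.rSh x t) ≤ _
  rw [div_le_iff₀ (h.den hx ht)]
  exact (h.R_le hx ht).trans (mul_le_mul_of_nonneg_right (h.R_mb hx ht) (h.den hx ht).le)

theorem Pos.Th_one (h : z.Pos d) {r t : ℝ} (hr : 0 ≤ r) (hrt : r ≤ t) (ht : t ≤ 1) :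
    t - r ≤ z.Th t r := by
  obtain ⟨u, hu, hu2⟩ := div_mem hr hrt
  have h2 := h.th1 0 u 0 t z01 hu z01 ⟨hr.trans hrt, ht⟩
  rw [fth1, rZ, val_sub, val_pe2, val_mul, val_one, val_vZ, val_vT, hu2] at h2
  unfold Th
  have h3 : 0 ≤ t - r := sub_nonneg.2 hrt
  nlinarith

theorem Pos.Th_le (h : z.Pos d) {x : ℝ} (hx : x ∈ Icc (0 : ℝ) 1) {r t : ℝ} (hr : 0 ≤ r)
    (hrt : r ≤ t) (ht : t ≤ 1) : z.rU x t - z.rU x r ≤ z.Th t r := by
  obtain ⟨u, hu, hu2⟩ := div_mem hr hrt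
  have htt : t ∈ Icc (0 : ℝ) 1 := ⟨hr.trans hrt, ht⟩
  unfold Th
  rcases le_or_gt x (1 / 2) with h1 | h1
  · have h2 := h.thl (2 * x) u 0 t (two_mul_mem hx.1 h1) hu z01 htt
    simp only [fthl, eUl, rZ, val_sub, val_mul, val_add, val_pe2, val_xlo, val_vT, val_vZ,
      hu2] at h2
    rw [show 1 / 2 * (2 * x) = x by ring] at h2
    unfold rU
    rw [if_pos h1, if_pos h1]
    linarith
  · have h2 := h.thh (2 * x - 1) u 0 t (two_sub_mem h1.le hx.2) hu z01 htt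
    simp only [fthh, eUh, rZ, val_sub, val_mul, val_pe2, val_xlo, val_vT, val_vZ,
      hu2] at h2
    rw [show 1 / 2 * (2 * x - 1) = x - 1 / 2 by ring] at h2
    unfold rU
    rw [if_neg (not_le.2 h1), if_neg (not_le.2 h1)]
    linarith

/-- the integral of the rate -/
theorem Pos.log_le (h : z.Pos d) (hp : d.Pos) {y : ℝ} (hy : y ∈ Icc (0 : ℝ) 1) {r s : ℝ}
    (hr : 0 ≤ r) (hrs : r ≤ s) (hs : s ≤ 1) :
    Real.log (1 - y * z.rSh y r) - Real.log (1 - y * z.rSh y s) ≤ y * (z.rU y s - z.rU y r) :=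
  (h.ok hp).log_le (fun _ hy _ hs => h.R_le hy hs) (fun _ _ _ _ => hasDerivAt_U _ _) hy hr hrs hs

section
end

end HDat

end Pool.Agent.RZ.RCM9
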