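import Pool.Agent.RZ.RCM.NuA
import Pool.Agent.RZ.RCM9.DatH

/-! The scalar functions of level 0 with rational polynomials. -/

set_option autoImplicit false

namespace Pool.Agent.RZ.RCM9

open Set Bern Pk Pool.Agent.RZ.RCN.K

/-! ### nested lists -/

def ladd2 : List (List ℚ) → List (List ℚ) → List (List ℚ)
  | [], q => q
  | a :: p, q => match q with
    | [] => a :: p
    | b :: q' => ladd a b :: ladd2 p q'

/-- derivative in the outer variable -/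
def dO : List (List ℚ) → List (List ℚ)
  | [] => []
  | _ :: l => ladd2 l ([] :: dO l)

theorem pv2_ladd2 (p q : List (List ℚ)) (z t : ℝ) :
    pv2 (ladd2 p q) z t = pv2 p z t + pv2 q z t := by
  induction p generalizing q with
  | nil => simp [ladd2, pv2]
  | cons a p ih =>
    cases q with
    | nil => simp [ladd2, pv2]
    | cons b q =>
      simp only [ladd2, pv2, ih, pv_ladd]
      ring

theorem hasDerivAt_outer (l : List (List ℚ)) (z t : ℝ) :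
    HasDerivAt (fun z => pv2 l z t) (pv2 (dO l) z t) z := by
  induction l with
  | nil =>
    simp only [pv2, dO]
    exact hasDerivAt_const z (0 : ℝ)
  | cons a l ih =>
    simp only [pv2, dO, pv2_ladd2]
    have h := ((hasDerivAt_id' z).mul ih).const_add (pv a t)
    refine h.congr_deriv ?_
    simp only [pv]
    ring

theorem continuous_pv2' (l : List (List ℚ)) : Continuous fun p : ℝ × ℝ => pv2 l p.1 p.2 := by
  induction l with
  | nil => simp only [pv2]; exact continuous_const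
  | cons a l ih =>
    simp only [pv2]
    exact ((continuous_pv a).comp continuous_snd).add (continuous_fst.mul ih)

/-- `e^v ≤ 1 + v + v²/2 + v³/6 + v⁴/19` for `v ≤ 1` -/
theorem exp_le_T4 {v : ℝ} (h0 : 0 ≤ v) (h1 : v ≤ 1) :
    Real.exp v ≤ 1 + v * (1 + v / 2 + v ^ 2 / 6 + v ^ 3 / 19) := by
  have h := Real.exp_bound' h0 h1 (n := 6) (by norm_num)
  have e : ∑ m ∈ Finset.range 6, v ^ m / (m.factorial : ℝ)
      = 1 + v + v ^ 2 / 2 + v ^ 3 / 6 + v ^ 4 / 24 + v ^ 5 / 120 := by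
    simp only [Finset.sum_range_succ, Finset.sum_range_zero, Nat.factorial]
    norm_num
  rw [e] at h
  have h4 : 0 ≤ v ^ 4 := by positivity
  have e2 : v ^ 6 * ((6 : ℕ) + 1 : ℝ) / (((6 : ℕ).factorial : ℝ) * (6 : ℕ)) = v ^ 6 * 7 / 4320 := by
    simp only [Nat.factorial]
    norm_num
  rw [e2] at h
  have h5 : v ^ 5 ≤ v ^ 4 := by
    have := mul_le_mul_of_nonneg_left h1 h4
    calc v ^ 5 = v ^ 4 * v := by ring
      _ ≤ _ := by linarith
  have h6 : v ^ 6 ≤ v ^ 4 := by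
    have h7 : v ^ 2 ≤ 1 := by nlinarith
    have := mul_le_mul_of_nonneg_left h7 h4
    calc v ^ 6 = v ^ 4 * v ^ 2 := by ring
      _ ≤ _ := by linarith
  nlinarith

/-- the data of level 0 -/
structure YDat where
  QN : List (List ℚ)
  QY : List (List ℚ)

namespace YDat

variable (y : YDat) (z : HDat)

noncomputable def Y (t r : ℝ) : ℝ := (t - r) ^ 3 * pv2 y.QY r t
noncomputable def N (t r : ℝ) : ℝ := (t - r) ^ 2 * pv2 y.QN r t

/-! ### expressions -/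

def dT : E := vT - HDat.rZ
def eTh : E := pe2 z.Qt HDat.rZ vT
def eQY : E := pe2 y.QY HDat.rZ vT
def eQN : E := pe2 y.QN HDat.rZ vT
def eW : E := E.num 2 3 * eTh z + dT ^ 2 * (y.eQY * E.num 1 3)
def eV : E := dT * y.eW z
def f1 : E := 3 * y.eQY - dT * pe2 (dO y.QY) HDat.rZ vT - pe z.mb HDat.rZ * y.eQN
def f2 : E := 2 * y.eQN - dT * pe2 (dO y.QN) HDat.rZ vT
  - pe z.mb HDat.rZ * (y.eW z * (1 + y.eV z * E.num 1 2 + y.eV z ^ 2 * E.num 1 6
    + y.eV z ^ 3 * E.num 1 19))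
def f1n : E := 1 - dT ^ 2 * y.eQN
def fYT : E := eTh z - dT ^ 2 * y.eQY
def fV : E := 1 - y.eV z
def gY : E := 3 * y.eQY + dT * pe2 (y.QY.map pd) HDat.rZ vT
def gN : E := 2 * y.eQN + dT * pe2 (y.QN.map pd) HDat.rZ vT
def gT : E := eTh z + dT * pe2 (z.Qt.map pd) HDat.rZ vT
def fT2 : E := 2 - dT * eTh z

structure Pos : Prop where
  h1 : NN (y.f1 z)
  h2 : NN (y.f2 z)
  hY : NN y.eQY
  hN : NN y.eQN
  h1n : NN y.f1n
  hYT : NN (y.fYT z)
  hV : NN (y.fV z)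
  mY : NN y.gY
  mN : NN y.gN
  mT : NN (gT z)
  hT2 : NN (fT2 z)

variable {y z} {d : Dat} {r t : ℝ}

theorem val_q (a : ℤ) (b : ℕ) (ρ : ℕ → ℝ) : (E.num a b).val ρ = (a : ℝ) / (b : ℝ) := rfl

open Dat

theorem at_rt {e : E} (h : NN e) (hr : 0 ≤ r) (hrt : r ≤ t) (ht : t ≤ 1) :
    ∃ u : ℝ, u * t = r ∧ 0 ≤ e.val (pt 0 u 0 t) := by
  obtain ⟨u, hu, hu2⟩ := div_mem hr hrt
  exact ⟨u, hu2, h 0 u 0 t z01 hu z01 ⟨hr.trans hrt, ht⟩⟩

theorem Pos.QY0 (h : y.Pos z) (hr : 0 ≤ r) (hrt : r ≤ t) (ht : t ≤ 1) : 0 ≤ pv2 y.QY r t := by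
  obtain ⟨u, hu, h1⟩ := at_rt h.hY hr hrt ht
  simp only [eQY, HDat.rZ, val_pe2, val_mul, val_vT, val_vZ, hu] at h1
  exact h1

theorem Pos.QN0 (h : y.Pos z) (hr : 0 ≤ r) (hrt : r ≤ t) (ht : t ≤ 1) : 0 ≤ pv2 y.QN r t := by
  obtain ⟨u, hu, h1⟩ := at_rt h.hN hr hrt ht
  simp only [eQN, HDat.rZ, val_pe2, val_mul, val_vT, val_vZ, hu] at h1
  exact h1

theorem Pos.Y0 (h : y.Pos z) (hr : 0 ≤ r) (hrt : r ≤ t) (ht : t ≤ 1) : 0 ≤ y.Y t r :=
  mul_nonneg (pow_nonneg (sub_nonneg.2 hrt) 3) (h.QY0 hr hrt ht)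

theorem Pos.N0 (h : y.Pos z) (hr : 0 ≤ r) (hrt : r ≤ t) (ht : t ≤ 1) : 0 ≤ y.N t r :=
  mul_nonneg (pow_nonneg (sub_nonneg.2 hrt) 2) (h.QN0 hr hrt ht)

theorem Pos.N1 (h : y.Pos z) (hr : 0 ≤ r) (hrt : r ≤ t) (ht : t ≤ 1) : y.N t r ≤ 1 := by
  obtain ⟨u, hu, h1⟩ := at_rt h.h1n hr hrt ht
  simp only [f1n, dT, eQN, HDat.rZ, val_sub, val_pow, val_one, val_pe2, val_mul, val_vT, val_vZ,
    hu] at h1
  unfold N
  linarith

theorem Pos.YTh (h : y.Pos z) (hr : 0 ≤ r) (hrt : r ≤ t) (ht : t ≤ 1) : y.Y t r ≤ z.Th t r := by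
  obtain ⟨u, hu, h1⟩ := at_rt h.hYT hr hrt ht
  simp only [fYT, eTh, dT, eQY, HDat.rZ, val_sub, val_pow, val_pe2, val_mul, val_vT, val_vZ,
    hu] at h1
  unfold Y HDat.Th
  have h2 := mul_nonneg (sub_nonneg.2 hrt) h1
  nlinarith

theorem Pos.Th2 (h : y.Pos z) (hr : 0 ≤ r) (hrt : r ≤ t) (ht : t ≤ 1) : z.Th t r ≤ 2 := by
  obtain ⟨u, hu, h1⟩ := at_rt h.hT2 hr hrt ht
  simp only [fT2, eTh, dT, HDat.rZ, val_sub, val_two, val_pe2, val_mul, val_vT, val_vZ, hu] at h1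
  unfold HDat.Th
  linarith

/-- derivative of `Y` -/
noncomputable def Y' (y : YDat) (t r : ℝ) : ℝ :=
  -((t - r) ^ 2 * (3 * pv2 y.QY r t - (t - r) * pv2 (dO y.QY) r t))

noncomputable def N' (y : YDat) (t r : ℝ) : ℝ :=
  -((t - r) * (2 * pv2 y.QN r t - (t - r) * pv2 (dO y.QN) r t))

theorem hasDerivAt_Y (t r : ℝ) : HasDerivAt (y.Y t) (y.Y' t r) r := by
  have h1 : HasDerivAt (fun r : ℝ => (t - r) ^ 3) (-(3 * (t - r) ^ 2)) r := by
    have := ((hasDerivAt_id' r).const_sub t).pow 3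
    refine this.congr_deriv ?_
    norm_num
  refine (h1.mul (hasDerivAt_outer y.QY r t)).congr_deriv ?_
  unfold Y'
  ring

theorem hasDerivAt_N (t r : ℝ) : HasDerivAt (y.N t) (y.N' t r) r := by
  have h1 : HasDerivAt (fun r : ℝ => (t - r) ^ 2) (-(2 * (t - r))) r := by
    have := ((hasDerivAt_id' r).const_sub t).pow 2
    refine this.congr_deriv ?_
    norm_num
  refine (h1.mul (hasDerivAt_outer y.QN r t)).congr_deriv ?_
  unfold N'
  ring

theorem Pos.oY (h : y.Pos z) (hr : 0 ≤ r) (hrt : r ≤ t) (ht : t ≤ 1) :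
    pv z.mb r * y.N t r ≤ -y.Y' t r := by
  obtain ⟨u, hu, h1⟩ := at_rt h.h1 hr hrt ht
  simp only [f1, eQY, eQN, dT, HDat.rZ, val_sub, val_three, val_pe2, val_pe, val_mul, val_vT,
    val_vZ, hu] at h1
  unfold N Y'
  have h2 := mul_nonneg (sq_nonneg (t - r)) h1
  nlinarith

theorem Pos.vv (h : y.Pos z) (hr : 0 ≤ r) (hrt : r ≤ t) (ht : t ≤ 1) :
    2 * z.Th t r / 3 + y.Y t r / 3 ≤ 1 := by
  obtain ⟨u, hu, h1⟩ := at_rt h.hV hr hrt ht
  simp only [fV, eV, eW, eTh, eQY, dT, HDat.rZ, val_sub, val_add, val_pow, val_pe2, val_mul,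
    val_vT, val_vZ, val_q, val_one, hu] at h1
  unfold HDat.Th Y
  push_cast at h1
  nlinarith

theorem Pos.oN (h : y.Pos z) (hz : z.Pos d) (hr : 0 ≤ r) (hrt : r ≤ t) (ht : t ≤ 1) :
    pv z.mb r * (Real.exp (2 * z.Th t r / 3 + y.Y t r / 3) - 1) ≤ -y.N' t r := by
  have hr1 : r ∈ Icc (0 : ℝ) 1 := ⟨hr, hrt.trans ht⟩
  have m0 : 0 ≤ pv z.mb r := by linarith [hz.mb_one hr1]
  have T0 : 0 ≤ z.Th t r := (sub_nonneg.2 hrt).trans (hz.Th_one hr hrt ht)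
  have Y0 := h.Y0 hr hrt ht
  have e1 := exp_le_T4 (v := 2 * z.Th t r / 3 + y.Y t r / 3) (by positivity) (h.vv hr hrt ht)
  obtain ⟨u, hu, h1⟩ := at_rt h.h2 hr hrt ht
  simp only [f2, eV, eW, eTh, eQY, eQN, dT, HDat.rZ, val_sub, val_add, val_pow, val_pe2, val_pe,
    val_mul, val_one, val_two, val_vT, val_vZ, val_q, hu] at h1
  push_cast at h1
  set v := 2 * z.Th t r / 3 + y.Y t r / 3 with hv
  set w := 2 / 3 * pv2 z.Qt r t + (t - r) ^ 2 * (pv2 y.QY r t * (1 / 3)) with hw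
  have hvw : v = (t - r) * w := by
    rw [hv, hw]
    unfold HDat.Th Y
    ring
  have e2 : pv z.mb r * (Real.exp v - 1)
      ≤ pv z.mb r * (v * (1 + v / 2 + v ^ 2 / 6 + v ^ 3 / 19)) :=
    mul_le_mul_of_nonneg_left (by linarith) m0
  have h3 := mul_nonneg (sub_nonneg.2 hrt) h1
  unfold N'
  have e3 : v * (1 + v / 2 + v ^ 2 / 6 + v ^ 3 / 19) = (t - r) * (w * (1 + (t - r) * w * (1 / 2)
      + ((t - r) * w) ^ 2 * (1 / 6) + ((t - r) * w) ^ 3 * (1 / 19))) := by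
    rw [hvw]; ring
  rw [e3] at e2
  linarith

/-! ### monotonicity in the horizon -/

/-! ### the conditions on the scalar functions -/

theorem Pos.clt (hz : z.Pos d) (hd : d.Pos) {s θ : ℝ} (hr : 0 ≤ r) (hrs : r ≤ s) (hs : s ≤ 1)
    (hθ : z.Th s r ≤ θ) : Clt z.hz r s θ where
  re y hy := ((hz.log_le hd hy hr hrs hs).trans (mul_le_mul_of_nonneg_left
    (hz.Th_le hy hr hrs hs) hy.1)).trans (mul_le_mul_of_nonneg_left hθ hy.1)
  pe := (hz.Th_one hr hrs hs).trans hθ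

/-! ### continuity -/

theorem cont_Th : Continuous fun p : ℝ × ℝ => z.Th p.1 p.2 := by
  unfold HDat.Th
  exact (continuous_fst.sub continuous_snd).mul
    ((continuous_pv2' z.Qt).comp (continuous_snd.prodMk continuous_fst))

theorem cont_Y : Continuous fun p : ℝ × ℝ => y.Y p.1 p.2 := by
  unfold Y
  exact ((continuous_fst.sub continuous_snd).pow 3).mul
    ((continuous_pv2' y.QY).comp (continuous_snd.prodMk continuous_fst))

end YDat

end Pool.Agent.RZ.RCM9
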