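import Pool.Agent.RZ.RCM9.CertY
import Pool.Agent.RZ.RCN.Ins

/-! Generated: the data of the assembly. -/

set_option autoImplicit false

namespace Pool.Agent.RZ.RCM9.CertP

open Pool.Agent.RZ.RCM9.Bern Pool.Agent.RZ.RCM9.Pk Pool.Agent.RZ.RCN.K

def p : Ps where
  d := CertN.d
  z := CertH.z
  y := CertY.y
  g := CertH.k
  κ := 1/100

theorem n_Kl : NN p.eKl :=
  NN.of (K := 52) (D := ⟨2, 1, 1, 11⟩) (Box.of 4 (by decide +kernel)) (by decide +kernel)

theorem n_Kh : NN p.eKh :=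
  NN.of (K := 52) (D := ⟨2, 1, 1, 11⟩) (Box.of 4 (by decide +kernel)) (by decide +kernel)

theorem n_loa : NN p.eLoa :=
  NN.of (K := 35) (D := ⟨1, 1, 1, 7⟩) (Box.of 4 (by decide +kernel)) (by decide +kernel)

theorem n_lob : NN p.eLob :=
  NN.of (K := 38) (D := ⟨1, 1, 1, 7⟩) (Box.of 4 (by decide +kernel)) (by decide +kernel)

theorem n_lol : NN p.eLol :=
  NN.of (K := 152) (D := ⟨2, 1, 1, 19⟩) (Box.of 18715 (by decide +kernel)) (by decide +kernel)

theorem n_loh : NN p.eLoh :=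
  NN.of (K := 152) (D := ⟨2, 1, 1, 19⟩) (Box.of 18715 (by decide +kernel)) (by decide +kernel)

theorem ok : p.Ok :=
  ⟨CertN.pos, CertN.bd, CertN.bdS, CertN.posK, CertH.posH, CertY.posY, CertH.posC, by decide +kernel,
    by decide +kernel, n_Kl, n_Kh, n_loa, n_lob, n_lol, n_loh⟩

end Pool.Agent.RZ.RCM9.CertP
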