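import Pool.Agent.RZ.RCM9.CertH
import Pool.Agent.RZ.RCM9.DatY

/-! Generated: the numbers of level 0 and the box certificates. -/

set_option autoImplicit false

namespace Pool.Agent.RZ.RCM9.CertY

open Pool.Agent.RZ.RCM9.Bern Pool.Agent.RZ.RCM9.Pk Pool.Agent.RZ.RCM9.CertH Pool.Agent.RZ.RCN.K

def y : YDat where
  QN := [[218061/500000, (-152827/250000), 199233/125000, (-330499/250000), 162411/250000], [2491/50000, (-6599/15625), (-3267/2500), 301349/62500, (-802847/250000)], [930969/250000, (-1200057/31250), 7390413/62500, (-3462213/25000), 28028457/500000], [(-313738/15625), 2798024/15625, (-59504541/125000), 31245307/62500, (-46162567/250000)], [3187447/250000, (-6770317/50000), 185758743/500000, (-48859641/125000), 35765097/250000]]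
  QY := [[149953/1000000, (-2203/10000), 240861/500000, (-54531/250000), 47509/500000], [31291/250000, (-117877/62500), 206133/31250, (-519563/62500), 43263/12500], [126969/50000, (-178287/12500), 2893563/125000, (-1324653/125000), (-51/100000)], [(-4113631/250000), 6524679/62500, (-6499593/31250), 10239483/62500, (-11232067/250000)], [1830789/100000, (-14854221/125000), 4932249/20000, (-51863857/250000), 62055617/1000000]]

theorem n_h1 : NN (y.f1 z) :=
  NN.of (K := 205) (D := ⟨1, 13, 1, 17⟩) (Box.of 1282138488324891 (by decide +kernel)) (by decide +kernel)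

theorem n_h2 : NN (y.f2 z) :=
  NN.of (K := 574) (D := ⟨1, 36, 1, 52⟩) (Box.of 4857936153 (by decide +kernel)) (by decide +kernel)

theorem n_hY : NN y.eQY :=
  NN.of (K := 66) (D := ⟨1, 5, 1, 9⟩) (Box.of 291 (by decide +kernel)) (by decide +kernel)

theorem n_hN : NN y.eQN :=
  NN.of (K := 66) (D := ⟨1, 5, 1, 9⟩) (Box.of 291 (by decide +kernel)) (by decide +kernel)

theorem n_h1n : NN y.f1n :=
  NN.of (K := 57) (D := ⟨1, 7, 1, 11⟩) (Box.of 4 (by decide +kernel)) (by decide +kernel)

theorem n_hYT : NN (y.fYT z) :=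
  NN.of (K := 79) (D := ⟨1, 7, 1, 11⟩) (Box.of 291 (by decide +kernel)) (by decide +kernel)

theorem n_hV : NN (y.fV z) :=
  NN.of (K := 64) (D := ⟨1, 8, 1, 12⟩) (Box.of 4 (by decide +kernel)) (by decide +kernel)

theorem n_mY : NN y.gY :=
  NN.of (K := 70) (D := ⟨1, 6, 1, 9⟩) (Box.of 291 (by decide +kernel)) (by decide +kernel)

theorem n_mN : NN y.gN :=
  NN.of (K := 70) (D := ⟨1, 6, 1, 9⟩) (Box.of 291 (by decide +kernel)) (by decide +kernel)

theorem n_mT : NN (YDat.gT z) :=
  NN.of (K := 82) (D := ⟨1, 7, 1, 11⟩) (Box.of 291 (by decide +kernel)) (by decide +kernel)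

theorem n_hT2 : NN (YDat.fT2 z) :=
  NN.of (K := 62) (D := ⟨1, 7, 1, 12⟩) (Box.of 4 (by decide +kernel)) (by decide +kernel)

theorem posY : y.Pos z :=
  ⟨n_h1, n_h2, n_hY, n_hN, n_h1n, n_hYT, n_hV, n_mY, n_mN, n_mT, n_hT2⟩

end Pool.Agent.RZ.RCM9.CertY
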