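import Pool.Agent.RZ.RCM9.PVal2
import Pool.Agent.RZ.RCM9.PkR
import Pool.Agent.RZ.RCN.Inst

/-! The certificate with rational polynomials: the instance of `Dt` and the list of the polynomial
expressions which have to be nonnegative on the cube (MP_73ccd0_lc, route M). -/

set_option autoImplicit false

namespace Pool.Agent.RZ.RCM9

open Set Bern Pk Pool.Agent.RZ.RCN.K

/-! ### values at rational points -/

/-- value at a rational point -/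
def ev : List ℚ → ℚ → ℚ
  | [], _ => 0
  | a :: l, q => a + q * ev l q

theorem pv_ev (l : List ℚ) (q : ℚ) : pv l (q : ℝ) = (ev l q : ℝ) := by
  induction l with
  | nil => simp [pv, ev]
  | cons a l ih =>
    simp only [pv, ev, ih]
    push_cast
    ring

theorem pv_ev0 (l : List ℚ) : pv l 0 = (ev l 0 : ℝ) := by
  have := pv_ev l 0
  rwa [Rat.cast_zero] at this

theorem pv_ev1 (l : List ℚ) : pv l 1 = (ev l 1 : ℝ) := by
  have := pv_ev l 1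
  rwa [Rat.cast_one] at this

/-- nonnegative on the cube -/
def NN (e : E) : Prop := ∀ X Z U T : ℝ, X ∈ Icc (0 : ℝ) 1 → Z ∈ Icc (0 : ℝ) 1 →
  U ∈ Icc (0 : ℝ) 1 → T ∈ Icc (0 : ℝ) 1 → 0 ≤ e.val (pt X Z U T)

theorem NN.of {K : ℕ} {D : Dim} {e : E} (h : Box K D e []) (h0 : hdr K D e = true) : NN e :=
  fun _ _ _ _ hX hZ hU hT => h.pos4 h0 hX.1 hX.2 hZ.1 hZ.2 hU.1 hU.2 hT.1 hT.2

def vX : E := E.var 0
def vZ : E := E.var 1
def vU : E := E.var 2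
def vT : E := E.var 3
def hlf : E := E.num 1 2

section
variable (X Z U T : ℝ)
theorem val_vX : vX.val (pt X Z U T) = X := rfl
theorem val_vZ : vZ.val (pt X Z U T) = Z := rfl
theorem val_vU : vU.val (pt X Z U T) = U := rfl
theorem val_vT : vT.val (pt X Z U T) = T := rfl
end
theorem val_hlf (ρ : ℕ → ℝ) : hlf.val ρ = 1 / 2 := by
  show (((1 : ℤ) : ℝ)) / ((2 : ℕ) : ℝ) = _
  norm_num

/-- the data of the certificate -/
structure Dat where
  rho : ℚ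
  t1 : ℚ
  th : ℚ
  ST : ℚ
  SP : ℚ
  shT : List ℚ
  shP : List ℚ
  j : List ℚ
  F : List ℚ
  F2 : List ℚ
  F3 : List ℚ
  k1 : ℚ
  G : List ℚ
  Gs : List ℚ
  jp : List ℚ := lsmul rho j
  Gp : List ℚ := lsmul rho Gs
  np : List ℚ := lsmul rho (ladd Gs (lsmul (-1) G))
  Z : List ℚ
  D : List ℚ
  lam : List ℚ
  o0p : List ℚ
  o1p : List ℚ
  PFp : List ℚ
  PF2p : List ℚ
  PF3p : List ℚ
  W1p : List ℚ
  N : List ℚ
  be0 : List ℚ
  be1 : List ℚ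
  Plo : List (List (List ℚ))
  Phi : List (List (List ℚ))
  Klo : List (List ℚ)
  Khi : List (List ℚ)
  ee : ℚ
  sg0 : List ℚ
  sg1 : List ℚ
  sg2 : List ℚ

namespace Dat

variable (d : Dat)

def kapl : List ℚ := lmul [1, 2, 1] d.j
def ktl : List ℚ := pd d.kapl
def Jl : List ℚ := pri d.j
def kappl : List ℚ := lmul [1, 2, 1] d.jp
def kpl : List ℚ := pd d.kappl
def Jpl : List ℚ := pri d.jp
def F' : List ℚ := pd d.F
def F2' : List ℚ := pd d.F2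
def F3' : List ℚ := pd d.F3
def G' : List ℚ := pd d.G
def Z' : List ℚ := pd d.Z
def V' : List ℚ := lmul d.Gp d.D
def Vl : List ℚ := pri d.V'
def W1l : List ℚ := pri d.W1p
def o0l : List ℚ := pri d.o0p
def o1l : List ℚ := pri d.o1p
def PFl : List ℚ := pri d.PFp
def PF2l : List ℚ := pri d.PF2p
def PF3l : List ℚ := pri d.PF3p
/-- the integrals of `P`, `be0 P`, `be1 P` -/
def Q0 (P : List (List (List ℚ))) : List (List (List ℚ)) := P.map (List.map pri)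
def Q1 (P : List (List (List ℚ))) : List (List (List ℚ)) :=
  (P.map (List.map (lmul d.be0))).map (List.map pri)
def Q2 (P : List (List (List ℚ))) : List (List (List ℚ)) :=
  (P.map (List.map (lmul d.be1))).map (List.map pri)

/-! ### real functions -/

noncomputable def rk (l : List ℚ) (y : ℝ) : ℝ := y ^ 2 * pv l y

noncomputable def rb (y e t : ℝ) : ℝ := 1 + (1 - y) * (pv d.be0 t - 1) + e * pv d.be1 t

noncomputable def rS (y e t : ℝ) : ℝ :=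
  y * (e * pv d.Z t) - (y ^ 2 * (1 - y) * (pv d.F t + y * pv d.F3 t
    + 4 * (y * (1 - y)) * pv d.F2 t) + rk d.shT y * pv d.Gs t)

noncomputable def rW0 (t : ℝ) : ℝ := (d.rho : ℝ) * ((1 + t) ^ 2 * (pv d.G' t + pv d.j t))

/-- the integral of `b(y) P(w, z)` -/
noncomputable def rC (P : List (List (List ℚ))) (w y e z t : ℝ) : ℝ :=
  y * pv3 (Q0 P) w z t + (1 - y) * pv3 (d.Q1 P) w z t + e * pv3 (d.Q2 P) w z t

/-- the factor `P~` -/
noncomputable def rP (w z t : ℝ) : ℝ :=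
  if z ≤ 1 / 2 then pv3 d.Plo w z t else pv3 d.Phi w (z - 1 / 2) t

noncomputable def rK (x t : ℝ) : ℝ :=
  if x ≤ 1 / 2 then x * pv2 d.Klo x t else pv2 d.Khi (x - 1 / 2) t

/-- the slack `sigma` -/
noncomputable def rsig (x t : ℝ) : ℝ :=
  x * (pv d.sg0 t + eta x * pv d.sg1 t) + max (x - 1 / 2) 0 * pv d.sg2 t

/-- the instance -/
noncomputable def dt : Dt where
  sT := rk d.shT
  ka := rk d.shP
  ST := d.ST
  SP := d.SP
  kt := pv d.ktl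
  kap := pv d.kapl
  j := pv d.j
  J := pv d.Jl
  kp := pv d.kpl
  kapp := pv d.kappl
  jp := pv d.jp
  Jp := pv d.Jpl
  rho := d.rho
  t1 := d.t1
  th := d.th
  F := pv d.F
  F' := pv d.F'
  F2 := pv d.F2
  F2' := pv d.F2'
  F3 := pv d.F3
  F3' := pv d.F3'
  k1 := d.k1
  G := pv d.G
  G' := pv d.G'
  Gs := pv d.Gs
  Gp := pv d.Gp
  np := pv d.np
  Z := pv d.Z
  Z' := pv d.Z'
  D := pv d.D
  V := pv d.Vl
  V' := pv d.V'
  W1 := pv d.W1l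
  lam := pv d.lam
  o0 := pv d.o0l
  o0' := pv d.o0p
  o1 := pv d.o1l
  o1' := pv d.o1p
  PF := pv d.PFl
  PF' := pv d.PFp
  PF2 := pv d.PF2l
  PF2' := pv d.PF2p
  PF3 := pv d.PF3l
  PF3' := pv d.PF3p
  N := pv d.N
  KK := d.rK
  C1 x y z t := if z ≤ 1 / 2 then d.rC d.Plo (x + y) y (eta y) z t
    else d.rC d.Phi (x + y) y (eta y) (z - 1 / 2) t
  C1' x y z t := d.rb y (eta y) t * d.rP (x + y) z t

noncomputable def rL0 (x e K t : ℝ) : ℝ :=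
  e * pv d.Z' t * (1 + t) ^ 2 + 2 * (x * (pv d.o0l t + e * pv d.o1l t))
    + 2 * (pv d.lam t * d.rS x e t) - 2 * (1 - x) * K

noncomputable def rLP (x e t : ℝ) : ℝ :=
  1 - (e * pv d.Z' t * (1 + t) ^ 2 + 2 * (1 - x) * pv d.N t * (1 + t) ^ 2
      + (d.SP : ℝ) * (1 - x) * pv d.kappl t)

noncomputable def rL1 (x y z ey ez K c1 c2 t : ℝ) : ℝ :=
  K * (y + z) + pv d.lam t * (d.rS y ey t + d.rS z ez t)
    + 2 * (x * (y * z * (pv d.PFl t + (y + z) * pv d.PF3l t + 4 * (y * z) * pv d.PF2l t)))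
    - (y * z * (c1 + c2)
      + (1 + t) ^ 2 * (y * z * (pv d.F' t + (y + z) * pv d.F3' t + 4 * (y * z) * pv d.F2' t))
      + (d.rW0 t + x * pv d.W1l t) * ((rk d.shP y + rk d.shP z) * (1 / 2)))

/-! ### expressions -/

def ek (l : List ℚ) (y : E) : E := y ^ 2 * pe l y

def eS (y e t : E) : E :=
  y * (e * pe d.Z t) - (y ^ 2 * (1 - y) * (pe d.F t + y * pe d.F3 t
    + 4 * (y * (1 - y)) * pe d.F2 t) + ek d.shT y * pe d.Gs t)

def eW0 (t : E) : E := qc d.rho * ((1 + t) ^ 2 * (pe d.G' t + pe d.j t))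

def eC (P : List (List (List ℚ))) (w y e z t : E) : E :=
  y * pe3 (Q0 P) w z t + (1 - y) * pe3 (d.Q1 P) w z t + e * pe3 (d.Q2 P) w z t

def eL0 (x e K t : E) : E :=
  e * pe d.Z' t * (1 + t) ^ 2 + 2 * (x * (pe d.o0l t + e * pe d.o1l t))
    + 2 * (pe d.lam t * d.eS x e t) - 2 * (1 - x) * K

def eLP (x e t : E) : E :=
  1 - (e * pe d.Z' t * (1 + t) ^ 2 + 2 * (1 - x) * pe d.N t * (1 + t) ^ 2
      + qc d.SP * (1 - x) * pe d.kappl t)

def eL1 (x y z ey ez K c1 c2 t : E) : E :=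
  K * (y + z) + pe d.lam t * (d.eS y ey t + d.eS z ez t)
    + 2 * (x * (y * z * (pe d.PFl t + (y + z) * pe d.PF3l t + 4 * (y * z) * pe d.PF2l t)))
    - (y * z * (c1 + c2)
      + (1 + t) ^ 2 * (y * z * (pe d.F' t + (y + z) * pe d.F3' t + 4 * (y * z) * pe d.F2' t))
      + (d.eW0 t + x * pe d.W1l t) * ((ek d.shP y + ek d.shP z) * hlf))

section
variable (ρ : ℕ → ℝ)

theorem val_ek (l : List ℚ) (y : E) : (ek l y).val ρ = rk l (y.val ρ) := by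
  simp only [ek, rk, val_mul, val_pow, val_pe]

theorem val_eS (y e t : E) : (d.eS y e t).val ρ = d.rS (y.val ρ) (e.val ρ) (t.val ρ) := by
  simp only [eS, rS, val_mul, val_pow, val_sub, val_add, val_one, val_four, val_pe, val_ek]

theorem val_eW0 (t : E) : (d.eW0 t).val ρ = d.rW0 (t.val ρ) := by
  simp only [eW0, rW0, val_mul, val_pow, val_add, val_one, val_qc, val_pe]

theorem val_eC (P : List (List (List ℚ))) (w y e z t : E) : (d.eC P w y e z t).val ρ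
    = d.rC P (w.val ρ) (y.val ρ) (e.val ρ) (z.val ρ) (t.val ρ) := by
  simp only [eC, rC, val_mul, val_sub, val_add, val_one, val_pe3]

theorem val_eL0 (x e K t : E) : (d.eL0 x e K t).val ρ
    = d.rL0 (x.val ρ) (e.val ρ) (K.val ρ) (t.val ρ) := by
  simp only [eL0, rL0, val_mul, val_pow, val_sub, val_add, val_one, val_two, val_pe, val_eS]

theorem val_eLP (x e t : E) : (d.eLP x e t).val ρ
    = d.rLP (x.val ρ) (e.val ρ) (t.val ρ) := by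
  simp only [eLP, rLP, val_mul, val_pow, val_sub, val_add, val_one, val_two, val_pe, val_qc]

theorem val_eL1 (x y z ey ez K c1 c2 t : E) : (d.eL1 x y z ey ez K c1 c2 t).val ρ
    = d.rL1 (x.val ρ) (y.val ρ) (z.val ρ) (ey.val ρ) (ez.val ρ) (K.val ρ) (c1.val ρ) (c2.val ρ)
      (t.val ρ) := by
  simp only [eL1, rL1, val_mul, val_pow, val_sub, val_add, val_one, val_two, val_four, val_pe,
    val_eS, val_eW0, val_ek, val_hlf]

end

/-- the small constant of the strict inequalities -/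
def dl : E := E.num 1 20000

theorem val_dl (ρ : ℕ → ℝ) : dl.val ρ = 1 / 20000 := by
  show (((1 : ℤ) : ℝ)) / ((20000 : ℕ) : ℝ) = _
  norm_num

/-- time in `[0, t1]` -/
def tlo : E := qc d.t1 * vT
/-- time in `[t1, 1]` -/
def thi : E := qc d.t1 + qc (1 - d.t1) * vT

def xlo : E := hlf * vX
def xhi : E := hlf + hlf * vX
def zlo : E := hlf * vZ
def zhi : E := hlf + hlf * vZ

def eshT : E := qc d.ST - vX * pe d.shT vX
def eshP : E := qc d.SP - vX * pe d.shP vX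
def eshT0 : E := pe d.shT vX
def esTk : E := pe d.shT vX - qc d.k1 * (1 - vX) ^ 2
def eshP0 : E := pe d.shP vX
def elam1 : E := 2 * (1 + vT) - pe d.lam vT * (2 + qc d.th * pe d.Z vT * (1 + vT))
def eo0i : E := 1 - pe d.o0p vT * ((1 + vT) + qc d.th * pe d.Z vT * (1 + vT) ^ 2)
def eo1i : E := (0 - pe d.Z' vT * (1 + vT) ^ 2)
  - pe d.o1p vT * ((1 + vT) + qc d.th * pe d.Z vT * (1 + vT) ^ 2)
def ePFi : E := pe d.F' vT * (1 + vT) - pe d.PFp vT * (1 + qc d.th * pe d.Z vT * (1 + vT))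
def ePF2i : E := pe d.F2' vT * (1 + vT) - pe d.PF2p vT * (1 + qc d.th * pe d.Z vT * (1 + vT))
def ePF3i : E := pe d.F3' vT * (1 + vT) - pe d.PF3p vT * (1 + qc d.th * pe d.Z vT * (1 + vT))
def eabd : E := 1 - qc d.th * pe d.Z' vT * (1 + vT) ^ 2
def eDi : E := pe d.D vT * (1 + qc d.th * pe d.Z vT * (1 + vT)) ^ 2
  - (1 - qc d.th * pe d.Z' vT * (1 + vT) ^ 2)
def eW1a : E := pe d.W1l vT - 2 * pe d.Vl vT
def eW1b : E := pe d.W1l d.tlo
  - 2 * (pe d.Vl d.tlo + (1 + d.tlo) * pe d.Jpl d.tlo)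
def eNf1 : E := 4 * pe d.N vT + pe d.F' vT
def eNf2 : E := 4 * pe d.N vT + (pe d.F' vT + pe d.F3' vT)
def eNf3 : E := 4 * pe d.N vT + (pe d.F' vT + pe d.F3' vT + pe d.F2' vT)
def eF3G : E := qc d.k1 * pe d.Gs vT - pe d.F3 vT
def eMp : E := pe d.G' vT + pe d.j vT
def eM1 : E := (1 + d.thi) * (pe d.G d.thi + pe d.Jl d.thi) - 2 * d.thi * qc (ev d.Jl 1)
def eGJ1 : E := pe d.Gs vT - pe d.G vT
def eGJ2 : E := pe d.Gs d.tlo - (pe d.G d.tlo + pe d.Jl d.tlo)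
def eGp1 : E := pe d.Gp d.thi + pe d.Jpl d.thi - qc d.rho * (pe d.G d.thi + pe d.Jl d.thi)
def eGp2 : E := pe d.Gp d.tlo - qc d.rho * (pe d.G d.tlo + pe d.Jl d.tlo)
def enp1 : E := pe d.np d.tlo - pe d.Jpl d.tlo
def enb : E := (qc d.th - hlf) * pe d.Z d.tlo - qc d.ST * pe d.Jl d.tlo
def esg1l : E := d.eS xlo xlo vT
def esg1h : E := d.eS xhi hlf vT
def eLP0l : E := d.eLP xlo xlo vT - dl
def eLP0h : E := d.eLP xhi hlf vT - dl
def esgl : E := pe d.sg0 vT + xlo * pe d.sg1 vT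
def esgh : E := xhi * (pe d.sg0 vT + hlf * pe d.sg1 vT) + xlo * pe d.sg2 vT
def eL0l : E := d.eL0 xlo xlo (xlo * pe2 d.Klo xlo vT) vT - xlo * d.esgl - dl * xlo
def eL0h : E := d.eL0 xhi hlf (pe2 d.Khi xlo vT) vT - d.esgh - dl
def eK2l : E := pe2 d.Klo xlo vT
def eK2h : E := pe2 d.Khi xlo vT
def eL1a : E := d.eL1 xlo (vU * zlo) zlo (vU * zlo) zlo (xlo * pe2 d.Klo xlo vT)
  (d.eC d.Plo (xlo + vU * zlo) (vU * zlo) (vU * zlo) zlo vT)
  (d.eC d.Plo (xlo + zlo) zlo zlo (vU * zlo) vT) vT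
/-- `1 - z` for `z = zhi` -/
def omz : E := hlf * (1 - vZ)
def eL1b : E := d.eL1 (vX * omz) (vU * omz) zhi (vU * omz) hlf
  (vX * omz * pe2 d.Klo (vX * omz) vT)
  (d.eC d.Phi (vX * omz + vU * omz) (vU * omz) (vU * omz) zlo vT)
  (d.eC d.Plo (vX * omz + zhi) zhi hlf (vU * omz) vT) vT
/-- `1 - x` for `x = xhi` -/
def omx : E := hlf * (1 - vX)
def eL1c : E := d.eL1 xhi (vU * (vZ * omx)) (vZ * omx) (vU * (vZ * omx)) (vZ * omx)
  (pe2 d.Khi xlo vT)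
  (d.eC d.Plo (xhi + vU * (vZ * omx)) (vU * (vZ * omx)) (vU * (vZ * omx)) (vZ * omx) vT)
  (d.eC d.Plo (xhi + vZ * omx) (vZ * omx) (vZ * omx) (vU * (vZ * omx)) vT) vT

/-- the polynomial inequalities -/
structure Pos : Prop where
  shT : NN d.eshT
  shP : NN d.eshP
  shT0 : NN d.eshT0
  sTk : NN d.esTk
  shP0 : NN d.eshP0
  lam0 : NN (pe d.lam vT)
  lam1 : NN d.elam1
  o0i : NN d.eo0i
  o1i : NN d.eo1i
  PFi : NN d.ePFi
  PF2i : NN d.ePF2i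
  PF3i : NN d.ePF3i
  abd : NN d.eabd
  Di : NN d.eDi
  W1a : NN d.eW1a
  W1b : NN d.eW1b
  N0 : NN (pe d.N vT)
  Nf1 : NN d.eNf1
  Nf2 : NN d.eNf2
  Nf3 : NN d.eNf3
  F3G : NN d.eF3G
  kt : NN (pe d.ktl vT)
  F : NN (pe d.F vT)
  F2 : NN (pe d.F2 vT)
  F3 : NN (pe d.F3 vT)
  Gs : NN (pe d.Gs vT)
  Z : NN (pe d.Z vT)
  Mp : NN d.eMp
  M1 : NN d.eM1
  GJ1 : NN d.eGJ1
  GJ2 : NN d.eGJ2
  nb : NN d.enb
  sg1l : NN d.esg1l
  sg1h : NN d.esg1h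
  LP0l : NN d.eLP0l
  LP0h : NN d.eLP0h
  sgl : NN d.esgl
  sgh : NN d.esgh
  L0l : NN d.eL0l
  L0h : NN d.eL0h
  K2l : NN d.eK2l
  K2h : NN d.eK2h
  L1a : NN d.eL1a
  L1b : NN d.eL1b
  L1c : NN d.eL1c
  kp : NN (pe d.kpl vT)
  Gp : NN (pe d.Gp vT)
  np : NN (pe d.np vT)
  Gp1 : NN d.eGp1
  Gp2 : NN d.eGp2
  np1 : NN d.enp1

/-- the conditions on the numbers -/
structure Bd : Prop where
  t10 : 0 < d.t1
  t11 : d.t1 < 1
  rho0 : 0 ≤ d.rho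
  th0 : 1 / 2 ≤ d.th
  ST0 : 0 ≤ d.ST
  SP0 : 0 ≤ d.SP
  J1 : 0 < ev d.Jl 1
  kap0 : ev d.kapl 0 = 0
  kapp0 : ev d.kappl 0 = 0
  Jp1 : ev d.Jpl 1 = d.rho * ev d.Jl 1
  F0 : ev d.F 0 = 0
  F1 : ev d.F 1 = 0
  F20 : ev d.F2 0 = 0
  F21 : ev d.F2 1 = 0
  F30 : ev d.F3 0 = 0
  F31 : ev d.F3 1 = 0
  k10 : 0 ≤ d.k1
  G0 : ev d.G 0 = 0
  G1 : ev d.G 1 = 0
  Z0 : ev d.Z 0 = 0
  Z1 : ev d.Z 1 = 0
  F'0 : ev d.F' 0 ≤ 0
  F2'0 : ev d.F2' 0 ≤ 0
  F3'0 : ev d.F3' 0 ≤ 0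
  G'0 : ev d.G' 0 = 0
  Z'0 : 0 ≤ ev d.Z' 0

end Dat

end Pool.Agent.RZ.RCM9
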