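import Pool.Agent.RZ.RCM9.Dat

/-! From the polynomial inequalities on the cube to the hypotheses of the certificate. -/

set_option autoImplicit false

namespace Pool.Agent.RZ.RCM9

open Set Bern Pk Pool.Agent.RZ.RCN.K

namespace Dat

variable {d : Dat}

theorem z01 : (0 : ℝ) ∈ Icc (0 : ℝ) 1 := ⟨le_rfl, zero_le_one⟩

theorem _root_.Pool.Agent.RZ.RCM9.NN.t {e : E} (h : NN e) {t : ℝ} (ht : t ∈ Icc (0 : ℝ) 1) :
    0 ≤ e.val (pt 0 0 0 t) := h 0 0 0 t z01 z01 z01 ht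

theorem Bd.lo (hb : d.Bd) {t : ℝ} (ht : 0 ≤ t) (ht1 : t ≤ (d.t1 : ℝ)) :
    ∃ T ∈ Icc (0 : ℝ) 1, (d.t1 : ℝ) * T = t := by
  have h0 : (0 : ℝ) < (d.t1 : ℝ) := by exact_mod_cast hb.t10
  refine ⟨t / d.t1, ⟨by positivity, (div_le_one h0).2 ht1⟩, ?_⟩
  field_simp

theorem Bd.hi (hb : d.Bd) {t : ℝ} (ht1 : (d.t1 : ℝ) ≤ t) (ht : t ≤ 1) :
    ∃ T ∈ Icc (0 : ℝ) 1, (d.t1 : ℝ) + ((1 - d.t1 : ℚ) : ℝ) * T = t := by
  have h0 : (0 : ℝ) < 1 - (d.t1 : ℝ) := by
    have : (d.t1 : ℝ) < 1 := by exact_mod_cast hb.t11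
    linarith
  refine ⟨(t - d.t1) / (1 - d.t1), ⟨by
    have : 0 ≤ t - (d.t1 : ℝ) := by linarith
    positivity, (div_le_one h0).2 (by linarith)⟩, ?_⟩
  push_cast
  field_simp
  ring

theorem val_tlo (X Z U T : ℝ) : (d.tlo).val (pt X Z U T) = (d.t1 : ℝ) * T := by
  simp only [tlo, val_mul, val_qc, val_vT]

theorem val_thi (X Z U T : ℝ) : (d.thi).val (pt X Z U T)
    = (d.t1 : ℝ) + ((1 - d.t1 : ℚ) : ℝ) * T := by
  simp only [thi, val_mul, val_add, val_qc, val_vT]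

theorem val_xlo (X Z U T : ℝ) : xlo.val (pt X Z U T) = 1 / 2 * X := by
  simp only [xlo, val_mul, val_hlf, val_vX]

theorem val_xhi (X Z U T : ℝ) : xhi.val (pt X Z U T) = 1 / 2 + 1 / 2 * X := by
  simp only [xhi, val_mul, val_add, val_hlf, val_vX]

theorem val_zlo (X Z U T : ℝ) : zlo.val (pt X Z U T) = 1 / 2 * Z := by
  simp only [zlo, val_mul, val_hlf, val_vZ]

theorem val_zhi (X Z U T : ℝ) : zhi.val (pt X Z U T) = 1 / 2 + 1 / 2 * Z := by
  simp only [zhi, val_mul, val_add, val_hlf, val_vZ]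

theorem val_omz (X Z U T : ℝ) : omz.val (pt X Z U T) = 1 / 2 * (1 - Z) := by
  simp only [omz, val_mul, val_sub, val_hlf, val_vZ, val_one]

theorem val_omx (X Z U T : ℝ) : omx.val (pt X Z U T) = 1 / 2 * (1 - X) := by
  simp only [omx, val_mul, val_sub, val_hlf, val_vX, val_one]

/-! ### consequences on the true domains -/

theorem eta_lo {x : ℝ} (h : x ≤ 1 / 2) : eta x = x := min_eq_left h

theorem eta_hi {x : ℝ} (h : 1 / 2 ≤ x) : eta x = 1 / 2 := min_eq_right h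

theorem two_mul_mem {x : ℝ} (h0 : 0 ≤ x) (h : x ≤ 1 / 2) : 2 * x ∈ Icc (0 : ℝ) 1 :=
  ⟨by linarith, by linarith⟩

theorem two_sub_mem {x : ℝ} (h0 : 1 / 2 ≤ x) (h : x ≤ 1) : 2 * x - 1 ∈ Icc (0 : ℝ) 1 :=
  ⟨by linarith, by linarith⟩

theorem div_mem {y z : ℝ} (hy : 0 ≤ y) (h : y ≤ z) : ∃ u ∈ Icc (0 : ℝ) 1, u * z = y := by
  rcases eq_or_lt_of_le (hy.trans h) with h0 | h0
  · refine ⟨0, z01, ?_⟩
    rw [← h0] at h ⊢
    rw [le_antisymm h hy]
    ring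
  · exact ⟨y / z, ⟨by positivity, (div_le_one h0).2 h⟩, by field_simp⟩

theorem Pos.S (h : d.Pos) {y t : ℝ} (hy : y ∈ Icc (0 : ℝ) 1) (ht : t ∈ Icc (0 : ℝ) 1) :
    0 ≤ d.rS y (eta y) t := by
  rcases le_total y (1 / 2) with h1 | h1
  · have h2 := h.sg1l (2 * y) 0 0 t (two_mul_mem hy.1 h1) z01 z01 ht
    rw [esg1l, val_eS, val_xlo, val_vT, show 1 / 2 * (2 * y) = y by ring] at h2
    rwa [eta_lo h1]
  · have h2 := h.sg1h (2 * y - 1) 0 0 t (two_sub_mem h1 hy.2) z01 z01 ht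
    rw [esg1h, val_eS, val_xhi, val_hlf, val_vT, show 1 / 2 + 1 / 2 * (2 * y - 1) = y by ring] at h2
    rwa [eta_hi h1]

theorem Pos.LP (h : d.Pos) {x t : ℝ} (hx : x ∈ Icc (0 : ℝ) 1) (ht : t ∈ Icc (0 : ℝ) 1) :
    0 < d.rLP x (eta x) t := by
  rcases le_total x (1 / 2) with h1 | h1
  · have h2 := h.LP0l (2 * x) 0 0 t (two_mul_mem hx.1 h1) z01 z01 ht
    rw [eLP0l, val_sub, val_eLP, val_dl, val_xlo, val_vT, show 1 / 2 * (2 * x) = x by ring] at h2
    rw [eta_lo h1]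
    linarith
  · have h2 := h.LP0h (2 * x - 1) 0 0 t (two_sub_mem h1 hx.2) z01 z01 ht
    rw [eLP0h, val_sub, val_eLP, val_dl, val_xhi, val_hlf, val_vT,
      show 1 / 2 + 1 / 2 * (2 * x - 1) = x by ring] at h2
    rw [eta_hi h1]
    linarith

theorem rsig_lo {x t : ℝ} (h1 : x ≤ 1 / 2) : d.rsig x t = x * (pv d.sg0 t + x * pv d.sg1 t) := by
  unfold rsig
  rw [eta_lo h1, max_eq_right (show x - 1 / 2 ≤ 0 by linarith)]
  ring

theorem rsig_hi {x t : ℝ} (h1 : 1 / 2 ≤ x) : d.rsig x t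
    = x * (pv d.sg0 t + 1 / 2 * pv d.sg1 t) + (x - 1 / 2) * pv d.sg2 t := by
  unfold rsig
  rw [eta_hi h1, max_eq_left (show 0 ≤ x - 1 / 2 by linarith)]

theorem val_esgl (X Z U T : ℝ) : (d.esgl).val (pt X Z U T)
    = pv d.sg0 T + 1 / 2 * X * pv d.sg1 T := by
  simp only [esgl, val_add, val_mul, val_pe, val_xlo, val_vT]

theorem val_esgh (X Z U T : ℝ) : (d.esgh).val (pt X Z U T)
    = (1 / 2 + 1 / 2 * X) * (pv d.sg0 T + 1 / 2 * pv d.sg1 T) + 1 / 2 * X * pv d.sg2 T := by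
  simp only [esgh, val_add, val_mul, val_pe, val_xlo, val_xhi, val_hlf, val_vT]

/-- the level zero inequality with slack -/
theorem Pos.L0s (h : d.Pos) {x t : ℝ} (hx : x ∈ Icc (0 : ℝ) 1) (hx0 : x ≠ 0)
    (ht : t ∈ Icc (0 : ℝ) 1) : d.rsig x t < d.rL0 x (eta x) (d.rK x t) t := by
  have hp : 0 < x := lt_of_le_of_ne hx.1 (Ne.symm hx0)
  rcases le_or_gt x (1 / 2) with h1 | h1
  · have h2 := h.L0l (2 * x) 0 0 t (two_mul_mem hx.1 h1) z01 z01 ht
    rw [eL0l, val_sub, val_sub, val_eL0, val_mul, val_mul, val_mul, val_esgl, val_pe2, val_dl,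
      val_xlo, val_vT, show 1 / 2 * (2 * x) = x by ring] at h2
    unfold rK
    rw [eta_lo h1, if_pos h1, rsig_lo h1]
    linarith
  · have h2 := h.L0h (2 * x - 1) 0 0 t (two_sub_mem h1.le hx.2) z01 z01 ht
    rw [eL0h, val_sub, val_sub, val_eL0, val_esgh, val_pe2, val_dl, val_xhi, val_xlo, val_hlf,
      val_vT, show 1 / 2 * (2 * x - 1) = x - 1 / 2 by ring,
      show 1 / 2 + (x - 1 / 2) = x by ring] at h2
    unfold rK
    rw [eta_hi h1.le, if_neg (not_le.2 h1), rsig_hi h1.le]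
    linarith

theorem Pos.sig (h : d.Pos) {x t : ℝ} (hx : x ∈ Icc (0 : ℝ) 1) (ht : t ∈ Icc (0 : ℝ) 1) :
    0 ≤ d.rsig x t := by
  rcases le_total x (1 / 2) with h1 | h1
  · have h2 := h.sgl (2 * x) 0 0 t (two_mul_mem hx.1 h1) z01 z01 ht
    rw [val_esgl, show 1 / 2 * (2 * x) = x by ring] at h2
    rw [rsig_lo h1]
    exact mul_nonneg hx.1 h2
  · have h2 := h.sgh (2 * x - 1) 0 0 t (two_sub_mem h1 hx.2) z01 z01 ht
    rw [val_esgh, show 1 / 2 * (2 * x - 1) = x - 1 / 2 by ring,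
      show 1 / 2 + (x - 1 / 2) = x by ring] at h2
    rw [rsig_hi h1]
    exact h2

theorem Pos.L0 (h : d.Pos) {x t : ℝ} (hx : x ∈ Icc (0 : ℝ) 1) (hx0 : x ≠ 0)
    (ht : t ∈ Icc (0 : ℝ) 1) : 0 < d.rL0 x (eta x) (d.rK x t) t :=
  lt_of_le_of_lt (h.sig hx ht) (h.L0s hx hx0 ht)

theorem Pos.K (h : d.Pos) {x t : ℝ} (hx : x ∈ Icc (0 : ℝ) 1) (ht : t ∈ Icc (0 : ℝ) 1) :
    0 ≤ d.rK x t := by
  rcases le_or_gt x (1 / 2) with h1 | h1
  · have h2 := h.K2l (2 * x) 0 0 t (two_mul_mem hx.1 h1) z01 z01 ht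
    rw [eK2l, val_pe2, val_xlo, val_vT, show 1 / 2 * (2 * x) = x by ring] at h2
    unfold rK
    rw [if_pos h1]
    exact mul_nonneg hx.1 h2
  · have h2 := h.K2h (2 * x - 1) 0 0 t (two_sub_mem h1.le hx.2) z01 z01 ht
    rw [eK2h, val_pe2, val_xlo, val_vT, show 1 / 2 * (2 * x - 1) = x - 1 / 2 by ring] at h2
    unfold rK
    rwa [if_neg (not_le.2 h1)]

/-- the function `C1` -/
noncomputable def rC1 (d : Dat) (x y z t : ℝ) : ℝ :=
  if z ≤ 1 / 2 then d.rC d.Plo (x + y) y (eta y) z t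
    else d.rC d.Phi (x + y) y (eta y) (z - 1 / 2) t

theorem Pos.L1 (h : d.Pos) {x y z t : ℝ} (hx : x ∈ Icc (0 : ℝ) 1) (hy : y ∈ Icc (0 : ℝ) 1)
    (hz : z ∈ Icc (0 : ℝ) 1) (ht : t ∈ Icc (0 : ℝ) 1) (hxz : x + z ≤ 1)
    (hyz : y + z ≤ 1) (hle : y ≤ z) :
    0 ≤ d.rL1 x y z (eta y) (eta z) (d.rK x t) (d.rC1 x y z t) (d.rC1 x z y t) t := by
  have hy2 : y ≤ 1 / 2 := by linarith
  have ey : eta y = y := eta_lo hy2
  rcases le_or_gt z (1 / 2) with hz2 | hz2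
  · have ez : eta z = z := eta_lo hz2
    rcases le_or_gt x (1 / 2) with hx2 | hx2
    · obtain ⟨u, hu, hu2⟩ := div_mem hy.1 hle
      have h2 := h.L1a (2 * x) (2 * z) u t (two_mul_mem hx.1 hx2) (two_mul_mem hz.1 hz2) hu ht
      simp only [eL1a, val_eL1, val_eC, val_mul, val_add, val_pe2, val_xlo, val_zlo, val_vU,
        val_vT] at h2
      rw [show 1 / 2 * (2 * x) = x by ring, show 1 / 2 * (2 * z) = z by ring, hu2] at h2
      unfold rK rC1
      rw [ey, ez, if_pos hx2, if_pos hz2, if_pos hy2]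
      exact h2
    · -- `x > 1/2`
      obtain ⟨v, hv, hv2⟩ := div_mem hz.1 (show z ≤ 1 - x by linarith)
      obtain ⟨u, hu, hu2⟩ := div_mem hy.1 hle
      have h2 := h.L1c (2 * x - 1) v u t (two_sub_mem hx2.le hx.2) hv hu ht
      simp only [eL1c, val_eL1, val_eC, val_mul, val_add, val_pe2, val_xlo, val_xhi, val_omx,
        val_vU, val_vT, val_vZ] at h2
      rw [show 1 / 2 * (1 - (2 * x - 1)) = 1 - x by ring, hv2, hu2,
        show 1 / 2 * (2 * x - 1) = x - 1 / 2 by ring,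
        show 1 / 2 + (x - 1 / 2) = x by ring] at h2
      unfold rK rC1
      rw [ey, ez, if_neg (not_le.2 hx2), if_pos hz2, if_pos hy2]
      exact h2
  · have ez : eta z = 1 / 2 := eta_hi hz2.le
    have hx2 : x ≤ 1 / 2 := by linarith
    obtain ⟨v, hv, hv2⟩ := div_mem hx.1 (show x ≤ 1 - z by linarith)
    obtain ⟨u, hu, hu2⟩ := div_mem hy.1 (show y ≤ 1 - z by linarith)
    have h2 := h.L1b v (2 * z - 1) u t hv (two_sub_mem hz2.le hz.2) hu ht
    simp only [eL1b, val_eL1, val_eC, val_mul, val_add, val_pe2, val_zhi, val_zlo, val_omz,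
      val_vU, val_vT, val_vX, val_hlf] at h2
    rw [show 1 / 2 * (1 - (2 * z - 1)) = 1 - z by ring, hv2, hu2,
      show 1 / 2 * (2 * z - 1) = z - 1 / 2 by ring,
      show 1 / 2 + (z - 1 / 2) = z by ring] at h2
    unfold rK rC1
    rw [ey, ez, if_pos hx2, if_neg (not_le.2 hz2), if_pos hy2]
    exact h2

theorem rk_nonneg {l : List ℚ} {y : ℝ} (h : 0 ≤ pv l y) : 0 ≤ rk l y :=
  mul_nonneg (sq_nonneg y) h

theorem rk_le {l : List ℚ} {s : ℚ} {y : ℝ} (hy : y ∈ Icc (0 : ℝ) 1)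
    (h : 0 ≤ (s : ℝ) - y * pv l y) : rk l y ≤ (s : ℝ) * y := by
  unfold rk
  have := mul_le_mul_of_nonneg_right (sub_nonneg.1 h) hy.1
  calc y ^ 2 * pv l y = y * pv l y * y := by ring
    _ ≤ _ := this

theorem Pos.pT (h : d.Pos) {y : ℝ} (hy : y ∈ Icc (0 : ℝ) 1) : 0 ≤ pv d.shT y := by
  have h2 := h.shT0 y 0 0 0 hy z01 z01 z01
  rwa [eshT0, val_pe, val_vX] at h2

theorem Pos.pP (h : d.Pos) {y : ℝ} (hy : y ∈ Icc (0 : ℝ) 1) : 0 ≤ pv d.shP y := by
  have h2 := h.shP0 y 0 0 0 hy z01 z01 z01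
  rwa [eshP0, val_pe, val_vX] at h2

theorem hasDerivAt_rC (P : List (List (List ℚ))) (w y e z t : ℝ) :
    HasDerivAt (d.rC P w y e z) (d.rb y e t * pv3 P w z t) t := by
  have h0 := (hasDerivAt_pv3 P w z t).const_mul y
  have h1 := (hasDerivAt_pv3 (P.map (List.map (lmul d.be0))) w z t).const_mul (1 - y)
  have h2 := (hasDerivAt_pv3 (P.map (List.map (lmul d.be1))) w z t).const_mul e
  refine ((h0.add h1).add h2).congr_deriv ?_
  rw [pv3_map_lmul, pv3_map_lmul]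
  unfold rb
  ring

theorem rC_zero (P : List (List (List ℚ))) (w y e z : ℝ) : d.rC P w y e z 0 = 0 := by
  unfold rC Q0 Q1 Q2
  rw [pv3_pri_zero, pv3_pri_zero, pv3_pri_zero]
  ring

theorem hasDerivAt_rC1 (x y z t : ℝ) :
    HasDerivAt (d.rC1 x y z) (d.rb y (eta y) t * d.rP (x + y) z t) t := by
  unfold rC1 rP
  by_cases hz : z ≤ 1 / 2
  · simp only [if_pos hz]
    exact hasDerivAt_rC _ _ _ _ _ _
  · simp only [if_neg hz]
    exact hasDerivAt_rC _ _ _ _ _ _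

theorem pv_kapl (t : ℝ) : pv d.kapl t = (1 + t) ^ 2 * pv d.j t := by
  unfold kapl
  rw [pv_lmul]
  congr 1
  simp only [pv]
  push_cast
  ring

theorem pv_kappl (t : ℝ) : pv d.kappl t = (1 + t) ^ 2 * pv d.jp t := by
  unfold kappl
  rw [pv_lmul]
  congr 1
  simp only [pv]
  push_cast
  ring

/-- **the certificate**: the polynomial inequalities give all hypotheses -/
theorem ok (h : d.Pos) (hb : d.Bd) : d.dt.Ok where
  sTn y hy := rk_nonneg (h.pT hy)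
  sTS y hy := by
    refine rk_le hy ?_
    have h2 := h.shT y 0 0 0 hy z01 z01 z01
    simp only [eshT, val_sub, val_mul, val_pe, val_qc, val_vX] at h2
    exact h2
  STn := by show (0 : ℝ) ≤ (d.ST : ℝ); exact_mod_cast hb.ST0
  kan y hy := rk_nonneg (h.pP hy)
  kaS y hy := by
    refine rk_le hy ?_
    have h2 := h.shP y 0 0 0 hy z01 z01 z01
    simp only [eshP, val_sub, val_mul, val_pe, val_qc, val_vX] at h2
    exact h2
  SPn := by show (0 : ℝ) ≤ (d.SP : ℝ); exact_mod_cast hb.SP0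
  dkap t _ := hasDerivAt_pv _ t
  ckt := (continuous_pv _).continuousOn
  cj := (continuous_pv _).continuousOn
  dJ t _ := hasDerivAt_pri _ t
  dkapp t _ := hasDerivAt_pv _ t
  ckp := (continuous_pv _).continuousOn
  dJp t _ := hasDerivAt_pri _ t
  cGp := (continuous_pv _).continuousOn
  dF t _ := hasDerivAt_pv _ t
  dF2 t _ := hasDerivAt_pv _ t
  dF3 t _ := hasDerivAt_pv _ t
  dG t _ := hasDerivAt_pv _ t
  dZ t _ := hasDerivAt_pv _ t
  dV t _ := hasDerivAt_pri _ t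
  do0 t _ := hasDerivAt_pri _ t
  do1 t _ := hasDerivAt_pri _ t
  dPF t _ := hasDerivAt_pri _ t
  dPF2 t _ := hasDerivAt_pri _ t
  dPF3 t _ := hasDerivAt_pri _ t
  dC1 x _ y _ z _ t _ := hasDerivAt_rC1 x y z t
  cF := (continuous_pv _).continuousOn
  cF2 := (continuous_pv _).continuousOn
  cF3 := (continuous_pv _).continuousOn
  cG := (continuous_pv _).continuousOn
  cGs := (continuous_pv _).continuousOn
  cZ := (continuous_pv _).continuousOn
  kap0 := by show pv d.kapl 0 = 0; rw [pv_ev0, hb.kap0, Rat.cast_zero]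
  J0 := pri_zero _
  kapp0 := by show pv d.kappl 0 = 0; rw [pv_ev0, hb.kapp0, Rat.cast_zero]
  Jp0 := pri_zero _
  Jp1 := by
    show pv d.Jpl 1 = (d.rho : ℝ) * pv d.Jl 1
    rw [pv_ev1, pv_ev1, hb.Jp1]
    push_cast
    ring
  J1 := by
    show 0 < pv d.Jl 1
    rw [pv_ev1]
    exact_mod_cast hb.J1
  F0 := by show pv d.F 0 = 0; rw [pv_ev0, hb.F0, Rat.cast_zero]
  F1 := by show pv d.F 1 = 0; rw [pv_ev1, hb.F1, Rat.cast_zero]
  F20 := by show pv d.F2 0 = 0; rw [pv_ev0, hb.F20, Rat.cast_zero]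
  F21 := by show pv d.F2 1 = 0; rw [pv_ev1, hb.F21, Rat.cast_zero]
  F30 := by show pv d.F3 0 = 0; rw [pv_ev0, hb.F30, Rat.cast_zero]
  F31 := by show pv d.F3 1 = 0; rw [pv_ev1, hb.F31, Rat.cast_zero]
  G0 := by show pv d.G 0 = 0; rw [pv_ev0, hb.G0, Rat.cast_zero]
  G1 := by show pv d.G 1 = 0; rw [pv_ev1, hb.G1, Rat.cast_zero]
  Z0 := by show pv d.Z 0 = 0; rw [pv_ev0, hb.Z0, Rat.cast_zero]
  Z1 := by show pv d.Z 1 = 0; rw [pv_ev1, hb.Z1, Rat.cast_zero]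
  F'0 := by show pv d.F' 0 ≤ 0; rw [pv_ev0]; exact_mod_cast hb.F'0
  F2'0 := by show pv d.F2' 0 ≤ 0; rw [pv_ev0]; exact_mod_cast hb.F2'0
  F3'0 := by show pv d.F3' 0 ≤ 0; rw [pv_ev0]; exact_mod_cast hb.F3'0
  G'0 := by show pv d.G' 0 = 0; rw [pv_ev0, hb.G'0, Rat.cast_zero]
  Z'0 := by show 0 ≤ pv d.Z' 0; rw [pv_ev0]; exact_mod_cast hb.Z'0
  V0 := by show 0 ≤ pv d.Vl 0; exact (pri_zero _).symm.le
  o00 := pri_zero _
  o10 := pri_zero _
  PF0 := pri_zero _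
  PF20 := pri_zero _
  PF30 := pri_zero _
  C10 x _ y _ z _ := by
    show 0 ≤ d.rC1 x y z 0
    unfold rC1
    split_ifs
    · rw [rC_zero]
    · rw [rC_zero]
  rho0 := by show (0 : ℝ) ≤ (d.rho : ℝ); exact_mod_cast hb.rho0
  th0 := by
    show 1 / 2 ≤ (d.th : ℝ)
    have := hb.th0
    have h2 : ((1 / 2 : ℚ) : ℝ) ≤ (d.th : ℝ) := by exact_mod_cast this
    push_cast at h2
    exact h2
  ktn t ht := by have h2 := h.kt.t ht; rwa [val_pe, val_vT] at h2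
  kpn t ht := by have h2 := h.kp.t ht; rwa [val_pe, val_vT] at h2
  hGp t ht := by have h2 := h.Gp.t ht; rwa [val_pe, val_vT] at h2
  hnp t ht := by have h2 := h.np.t ht; rwa [val_pe, val_vT] at h2
  hF t ht := by have h2 := h.F.t ht; rwa [val_pe, val_vT] at h2
  hF2 t ht := by have h2 := h.F2.t ht; rwa [val_pe, val_vT] at h2
  hF3 t ht := by have h2 := h.F3.t ht; rwa [val_pe, val_vT] at h2
  k10 := by show (0 : ℝ) ≤ (d.k1 : ℝ); exact_mod_cast hb.k10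
  sTk y hy := by
    have h2 := h.sTk y 0 0 0 hy z01 z01 z01
    simp only [esTk, val_sub, val_mul, val_pow, val_one, val_pe, val_qc, val_vX] at h2
    show (d.k1 : ℝ) * (y ^ 2 * (1 - y) ^ 2) ≤ y ^ 2 * pv d.shT y
    have := mul_le_mul_of_nonneg_left (sub_nonneg.1 h2) (sq_nonneg y)
    linarith
  F3G t ht := by
    have h2 := h.F3G.t ht
    simp only [eF3G, val_sub, val_mul, val_pe, val_qc, val_vT] at h2
    show pv d.F3 t ≤ (d.k1 : ℝ) * pv d.Gs t
    linarith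
  hGs t ht := by have h2 := h.Gs.t ht; rwa [val_pe, val_vT] at h2
  hZ t ht := by have h2 := h.Z.t ht; rwa [val_pe, val_vT] at h2
  hN t ht := by have h2 := h.N0.t ht; rwa [val_pe, val_vT] at h2
  hK x hx t ht := h.K hx ht
  lam0 t ht := by have h2 := h.lam0.t ht; rwa [val_pe, val_vT] at h2
  hj t _ := pv_kapl t
  hjp t _ := pv_kappl t
  Gp1 t ht ht1 := by
    obtain ⟨s, hs, hs2⟩ := hb.hi ht1 ht.2
    have h2 := h.Gp1.t hs
    simp only [eGp1, val_sub, val_mul, val_add, val_qc, val_pe, val_thi, hs2] at h2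
    show (d.rho : ℝ) * (pv d.G t + pv d.Jl t) - pv d.Jpl t ≤ pv d.Gp t
    linarith
  Gp2 t ht ht1 := by
    obtain ⟨s, hs, hs2⟩ := hb.lo ht.1 ht1.le
    have h2 := h.Gp2.t hs
    simp only [eGp2, val_sub, val_mul, val_add, val_qc, val_pe, val_tlo, hs2] at h2
    show (d.rho : ℝ) * (pv d.G t + pv d.Jl t) ≤ pv d.Gp t
    linarith
  np1 t ht ht1 := by
    obtain ⟨s, hs, hs2⟩ := hb.lo ht.1 ht1.le
    have h2 := h.np1.t hs
    simp only [enp1, val_sub, val_pe, val_tlo, hs2] at h2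
    show pv d.Jpl t ≤ pv d.np t
    linarith
  Mp t ht := by
    have h2 := h.Mp.t ht
    rwa [eMp, val_add, val_pe, val_pe, val_vT] at h2
  M1 t ht ht1 := by
    obtain ⟨s, hs, hs2⟩ := hb.hi ht1 ht.2
    have h2 := h.M1.t hs
    simp only [eM1, val_sub, val_mul, val_add, val_one, val_two, val_qc, val_pe, val_thi,
      hs2] at h2
    show 2 * t * pv d.Jl 1 ≤ (1 + t) * (pv d.G t + pv d.Jl t)
    rw [pv_ev1]
    linarith
  GJ1 t ht _ := by
    have h2 := h.GJ1.t ht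
    rw [eGJ1, val_sub, val_pe, val_pe, val_vT] at h2
    show pv d.G t ≤ pv d.Gs t
    linarith
  GJ2 t ht ht1 := by
    obtain ⟨s, hs, hs2⟩ := hb.lo ht.1 ht1.le
    have h2 := h.GJ2.t hs
    simp only [eGJ2, val_sub, val_add, val_pe, val_tlo, hs2] at h2
    show pv d.G t + pv d.Jl t ≤ pv d.Gs t
    linarith
  nb t ht ht1 := by
    obtain ⟨s, hs, hs2⟩ := hb.lo ht.1 ht1.le
    have h2 := h.nb.t hs
    simp only [enb, val_sub, val_mul, val_qc, val_hlf, val_pe, val_tlo, hs2] at h2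
    show (d.ST : ℝ) * pv d.Jl t ≤ ((d.th : ℝ) - 1 / 2) * pv d.Z t
    linarith
  lam1 t ht := by
    have h2 := h.lam1.t ht
    simp only [elam1, val_sub, val_mul, val_add, val_one, val_two, val_qc, val_pe, val_vT] at h2
    show pv d.lam t * (2 + (d.th : ℝ) * pv d.Z t * (1 + t)) ≤ 2 * (1 + t)
    linarith
  o0i t ht := by
    have h2 := h.o0i.t ht
    simp only [eo0i, val_sub, val_mul, val_add, val_one, val_pow, val_qc, val_pe, val_vT] at h2
    show pv d.o0p t * ((1 + t) + (d.th : ℝ) * pv d.Z t * (1 + t) ^ 2) ≤ 1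
    linarith
  o1i t ht := by
    have h2 := h.o1i.t ht
    simp only [eo1i, val_sub, val_mul, val_add, val_zero, val_one, val_pow, val_qc, val_pe,
      val_vT] at h2
    show pv d.o1p t * ((1 + t) + (d.th : ℝ) * pv d.Z t * (1 + t) ^ 2)
      ≤ -pv d.Z' t * (1 + t) ^ 2
    linarith
  PFi t ht := by
    have h2 := h.PFi.t ht
    simp only [ePFi, val_sub, val_mul, val_add, val_one, val_qc, val_pe, val_vT] at h2
    show pv d.PFp t * (1 + (d.th : ℝ) * pv d.Z t * (1 + t)) ≤ pv d.F' t * (1 + t)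
    linarith
  PF2i t ht := by
    have h2 := h.PF2i.t ht
    simp only [ePF2i, val_sub, val_mul, val_add, val_one, val_qc, val_pe, val_vT] at h2
    show pv d.PF2p t * (1 + (d.th : ℝ) * pv d.Z t * (1 + t)) ≤ pv d.F2' t * (1 + t)
    linarith
  PF3i t ht := by
    have h2 := h.PF3i.t ht
    simp only [ePF3i, val_sub, val_mul, val_add, val_one, val_qc, val_pe, val_vT] at h2
    show pv d.PF3p t * (1 + (d.th : ℝ) * pv d.Z t * (1 + t)) ≤ pv d.F3' t * (1 + t)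
    linarith
  abd t ht := by
    have h2 := h.abd.t ht
    simp only [eabd, val_sub, val_mul, val_add, val_one, val_pow, val_qc, val_pe, val_vT] at h2
    show (d.th : ℝ) * pv d.Z' t * (1 + t) ^ 2 ≤ 1
    linarith
  Di t ht := by
    have h2 := h.Di.t ht
    simp only [eDi, val_sub, val_mul, val_add, val_one, val_pow, val_qc, val_pe, val_vT] at h2
    show 1 - (d.th : ℝ) * pv d.Z' t * (1 + t) ^ 2
      ≤ pv d.D t * (1 + (d.th : ℝ) * pv d.Z t * (1 + t)) ^ 2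
    linarith
  Vi t _ := (pv_lmul _ _ t).symm.le
  W1a t ht _ := by
    have h2 := h.W1a.t ht
    simp only [eW1a, val_sub, val_mul, val_two, val_qc, val_pe, val_vT] at h2
    show 2 * pv d.Vl t ≤ pv d.W1l t
    linarith
  W1b t ht ht1 := by
    obtain ⟨s, hs, hs2⟩ := hb.lo ht.1 ht1.le
    have h2 := h.W1b.t hs
    simp only [eW1b, val_sub, val_mul, val_add, val_one, val_two, val_qc, val_pe, val_tlo,
      hs2] at h2
    show 2 * (pv d.Vl t + (1 + t) * pv d.Jpl t) ≤ pv d.W1l t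
    linarith
  Nf1 t ht := by
    have h2 := h.Nf1.t ht
    simp only [eNf1, val_mul, val_add, val_four, val_pe, val_vT] at h2
    exact h2
  Nf2 t ht := by
    have h2 := h.Nf2.t ht
    simp only [eNf2, val_mul, val_add, val_four, val_pe, val_vT] at h2
    exact h2
  Nf3 t ht := by
    have h2 := h.Nf3.t ht
    simp only [eNf3, val_mul, val_add, val_four, val_pe, val_vT] at h2
    exact h2
  sg1 y hy t ht := h.S hy ht
  LP0 x hx t ht := by
    have h2 := h.LP hx ht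
    unfold rLP at h2
    show eta x * pv d.Z' t * (1 + t) ^ 2 + 2 * (1 - x) * pv d.N t * (1 + t) ^ 2
      + (d.SP : ℝ) * (1 - x) * pv d.kappl t < 1
    linarith
  L0 x hx hx0 t ht := by
    have h2 := h.L0 hx hx0 ht
    unfold rL0 at h2
    show 2 * (1 - x) * d.rK x t < eta x * pv d.Z' t * (1 + t) ^ 2
      + 2 * (x * (pv d.o0l t + eta x * pv d.o1l t)) + 2 * (pv d.lam t * d.rS x (eta x) t)
    linarith
  L1 x hx y hy z hz t ht _ hxz hyz hle := by
    have h2 := h.L1 hx hy hz ht hxz hyz hle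
    unfold rL1 at h2
    show y * z * (d.rC1 x y z t + d.rC1 x z y t)
      + (1 + t) ^ 2 * (y * z * (pv d.F' t + (y + z) * pv d.F3' t + 4 * (y * z) * pv d.F2' t))
      + (d.rW0 t + x * pv d.W1l t) * ((rk d.shP y + rk d.shP z) / 2)
      ≤ d.rK x t * (y + z) + pv d.lam t * (d.rS y (eta y) t + d.rS z (eta z) t)
        + 2 * (x * (y * z * (pv d.PFl t + (y + z) * pv d.PF3l t + 4 * (y * z) * pv d.PF2l t)))
    linarith

end Dat

end Pool.Agent.RZ.RCM9
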