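import Pool.Agent.RZ.RCM.LzI
import Pool.Agent.RZ.RCM9.DatY

/-! Level 0 of the cells with rational polynomials. -/

set_option autoImplicit false

namespace Pool.Agent.RZ.RCM9

open Set Bern Pk Pool.Agent.RZ.RCN.K

namespace YDat

variable {y : YDat} {z : HDat} {d : Dat}
variable {V : Type*} [Fintype V] [DecidableEq V]

theorem cTh (t : ℝ) {S : Set ℝ} : ContinuousOn (fun r => z.Th t r) S :=
  ((cont_Th (z := z)).comp (continuous_const.prodMk continuous_id)).continuousOn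

theorem Pos.oN1 (h : y.Pos z) (hz : z.Pos d) {t r : ℝ} (hr : 0 ≤ r) (hrt : r ≤ t)
    (ht : t ≤ 1) :
    pv z.mb r * (Real.exp (z.Th t r / 2 + y.Y t r / 2) - 1) ≤ -y.N' t r := by
  refine le_trans (mul_le_mul_of_nonneg_left (sub_le_sub_right (Real.exp_le_exp.2 ?_) 1)
    (zero_le_one.trans (hz.mb_one ⟨hr, hrt.trans ht⟩))) (h.oN hz hr hrt ht)
  linarith [h.YTh hr hrt ht]

variable {x : V → V → ℝ} {P : V → Prop} [DecidablePred P] {a b : V} {sg α τ : ℝ}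

theorem sy1 (h : y.Pos z) (hz : z.Pos d) (hd : d.Pos) (hx : Pool.Agent.RZ.RCG.Ct.Wt x P 1)
    {t : ℝ} (ht : t ∈ Icc (0 : ℝ) 1) :
    Sy z.hz x P {a} (pv z.mb) t (fun _ r => z.Th t r) (y.Y t) :=
  sy_one (Y' := y.Y' t) (N := y.N t) (N' := y.N' t) (hz.ok hd) hx ht
    (fun _ hy _ hs => hz.rr_mb hy hs) (fun _ hs => hz.mb_one hs) (cTh t)
    (fun r hr => h.YTh hr.1 hr.2 ht.2)
    (fun r hr => h.Th2 hr.1 hr.2 ht.2) (fun r _ => hasDerivAt_Y t r)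
    (fun r _ => hasDerivAt_N t r) (fun r hr => h.Y0 hr.1 hr.2 ht.2)
    (fun r hr => h.N0 hr.1 hr.2 ht.2) (fun r hr => h.N1 hr.1 hr.2 ht.2)
    (fun r hr => h.oY hr.1 hr.2 ht.2) (fun r hr => h.oN1 hz hr.1 hr.2 ht.2)

end YDat

end Pool.Agent.RZ.RCM9
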