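import Pool.Agent.RZ.RCM9.Bern

/-! Polynomials in one variable given by lists of rational numbers: value, derivative, integral, expression. -/

set_option autoImplicit false

namespace Pool.Agent.RZ.RCM9

open Bern

/-- value of a polynomial (coefficients from degree zero on) -/
noncomputable def pv : List ℚ → ℝ → ℝ
  | [], _ => 0
  | a :: l, t => (a : ℝ) + t * pv l t

/-- derivative, auxiliary: `sum (n + i) a_i t^i` -/
def pdA : ℕ → List ℚ → List ℚ
  | _, [] => []
  | n, a :: l => ((n : ℚ) * a) :: pdA (n + 1) l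

/-- derivative -/
def pd (l : List ℚ) : List ℚ := pdA 1 l.tail

/-- integral, auxiliary -/
def piA : ℕ → List ℚ → List ℚ
  | _, [] => []
  | n, a :: l => (a / (n : ℚ)) :: piA (n + 1) l

/-- the primitive with value zero at zero -/
def pri (l : List ℚ) : List ℚ := 0 :: piA 1 l

theorem pdA_val (n : ℕ) (l : List ℚ) (t : ℝ) :
    HasDerivAt (fun t => t ^ n * pv l t) (if n = 0 then pv (pd l) t else t ^ (n - 1) * pv (pdA n l) t) t ∧
      HasDerivAt (fun t => t ^ (n + 1) * pv l t) (t ^ n * pv (pdA (n + 1) l) t) t := by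
  induction l generalizing n with
  | nil =>
    refine ⟨?_, ?_⟩
    · have h1 : (fun t : ℝ => t ^ n * pv [] t) = fun _ => 0 := by funext t; simp [pv]
      rw [h1]
      have h2 : (if n = 0 then pv (pd []) t else t ^ (n - 1) * pv (pdA n []) t) = 0 := by
        split_ifs <;> simp [pd, pdA, pv]
      rw [h2]
      exact hasDerivAt_const t (0 : ℝ)
    · have h1 : (fun t : ℝ => t ^ (n + 1) * pv [] t) = fun _ => 0 := by funext t; simp [pv]
      rw [h1]
      have h2 : t ^ n * pv (pdA (n + 1) []) t = 0 := by simp [pdA, pv]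
      rw [h2]
      exact hasDerivAt_const t (0 : ℝ)
  | cons a l ih =>
    have key : ∀ m : ℕ, HasDerivAt (fun t => t ^ (m + 1) * pv (a :: l) t) (t ^ m * pv (pdA (m + 1) (a :: l)) t) t := by
      intro m
      have h1 := (ih (m + 1)).2
      have h2 : HasDerivAt (fun t : ℝ => (a : ℝ) * t ^ (m + 1)) ((a : ℝ) * (((m + 1 : ℕ) : ℝ) * t ^ m)) t := by
        have := (hasDerivAt_pow (m + 1) t).const_mul (a : ℝ)
        simpa using this
      have h3 := h2.add h1
      refine (h3.congr_deriv ?_).congr_of_eventuallyEq (Filter.Eventually.of_forall fun s => ?_)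
      · simp only [pdA, pv]
        push_cast
        ring
      · show s ^ (m + 1) * ((a : ℝ) + s * pv l s) = (a : ℝ) * s ^ (m + 1) + s ^ (m + 1 + 1) * pv l s
        ring
    refine ⟨?_, key n⟩
    cases n with
    | zero =>
      simp only [if_true]
      have h1 := (ih 0).2
      have h2 : HasDerivAt (fun t : ℝ => (a : ℝ) + t ^ (0 + 1) * pv l t) (t ^ 0 * pv (pdA (0 + 1) l) t) t := h1.const_add _
      refine (h2.congr_deriv ?_).congr_of_eventuallyEq (Filter.Eventually.of_forall fun s => ?_)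
      · simp [pd]
      · show s ^ 0 * ((a : ℝ) + s * pv l s) = (a : ℝ) + s ^ (0 + 1) * pv l s
        ring
    | succ m =>
      simp only [Nat.succ_ne_zero, if_false, Nat.add_sub_cancel]
      exact key m

theorem hasDerivAt_pv (l : List ℚ) (t : ℝ) : HasDerivAt (pv l) (pv (pd l) t) t := by
  have h := (pdA_val 0 l t).1
  simp only [if_true] at h
  have e : (fun t => t ^ 0 * pv l t) = pv l := by funext s; simp
  rwa [e] at h

theorem continuous_pv (l : List ℚ) : Continuous (pv l) :=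
  continuous_iff_continuousAt.2 fun t => (hasDerivAt_pv l t).continuousAt

theorem pdA_piA (n : ℕ) (hn : n ≠ 0) (l : List ℚ) : pdA n (piA n l) = l := by
  induction l generalizing n with
  | nil => rfl
  | cons a l ih =>
    simp only [piA, pdA, ih (n + 1) (Nat.succ_ne_zero n)]
    have : (n : ℚ) ≠ 0 := by exact_mod_cast hn
    field_simp

theorem pd_pri (l : List ℚ) : pd (pri l) = l := pdA_piA 1 one_ne_zero l

theorem hasDerivAt_pri (l : List ℚ) (t : ℝ) : HasDerivAt (pv (pri l)) (pv l t) t := by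
  have h := hasDerivAt_pv (pri l) t
  rwa [pd_pri] at h

theorem pri_zero (l : List ℚ) : pv (pri l) 0 = 0 := by simp [pri, pv]

/-! expressions with notation -/

namespace Bern

instance : Add E := ⟨E.add⟩
instance : Sub E := ⟨E.sub⟩
instance : Mul E := ⟨E.mul⟩
instance : HPow E ℕ E := ⟨E.pow⟩
instance (n : ℕ) : OfNat E n := ⟨E.num n 1⟩

theorem val_add (ρ : ℕ → ℝ) (a b : E) : (a + b).val ρ = a.val ρ + b.val ρ := rfl
theorem val_sub (ρ : ℕ → ℝ) (a b : E) : (a - b).val ρ = a.val ρ - b.val ρ := rfl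
theorem val_mul (ρ : ℕ → ℝ) (a b : E) : (a * b).val ρ = a.val ρ * b.val ρ := rfl
theorem val_pow (ρ : ℕ → ℝ) (a : E) (n : ℕ) : (a ^ n).val ρ = a.val ρ ^ n := rfl
theorem val_ofNat (ρ : ℕ → ℝ) (n : ℕ) [n.AtLeastTwo] : (OfNat.ofNat n : E).val ρ = (OfNat.ofNat n : ℝ) := by
  show ((n : ℤ) : ℝ) / ((1 : ℕ) : ℝ) = _
  rw [Int.cast_natCast, Nat.cast_one, div_one]
  exact Nat.cast_ofNat (R := ℝ) (n := n)
theorem val_one (ρ : ℕ → ℝ) : (1 : E).val ρ = 1 := by
  show (((1 : ℕ) : ℤ) : ℝ) / ((1 : ℕ) : ℝ) = _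
  simp
theorem val_zero (ρ : ℕ → ℝ) : (0 : E).val ρ = 0 := by
  show (((0 : ℕ) : ℤ) : ℝ) / ((1 : ℕ) : ℝ) = _
  simp
theorem val_two (ρ : ℕ → ℝ) : (2 : E).val ρ = 2 := val_ofNat ρ 2
theorem val_three (ρ : ℕ → ℝ) : (3 : E).val ρ = 3 := val_ofNat ρ 3
theorem val_four (ρ : ℕ → ℝ) : (4 : E).val ρ = 4 := val_ofNat ρ 4
/-- a rational constant -/
def qc (a : ℚ) : E := E.num a.num a.den

theorem val_qc (ρ : ℕ → ℝ) (a : ℚ) : (qc a).val ρ = (a : ℝ) := by
  show ((a.num : ℝ)) / ((a.den : ℝ)) = _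
  rw [← Rat.cast_def]

/-- the expression of a polynomial -/
def pe : List ℚ → E → E
  | [], _ => 0
  | [a], _ => qc a
  | a :: b :: l, e => qc a + e * pe (b :: l) e

theorem val_pe (ρ : ℕ → ℝ) (l : List ℚ) (e : E) : (pe l e).val ρ = pv l (e.val ρ) := by
  induction l with
  | nil => exact val_zero ρ
  | cons a l ih =>
    cases l with
    | nil =>
      show (qc a).val ρ = _
      rw [val_qc]
      simp [pv]
    | cons b l =>
      show (qc a).val ρ + e.val ρ * (pe (b :: l) e).val ρ = _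
      rw [val_qc, ih]
      rfl

end Bern

end Pool.Agent.RZ.RCM9
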