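import Pool.Agent.RZ.RCM9.PVal

/-! Polynomials in two and three variables given by nested lists of rational numbers. -/

set_option autoImplicit false

namespace Pool.Agent.RZ.RCM9

open Bern

def ladd : List ℚ → List ℚ → List ℚ
  | [], q => q
  | a :: p, q => match q with
    | [] => a :: p
    | b :: q' => (a + b) :: ladd p q'

def lsmul (c : ℚ) (l : List ℚ) : List ℚ := l.map (c * ·)

def lmul : List ℚ → List ℚ → List ℚ
  | [], _ => []
  | a :: p, q => ladd (lsmul a q) (0 :: lmul p q)

theorem pv_ladd (p q : List ℚ) (t : ℝ) : pv (ladd p q) t = pv p t + pv q t := by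
  induction p generalizing q with
  | nil => simp [ladd, pv]
  | cons a p ih =>
    cases q with
    | nil => simp [ladd, pv]
    | cons b q =>
      simp only [ladd, pv, ih]
      push_cast
      ring

theorem pv_lsmul (c : ℚ) (p : List ℚ) (t : ℝ) : pv (lsmul c p) t = (c : ℝ) * pv p t := by
  induction p with
  | nil => simp [lsmul, pv]
  | cons a p ih =>
    have h : pv (lsmul c (a :: p)) t = ((c * a : ℚ) : ℝ) + t * pv (lsmul c p) t := rfl
    rw [h, ih]
    simp only [pv]
    push_cast
    ring

theorem pv_lmul (p q : List ℚ) (t : ℝ) : pv (lmul p q) t = pv p t * pv q t := by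
  induction p with
  | nil => simp [lmul, pv]
  | cons a p ih =>
    rw [lmul, pv_ladd, pv_lsmul]
    simp only [pv, ih]
    push_cast
    ring

/-- two variables, the last one is the time -/
noncomputable def pv2 : List (List ℚ) → ℝ → ℝ → ℝ
  | [], _, _ => 0
  | a :: l, z, t => pv a t + z * pv2 l z t

/-- three variables, the last one is the time -/
noncomputable def pv3 : List (List (List ℚ)) → ℝ → ℝ → ℝ → ℝ
  | [], _, _, _ => 0
  | a :: l, w, z, t => pv2 a z t + w * pv3 l w z t

theorem pv2_map_lmul (b : List ℚ) (l : List (List ℚ)) (z t : ℝ) : pv2 (l.map (lmul b)) z t = pv b t * pv2 l z t := by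
  induction l with
  | nil => simp [pv2]
  | cons a l ih =>
    simp only [List.map_cons, pv2, pv_lmul, ih]
    ring

theorem pv3_map_lmul (b : List ℚ) (l : List (List (List ℚ))) (w z t : ℝ) :
    pv3 (l.map (List.map (lmul b))) w z t = pv b t * pv3 l w z t := by
  induction l with
  | nil => simp [pv3]
  | cons a l ih =>
    simp only [List.map_cons, pv3, pv2_map_lmul, ih]
    ring

theorem hasDerivAt_pv2 (l : List (List ℚ)) (z t : ℝ) : HasDerivAt (pv2 (l.map pri) z) (pv2 l z t) t := by
  induction l with
  | nil =>
    have h1 : pv2 (([] : List (List ℚ)).map pri) z = fun _ => 0 := by funext t; simp [pv2]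
    rw [h1]
    simp only [pv2]
    exact hasDerivAt_const t (0 : ℝ)
  | cons a l ih =>
    have h1 : pv2 ((a :: l).map pri) z = fun t => pv (pri a) t + z * pv2 (l.map pri) z t := by funext t; simp [pv2]
    rw [h1]
    simp only [pv2]
    exact (hasDerivAt_pri a t).add (ih.const_mul z)

theorem hasDerivAt_pv3 (l : List (List (List ℚ))) (w z t : ℝ) :
    HasDerivAt (pv3 (l.map (List.map pri)) w z) (pv3 l w z t) t := by
  induction l with
  | nil =>
    have h1 : pv3 (([] : List (List (List ℚ))).map (List.map pri)) w z = fun _ => 0 := by funext t; simp [pv3]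
    rw [h1]
    simp only [pv3]
    exact hasDerivAt_const t (0 : ℝ)
  | cons a l ih =>
    have h1 : pv3 ((a :: l).map (List.map pri)) w z = fun t => pv2 (a.map pri) z t + w * pv3 (l.map (List.map pri)) w z t := by
      funext t; simp [pv3]
    rw [h1]
    simp only [pv3]
    exact (hasDerivAt_pv2 a z t).add (ih.const_mul w)

theorem pv2_pri_zero (l : List (List ℚ)) (z : ℝ) : pv2 (l.map pri) z 0 = 0 := by
  induction l with
  | nil => simp [pv2]
  | cons a l ih => simp only [List.map_cons, pv2, pri_zero, ih]; ring

theorem pv3_pri_zero (l : List (List (List ℚ))) (w z : ℝ) : pv3 (l.map (List.map pri)) w z 0 = 0 := by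
  induction l with
  | nil => simp [pv3]
  | cons a l ih => simp only [List.map_cons, pv3, pv2_pri_zero, ih]; ring

namespace Bern

def pe2 : List (List ℚ) → E → E → E
  | [], _, _ => 0
  | [a], _, t => pe a t
  | a :: b :: l, z, t => pe a t + z * pe2 (b :: l) z t

def pe3 : List (List (List ℚ)) → E → E → E → E
  | [], _, _, _ => 0
  | [a], _, z, t => pe2 a z t
  | a :: b :: l, w, z, t => pe2 a z t + w * pe3 (b :: l) w z t

theorem val_pe2 (ρ : ℕ → ℝ) (l : List (List ℚ)) (z t : E) : (pe2 l z t).val ρ = pv2 l (z.val ρ) (t.val ρ) := by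
  induction l with
  | nil => exact val_zero ρ
  | cons a l ih =>
    cases l with
    | nil =>
      show (pe a t).val ρ = _
      rw [val_pe]
      simp [pv2]
    | cons b l =>
      show (pe a t).val ρ + z.val ρ * (pe2 (b :: l) z t).val ρ = _
      rw [val_pe, ih]
      rfl

theorem val_pe3 (ρ : ℕ → ℝ) (l : List (List (List ℚ))) (w z t : E) :
    (pe3 l w z t).val ρ = pv3 l (w.val ρ) (z.val ρ) (t.val ρ) := by
  induction l with
  | nil => exact val_zero ρ
  | cons a l ih =>
    cases l with
    | nil =>
      show (pe2 a z t).val ρ = _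
      rw [val_pe2]
      simp [pv3]
    | cons b l =>
      show (pe2 a z t).val ρ + w.val ρ * (pe3 (b :: l) w z t).val ρ = _
      rw [val_pe2, ih]
      rfl

end Bern

end Pool.Agent.RZ.RCM9
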