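import Pool.Agent.RZ.RCM9.Bern
import Pool.Agent.RZ.RCM9.Pk

/-! Packed Bernstein checker in four variables. -/

set_option autoImplicit false

namespace Pool.Agent.RZ.RCM9.Pk

open Finset

/-- the dimensions (number of coefficients in each variable) -/
structure Dim where
  L0 : ℕ
  L1 : ℕ
  L2 : ℕ
  L3 : ℕ

namespace Dim

def L (D : Dim) : ℕ → ℕ
  | 0 => D.L0
  | 1 => D.L1
  | 2 => D.L2
  | _ => D.L3

def s (D : Dim) : ℕ → ℕ
  | 0 => D.L1 * D.L2 * D.L3
  | 1 => D.L2 * D.L3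
  | 2 => D.L3
  | _ => 1

def H (D : Dim) : ℕ → ℕ
  | 0 => 1
  | 1 => D.L0
  | 2 => D.L0 * D.L1
  | _ => D.L0 * D.L1 * D.L2

def M (D : Dim) : ℕ := D.L0 * D.L1 * D.L2 * D.L3

/-- all dimensions are positive -/
structure Pos (D : Dim) : Prop where
  h0 : 0 < D.L0
  h1 : 0 < D.L1
  h2 : 0 < D.L2
  h3 : 0 < D.L3

variable {D : Dim}

theorem HLs (D : Dim) {k : ℕ} (hk : k < 4) : D.H k * D.L k * D.s k = D.M := by
  interval_cases k <;> simp only [H, L, s, M] <;> ring

theorem Pos.L_pos (h : D.Pos) (k : ℕ) : 0 < D.L k := by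
  unfold L
  split
  · exact h.h0
  · exact h.h1
  · exact h.h2
  · exact h.h3

theorem Pos.s_pos (h : D.Pos) (k : ℕ) : 0 < D.s k := by
  have := h.h0
  have := h.h1
  have := h.h2
  have := h.h3
  unfold s
  split <;> positivity

theorem dvd_or (D : Dim) {k k' : ℕ} (hk : k < 4) (hk' : k' < 4) (hne : k' ≠ k) :
    (∃ c, D.s k = D.s k' * D.L k' * c) ∨ (∃ c, D.s k' = D.L k * D.s k * c) := by
  interval_cases k <;> interval_cases k' <;> simp only [s, L, ne_eq, not_true_eq_false] at hne ⊢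
  · left; exact ⟨1, by ring⟩
  · left; exact ⟨D.L1, by ring⟩
  · left; exact ⟨D.L1 * D.L2, by ring⟩
  · right; exact ⟨1, by ring⟩
  · left; exact ⟨1, by ring⟩
  · left; exact ⟨D.L2, by ring⟩
  · right; exact ⟨D.L1, by ring⟩
  · right; exact ⟨1, by ring⟩
  · left; exact ⟨1, by ring⟩
  · right; exact ⟨D.L1 * D.L2, by ring⟩
  · right; exact ⟨D.L2, by ring⟩
  · right; exact ⟨1, by ring⟩

/-- the exponent of the variable `k` at the position `p` -/
def e (D : Dim) (k p : ℕ) : ℕ := (p / D.s k) % D.L k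

theorem e_self (hD : D.Pos) {k h j l : ℕ} (hj : j < D.L k) (hl : l < D.s k) :
    D.e k ((h * D.L k + j) * D.s k + l) = j := by
  unfold e
  rw [dm1 hl, dm2 hj]

theorem e_other (hD : D.Pos) {k k' h j l : ℕ} (hk : k < 4) (hk' : k' < 4) (hne : k' ≠ k) (hj : j < D.L k) (hl : l < D.s k) :
    D.e k' ((h * D.L k + j) * D.s k + l) = D.e k' (h * D.L k * D.s k + l) := by
  unfold e
  have hs' := hD.s_pos k'
  rcases D.dvd_or hk hk' hne with ⟨c, hc⟩ | ⟨c, hc⟩
  · have h1 : ∀ X : ℕ, (X * D.s k + l) / D.s k' % D.L k' = l / D.s k' % D.L k' := by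
      intro X
      rw [hc, show X * (D.s k' * D.L k' * c) + l = D.s k' * (D.L k' * (X * c)) + l by ring,
        Nat.mul_add_div hs', Nat.mul_add_mod]
    rw [h1, h1]
  · have hLs : 0 < D.L k * D.s k := Nat.mul_pos (hD.L_pos k) (hD.s_pos k)
    have h1 : ∀ i < D.L k, ((h * D.L k + i) * D.s k + l) / D.s k' = h / c := by
      intro i hi
      rw [hc, ← Nat.div_div_eq_div_mul]
      congr 1
      rw [show (h * D.L k + i) * D.s k + l = (D.L k * D.s k) * h + (i * D.s k + l) by ring, Nat.mul_add_div hLs,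
        Nat.div_eq_of_lt, Nat.add_zero]
      have : (i + 1) * D.s k ≤ D.L k * D.s k := Nat.mul_le_mul_right _ hi
      rw [Nat.add_mul, Nat.one_mul] at this
      omega
    have h2 := h1 0 (hD.L_pos k)
    rw [Nat.add_zero] at h2
    rw [h1 j hj, h2]

/-- the weights -/
noncomputable def wt (D : Dim) (U V : ℕ → ℝ) (p : ℕ) : ℝ :=
  ∏ k ∈ range 4, U k ^ (D.e k p) * V k ^ (D.L k - 1 - D.e k p)

theorem wt_nonneg {U V : ℕ → ℝ} (hU : ∀ k, 0 ≤ U k) (hV : ∀ k, 0 ≤ V k) (p : ℕ) : 0 ≤ D.wt U V p :=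
  Finset.prod_nonneg fun k _ => mul_nonneg (pow_nonneg (hU k) _) (pow_nonneg (hV k) _)

/-- the value -/
noncomputable def val (D : Dim) (U V : ℕ → ℝ) (a : ℕ → ℕ) : ℝ := ∑ p ∈ range D.M, (a p : ℝ) * D.wt U V p

theorem val_mono {U V : ℕ → ℝ} (hU : ∀ k, 0 ≤ U k) (hV : ∀ k, 0 ≤ V k) {a b : ℕ → ℕ} (h : ∀ p, a p ≤ b p) :
    D.val U V a ≤ D.val U V b :=
  Finset.sum_le_sum fun p _ => mul_le_mul_of_nonneg_right (by exact_mod_cast h p) (wt_nonneg hU hV p)

theorem wt_factor (hD : D.Pos) (U V : ℕ → ℝ) {k h j l : ℕ} (hk : k < 4) (hj : j < D.L k) (hl : l < D.s k) :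
    D.wt U V ((h * D.L k + j) * D.s k + l) = (U k ^ j * V k ^ (D.L k - 1 - j)) *
      ∏ k' ∈ (range 4).erase k, U k' ^ (D.e k' (h * D.L k * D.s k + l)) * V k' ^ (D.L k' - 1 - D.e k' (h * D.L k * D.s k + l)) := by
  unfold wt
  rw [← Finset.mul_prod_erase (range 4) _ (mem_range.2 hk), e_self hD hj hl]
  congr 1
  refine Finset.prod_congr rfl fun k' hk' => ?_
  have h1 := mem_erase.1 hk'
  rw [e_other hD hk (mem_range.1 h1.2) h1.1 hj hl]

theorem val_op (hD : D.Pos) {U V : ℕ → ℝ} {k : ℕ} (hk : k < 4) {α β γ δ : ℕ} {u v : ℝ} (hU : U k = α * u + β * v)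
    (hV : V k = γ * u + δ * v) (a : ℕ → ℕ) :
    D.val U V a = D.val (Function.update U k u) (Function.update V k v) (opa (D.H k) (D.L k) (D.s k) α β γ δ a) := by
  unfold val
  rw [← D.HLs hk, sum_range_mul3, sum_range_mul3]
  refine Finset.sum_congr rfl fun h hh => ?_
  rw [Finset.sum_comm]
  conv_rhs => rw [Finset.sum_comm]
  refine Finset.sum_congr rfl fun l hl => ?_
  have hl' := mem_range.1 hl
  have hL := hD.L_pos k
  set F : ℝ := ∏ k' ∈ (range 4).erase k, U k' ^ (D.e k' (h * D.L k * D.s k + l)) * V k' ^ (D.L k' - 1 - D.e k' (h * D.L k * D.s k + l)) with hF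
  have hF' : (∏ k' ∈ (range 4).erase k, (Function.update U k u) k' ^ (D.e k' (h * D.L k * D.s k + l)) *
      (Function.update V k v) k' ^ (D.L k' - 1 - D.e k' (h * D.L k * D.s k + l))) = F := by
    refine Finset.prod_congr rfl fun k' hk' => ?_
    have h1 := mem_erase.1 hk'
    rw [Function.update_of_ne h1.1, Function.update_of_ne h1.1]
  have e1 : ∀ j ∈ range (D.L k), (a ((h * D.L k + j) * D.s k + l) : ℝ) * D.wt U V ((h * D.L k + j) * D.s k + l) =
      ∑ i ∈ range (D.L k), (a ((h * D.L k + j) * D.s k + l) : ℝ) * (mco α β γ δ (D.L k - 1) j i : ℝ) * (u ^ i * v ^ (D.L k - 1 - i)) * F := by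
    intro j hj
    have hj' := mem_range.1 hj
    rw [wt_factor hD U V hk hj' hl', hU, hV, ← hF]
    have h1 := mco_eval (R := ℝ) u v α β γ δ (D.L k - 1) j (by omega)
    rw [← h1, show D.L k - 1 + 1 = D.L k by omega, Finset.sum_mul, Finset.mul_sum]
    exact Finset.sum_congr rfl fun i _ => by ring
  have e2 : ∀ i ∈ range (D.L k), (opa (D.H k) (D.L k) (D.s k) α β γ δ a ((h * D.L k + i) * D.s k + l) : ℝ) *
      D.wt (Function.update U k u) (Function.update V k v) ((h * D.L k + i) * D.s k + l) =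
      ∑ j ∈ range (D.L k), (a ((h * D.L k + j) * D.s k + l) : ℝ) * (mco α β γ δ (D.L k - 1) j i : ℝ) * (u ^ i * v ^ (D.L k - 1 - i)) * F := by
    intro i hi
    have hi' := mem_range.1 hi
    rw [wt_factor hD _ _ hk hi' hl', hF', Function.update_self, Function.update_self, opa_at (mem_range.1 hh) hi' hl']
    push_cast
    rw [Finset.sum_mul]
    exact Finset.sum_congr rfl fun j _ => by ring
  rw [Finset.sum_congr rfl e1, Finset.sum_congr rfl e2, Finset.sum_comm]

end Dim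

open Bern

/-- one operation in the variable `k` -/
def opk (K : ℕ) (D : Dim) (k α β γ δ N : ℕ) : ℕ :=
  op K (D.s k) (mask K (D.H k) (D.L k) (D.s k)) α β γ δ (D.L k - 1) N

theorem Rep.opk {K : ℕ} {D : Dim} (hD : D.Pos) {k N bd : ℕ} {a : ℕ → ℕ} (hK : 0 < K) (hk : k < 4)
    (h : Rep K D.M N bd a) (hbd : bd < 2 ^ K) (α β γ δ c : ℕ) (hc1 : α + β ≤ c) (hc2 : γ + δ ≤ c) :
    Rep K D.M (opk K D k α β γ δ N) (bd * (D.L k * c ^ (D.L k - 1))) (opa (D.H k) (D.L k) (D.s k) α β γ δ a) := by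
  have h1 := D.HLs hk
  rw [← h1] at h ⊢
  exact Rep.op hK (hD.L_pos k) (hD.s_pos k) h hbd α β γ δ c hc1 hc2

/-- the check of a subdivision tree: `P` positive part, `Q` negative part, all digits at most `bd` -/
def chk (K : ℕ) (D : Dim) : Tree → ℕ → ℕ → ℕ → Bool
  | .leaf, P, Q, _ => leP K D.M Q P
  | .split k l r, P, Q, bd =>
    Nat.ble (k + 1) 4 && (Nat.ble (bd * (D.L k * 3 ^ (D.L k - 1)) + 1) (2 ^ (K - 1)) &&
    (chk K D l (opk K D k 1 0 1 2 P) (opk K D k 1 0 1 2 Q) (bd * (D.L k * 3 ^ (D.L k - 1))) &&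
     chk K D r (opk K D k 2 1 0 1 P) (opk K D k 2 1 0 1 Q) (bd * (D.L k * 3 ^ (D.L k - 1)))))

theorem chk_pos {K : ℕ} {D : Dim} (hD : D.Pos) (hK : 0 < K) (T : Tree) {P Q bd : ℕ} {a b : ℕ → ℕ}
    (ha : Rep K D.M P bd a) (hb : Rep K D.M Q bd b) (hbd : bd < 2 ^ (K - 1)) (h : chk K D T P Q bd = true)
    {U V : ℕ → ℝ} (hU : ∀ k, 0 ≤ U k) (hV : ∀ k, 0 ≤ V k) : D.val U V b ≤ D.val U V a := by
  have hKK : 2 ^ (K - 1) ≤ 2 ^ K := Nat.pow_le_pow_right (by norm_num) (by omega)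
  induction T generalizing P Q bd a b U V with
  | leaf => exact Dim.val_mono hU hV (leP_le hK hb ha hbd h)
  | split k l r ihl ihr =>
    simp only [chk, Bool.and_eq_true] at h
    obtain ⟨hk, hbd', hl, hr⟩ := h
    have hk' : k < 4 := Nat.le_of_ble_eq_true hk
    have hbd2 : bd * (D.L k * 3 ^ (D.L k - 1)) < 2 ^ (K - 1) := Nat.le_of_ble_eq_true hbd'
    rcases le_total (U k) (V k) with h1 | h1
    · have e1 : U k = ((1 : ℕ) : ℝ) * U k + ((0 : ℕ) : ℝ) * ((V k - U k) / 2) := by push_cast; ring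
      have e2 : V k = ((1 : ℕ) : ℝ) * U k + ((2 : ℕ) : ℝ) * ((V k - U k) / 2) := by push_cast; ring
      rw [Dim.val_op hD hk' e1 e2, Dim.val_op hD hk' e1 e2]
      refine ihl (Rep.opk hD hK hk' ha (hbd.trans_le hKK) 1 0 1 2 3 (by norm_num) (by norm_num))
        (Rep.opk hD hK hk' hb (hbd.trans_le hKK) 1 0 1 2 3 (by norm_num) (by norm_num)) hbd2 hl ?_ ?_
      · intro j
        by_cases hj : j = k
        · subst hj; rw [Function.update_self]; exact hU _
        · rw [Function.update_of_ne hj]; exact hU _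
      · intro j
        by_cases hj : j = k
        · subst hj; rw [Function.update_self]; linarith
        · rw [Function.update_of_ne hj]; exact hV _
    · have e1 : U k = ((2 : ℕ) : ℝ) * ((U k - V k) / 2) + ((1 : ℕ) : ℝ) * V k := by push_cast; ring
      have e2 : V k = ((0 : ℕ) : ℝ) * ((U k - V k) / 2) + ((1 : ℕ) : ℝ) * V k := by push_cast; ring
      rw [Dim.val_op hD hk' e1 e2, Dim.val_op hD hk' e1 e2]
      refine ihr (Rep.opk hD hK hk' ha (hbd.trans_le hKK) 2 1 0 1 3 (by norm_num) (by norm_num))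
        (Rep.opk hD hK hk' hb (hbd.trans_le hKK) 2 1 0 1 3 (by norm_num) (by norm_num)) hbd2 hr ?_ ?_
      · intro j
        by_cases hj : j = k
        · subst hj; rw [Function.update_self]; linarith
        · rw [Function.update_of_ne hj]; exact hU _
      · intro j
        by_cases hj : j = k
        · subst hj; rw [Function.update_self]; exact hV _
        · rw [Function.update_of_ne hj]; exact hV _

end Pool.Agent.RZ.RCM9.Pk
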