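import Mathlib

/-! MP_73ccd0_lc, route (M): re-sorting an order of `E'` so that the elements of `E` appear in a prescribed order. -/

set_option autoImplicit false

namespace Pool.Agent.RZ.RCM9

open Finset

set_option linter.unusedSectionVars false

variable {E E' : Type} [Fintype E] [Fintype E'] [DecidableEq E] [DecidableEq E'] (ι : E ↪ E')

/-- the positions of the elements of `E` in the order `σ` -/
def posSet {n' : ℕ} (σ : Fin n' ≃ E') : Finset (Fin n') :=
  univ.filter fun k => σ k ∈ univ.map ι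

theorem mem_posSet {n' : ℕ} (σ : Fin n' ≃ E') (k : Fin n') : k ∈ posSet ι σ ↔ ∃ e, ι e = σ k := by
  simp [posSet]

theorem card_posSet {n n' : ℕ} (σ : Fin n' ≃ E') (hn : Fintype.card E = n) : (posSet ι σ).card = n := by
  have h1 : (posSet ι σ).map σ.toEmbedding = univ.map ι := by
    ext e
    simp only [mem_map, mem_posSet, Equiv.coe_toEmbedding, mem_univ, true_and]
    constructor
    · rintro ⟨k, ⟨e', he'⟩, rfl⟩
      exact ⟨e', he'⟩
    · rintro ⟨e', rfl⟩
      exact ⟨σ.symm (ι e'), ⟨e', by simp⟩, by simp⟩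
  have h2 := congrArg Finset.card h1
  rw [card_map, card_map, card_univ, hn] at h2
  exact h2

/-- the positions in increasing order -/
noncomputable def pos {n n' : ℕ} (hn : Fintype.card E = n) (σ : Fin n' ≃ E') : Fin n ↪o Fin n' :=
  (posSet ι σ).orderEmbOfFin (card_posSet ι σ hn)

theorem pos_mem {n n' : ℕ} (hn : Fintype.card E = n) (σ : Fin n' ≃ E') (k : Fin n) :
    ∃ e, ι e = σ (pos ι hn σ k) :=
  (mem_posSet ι σ _).1 (Finset.orderEmbOfFin_mem _ _ _)

theorem exists_pos {n n' : ℕ} (hn : Fintype.card E = n) (σ : Fin n' ≃ E') {k : Fin n'} (h : ∃ e, ι e = σ k) :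
    ∃ j, pos ι hn σ j = k := by
  have h1 : k ∈ (posSet ι σ : Set (Fin n')) := (mem_posSet ι σ k).2 h
  rw [← Finset.range_orderEmbOfFin (posSet ι σ) (card_posSet ι σ hn)] at h1
  exact h1

/-- the induced order of `E` -/
noncomputable def ind {n n' : ℕ} (hn : Fintype.card E = n) (σ : Fin n' ≃ E') : Fin n ≃ E :=
  Equiv.ofBijective (fun k => (pos_mem ι hn σ k).choose) (by
    rw [Fintype.bijective_iff_injective_and_card]
    refine ⟨fun j k h => ?_, by simp [hn]⟩
    have h1 := (pos_mem ι hn σ j).choose_spec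
    have h2 := (pos_mem ι hn σ k).choose_spec
    have h3 : σ (pos ι hn σ j) = σ (pos ι hn σ k) := by
      rw [← h1, ← h2]
      exact congrArg ι h
    exact (pos ι hn σ).injective (σ.injective h3))

theorem ind_spec {n n' : ℕ} (hn : Fintype.card E = n) (σ : Fin n' ≃ E') (k : Fin n) :
    ι (ind ι hn σ k) = σ (pos ι hn σ k) :=
  (pos_mem ι hn σ k).choose_spec

/-- the order `σ` re-sorted such that the elements of `E` appear in the order `π` -/
noncomputable def resort {n n' : ℕ} (hn : Fintype.card E = n) (π : Fin n ≃ E) (σ : Fin n' ≃ E') : Fin n' ≃ E' :=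
  σ.trans (Equiv.Perm.viaEmbedding ((ind ι hn σ).symm.trans π : Equiv.Perm E) ι)

theorem resort_pos {n n' : ℕ} (hn : Fintype.card E = n) (π : Fin n ≃ E) (σ : Fin n' ≃ E') (k : Fin n) :
    resort ι hn π σ (pos ι hn σ k) = ι (π k) := by
  unfold resort
  rw [Equiv.trans_apply, ← ind_spec, Equiv.Perm.viaEmbedding_apply]
  simp

theorem resort_not {n n' : ℕ} (hn : Fintype.card E = n) (π : Fin n ≃ E) (σ : Fin n' ≃ E') {k : Fin n'}
    (h : ¬ ∃ e, ι e = σ k) : resort ι hn π σ k = σ k := by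
  unfold resort
  rw [Equiv.trans_apply, Equiv.Perm.viaEmbedding_apply_of_notMem]
  exact h

theorem posSet_resort {n n' : ℕ} (hn : Fintype.card E = n) (π : Fin n ≃ E) (σ : Fin n' ≃ E') :
    posSet ι (resort ι hn π σ) = posSet ι σ := by
  ext k
  rw [mem_posSet, mem_posSet]
  by_cases h : ∃ e, ι e = σ k
  · obtain ⟨j, rfl⟩ := exists_pos ι hn σ h
    exact ⟨fun _ => h, fun _ => ⟨π j, (resort_pos ι hn π σ j).symm⟩⟩
  · rw [resort_not ι hn π σ h]

theorem pos_resort {n n' : ℕ} (hn : Fintype.card E = n) (π : Fin n ≃ E) (σ : Fin n' ≃ E') :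
    pos ι hn (resort ι hn π σ) = pos ι hn σ := by
  unfold pos
  congr 1
  exact posSet_resort ι hn π σ

theorem ind_resort {n n' : ℕ} (hn : Fintype.card E = n) (π : Fin n ≃ E) (σ : Fin n' ≃ E') :
    ind ι hn (resort ι hn π σ) = π := by
  ext1 k
  apply ι.injective
  rw [ind_spec, pos_resort, resort_pos]

theorem resort_resort {n n' : ℕ} (hn : Fintype.card E = n) (π : Fin n ≃ E) (σ : Fin n' ≃ E') :
    resort ι hn (ind ι hn σ) (resort ι hn π σ) = σ := by
  ext1 k
  by_cases h : ∃ e, ι e = σ k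
  · obtain ⟨j, rfl⟩ := exists_pos ι hn σ h
    have h1 := resort_pos ι hn (ind ι hn σ) (resort ι hn π σ) j
    rw [pos_resort] at h1
    rw [h1, ind_spec]
  · have h1 := resort_not ι hn π σ h
    rw [resort_not ι hn (ind ι hn σ) (resort ι hn π σ) (by rw [h1]; exact h), h1]

/-- summation over the re-sorted orders -/
theorem sum_resort {n n' : ℕ} (hn : Fintype.card E = n) (F : (Fin n' ≃ E') → ℝ) :
    ∑ π : Fin n ≃ E, ∑ σ : Fin n' ≃ E', F (resort ι hn π σ) = (n.factorial : ℝ) * ∑ σ : Fin n' ≃ E', F σ := by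
  have hinv : Function.Involutive (fun q : (Fin n ≃ E) × (Fin n' ≃ E') => (ind ι hn q.2, resort ι hn q.1 q.2)) := by
    rintro ⟨π, σ⟩
    show (ind ι hn (resort ι hn π σ), resort ι hn (ind ι hn σ) (resort ι hn π σ)) = (π, σ)
    rw [ind_resort, resort_resort]
  have h1 : ∑ q : (Fin n ≃ E) × (Fin n' ≃ E'), F (resort ι hn q.1 q.2) = ∑ q : (Fin n ≃ E) × (Fin n' ≃ E'), F q.2 :=
    Equiv.sum_comp hinv.toPerm (fun q : (Fin n ≃ E) × (Fin n' ≃ E') => F q.2)
  rw [Fintype.sum_prod_type, Fintype.sum_prod_type] at h1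
  have h2 : ∑ π : Fin n ≃ E, ∑ σ : Fin n' ≃ E', F (resort ι hn π σ) = ∑ _π : Fin n ≃ E, ∑ σ : Fin n' ≃ E', F σ := h1
  rw [h2, Finset.sum_const, card_univ, nsmul_eq_mul]
  congr 2
  have e : Fin n ≃ E := (Fintype.equivFinOfCardEq hn).symm
  rw [Fintype.card_equiv e, Fintype.card_fin]

/-- replacing the values on `E` -/
noncomputable def mergeX (X : E → Bool) (Y : E' → Bool) (f : E') : Bool :=
  if h : ∃ e, ι e = f then X h.choose else Y f

theorem mergeX_apply (X : E → Bool) (Y : E' → Bool) (e : E) : mergeX ι X Y (ι e) = X e := by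
  have h : ∃ e', ι e' = ι e := ⟨e, rfl⟩
  unfold mergeX
  rw [dif_pos h]
  exact congrArg X (ι.injective h.choose_spec)

theorem mergeX_not (X : E → Bool) (Y : E' → Bool) {f : E'} (h : ¬ ∃ e, ι e = f) : mergeX ι X Y f = Y f := by
  unfold mergeX
  rw [dif_neg h]

/-- the weight of a configuration of states -/
noncomputable def wX {E : Type} [Fintype E] (x : E → ℝ) (X : E → Bool) : ℝ := ∏ f, if X f then x f else 1 - x f

theorem wX_merge (x : E' → ℝ) (X : E → Bool) (Y : E' → Bool) :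
    wX (fun e => x (ι e)) X * wX x Y = wX (fun e => x (ι e)) (fun e => Y (ι e)) * wX x (mergeX ι X Y) := by
  have hsplit : ∀ Z : E' → Bool, wX x Z = wX (fun e => x (ι e)) (fun e => Z (ι e)) *
      ∏ f ∈ univ.filter (fun f => ¬ ∃ e, ι e = f), if Z f then x f else 1 - x f := by
    intro Z
    unfold wX
    rw [← Finset.prod_filter_mul_prod_filter_not univ (fun f => ∃ e, ι e = f)]
    congr 1
    have h1 : univ.filter (fun f => ∃ e, ι e = f) = univ.map ι := by
      ext f; simp
    rw [h1, Finset.prod_map]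
  rw [hsplit Y, hsplit (mergeX ι X Y)]
  have h1 : (fun e => mergeX ι X Y (ι e)) = X := by
    funext e
    exact mergeX_apply ι X Y e
  have h2 : ∏ f ∈ univ.filter (fun f => ¬ ∃ e, ι e = f), (if mergeX ι X Y f then x f else 1 - x f) =
      ∏ f ∈ univ.filter (fun f => ¬ ∃ e, ι e = f), if Y f then x f else 1 - x f := by
    refine Finset.prod_congr rfl fun f hf => ?_
    rw [mergeX_not ι X Y (mem_filter.1 hf).2]
  rw [h1, h2]
  ring

theorem sum_wX {E : Type} [Fintype E] [DecidableEq E] (x : E → ℝ) : ∑ X : E → Bool, wX x X = 1 := by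
  unfold wX
  have h1 := Finset.prod_univ_sum (fun _ : E => (univ : Finset Bool)) (fun f (b : Bool) => if b then x f else 1 - x f)
  simp only [Fintype.piFinset_univ] at h1
  rw [← h1]
  simp

theorem sum_merge (x : E' → ℝ) (F : (E' → Bool) → ℝ) :
    ∑ X : E → Bool, ∑ Y : E' → Bool, wX (fun e => x (ι e)) X * wX x Y * F (mergeX ι X Y) =
      ∑ Y : E' → Bool, wX x Y * F Y := by
  have hinv : Function.Involutive (fun q : (E → Bool) × (E' → Bool) => ((fun e => q.2 (ι e)), mergeX ι q.1 q.2)) := by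
    rintro ⟨X, Y⟩
    show ((fun e => mergeX ι X Y (ι e)), mergeX ι (fun e => Y (ι e)) (mergeX ι X Y)) = (X, Y)
    congr 1
    · funext e
      exact mergeX_apply ι X Y e
    · funext f
      by_cases h : ∃ e, ι e = f
      · obtain ⟨e, rfl⟩ := h
        rw [mergeX_apply]
      · rw [mergeX_not _ _ _ h, mergeX_not _ _ _ h]
  have h1 : ∑ q : (E → Bool) × (E' → Bool), wX (fun e => x (ι e)) (fun e => q.2 (ι e)) * wX x (mergeX ι q.1 q.2) * F (mergeX ι q.1 q.2) =
      ∑ q : (E → Bool) × (E' → Bool), wX (fun e => x (ι e)) q.1 * wX x q.2 * F q.2 :=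
    Equiv.sum_comp hinv.toPerm (fun q : (E → Bool) × (E' → Bool) => wX (fun e => x (ι e)) q.1 * wX x q.2 * F q.2)
  rw [Fintype.sum_prod_type, Fintype.sum_prod_type] at h1
  have h2 : ∑ X : E → Bool, ∑ Y : E' → Bool, wX (fun e => x (ι e)) X * wX x Y * F (mergeX ι X Y) =
      ∑ X : E → Bool, ∑ Y : E' → Bool, wX (fun e => x (ι e)) (fun e => Y (ι e)) * wX x (mergeX ι X Y) * F (mergeX ι X Y) :=
    Finset.sum_congr rfl fun X _ => Finset.sum_congr rfl fun Y _ => by rw [wX_merge]
  rw [h2, h1]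
  have h3 : ∀ X : E → Bool, ∑ Y : E' → Bool, wX (fun e => x (ι e)) X * wX x Y * F Y =
      wX (fun e => x (ι e)) X * ∑ Y : E' → Bool, wX x Y * F Y := by
    intro X
    rw [Finset.mul_sum]
    exact Finset.sum_congr rfl fun Y _ => by ring
  simp only [h3]
  rw [← Finset.sum_mul, sum_wX, one_mul]

end Pool.Agent.RZ.RCM9
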