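import Pool.Agent.RZ.RCM9.Resort
import Pool.Agent.RZ.RCRS.Model

/-! MP_73ccd0_lc, route (M): restriction of a scheme to a subgraph (an embedding of the edges which preserves
adjacency of edges). -/

set_option autoImplicit false

namespace Pool.Agent.RZ.RCM9

open Finset MeasureTheory Pool.Agent.RZ.RCRS

set_option linter.style.haveILetI false

set_option linter.unusedSectionVars false

section meas

variable {Ω T : Type} [MeasurableSpace Ω] [MeasurableSpace T] [DiscreteMeasurableSpace T] [Fintype T]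

/-- the product of a measure and a discrete one -/
noncomputable def muT (μ : Measure Ω) (w : T → ℝ) : Measure (Ω × T) :=
  ∑ t : T, ENNReal.ofReal (w t) • μ.map (fun ω => (ω, t))

theorem muT_apply (μ : Measure Ω) (w : T → ℝ) {A : Set (Ω × T)} (hA : MeasurableSet A) :
    muT μ w A = ∑ t : T, ENNReal.ofReal (w t) * μ {ω | (ω, t) ∈ A} := by
  unfold muT
  rw [Measure.finsetSum_apply]
  refine Finset.sum_congr rfl fun t _ => ?_
  rw [Measure.smul_apply, Measure.map_apply measurable_prodMk_right hA]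
  rfl

theorem muT_prob (μ : Measure Ω) [IsProbabilityMeasure μ] {w : T → ℝ} (hw : ∀ t, 0 ≤ w t) (h1 : ∑ t, w t = 1) :
    IsProbabilityMeasure (muT μ w) := by
  refine ⟨?_⟩
  rw [muT_apply μ w MeasurableSet.univ]
  simp only [Set.mem_univ, Set.ofPred_true, measure_univ, mul_one]
  rw [← ENNReal.ofReal_sum_of_nonneg (fun t _ => hw t), h1, ENNReal.ofReal_one]

theorem muT_real (μ : Measure Ω) [IsProbabilityMeasure μ] {w : T → ℝ} (hw : ∀ t, 0 ≤ w t) {A : Set (Ω × T)}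
    (hA : MeasurableSet A) : (muT μ w).real A = ∑ t : T, w t * μ.real {ω | (ω, t) ∈ A} := by
  unfold Measure.real
  rw [muT_apply μ w hA, ENNReal.toReal_sum]
  · refine Finset.sum_congr rfl fun t _ => ?_
    rw [ENNReal.toReal_mul, ENNReal.toReal_ofReal (hw t)]
  · intro t _
    exact ENNReal.mul_ne_top ENNReal.ofReal_ne_top (measure_ne_top _ _)

theorem measurable_fiber {A : T → Set Ω} (hA : ∀ t, MeasurableSet (A t)) :
    MeasurableSet {p : Ω × T | p.1 ∈ A p.2} := by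
  have : {p : Ω × T | p.1 ∈ A p.2} = ⋃ t, (A t ×ˢ {t}) := by
    ext ⟨ω, t⟩
    simp
  rw [this]
  exact MeasurableSet.iUnion fun t => (hA t).prod (MeasurableSet.of_discrete)

end meas

variable {V V' : Type} {G : SimpleGraph V} {G' : SimpleGraph V'} [Fintype G.edgeSet] [Fintype G'.edgeSet]
  [DecidableEq G.edgeSet] [DecidableEq G'.edgeSet]

/-- the weights of the internal randomness -/
noncomputable def wT (x : G'.edgeSet → ℝ) (t : (Fin (Fintype.card G'.edgeSet) ≃ G'.edgeSet) × (G'.edgeSet → Bool)) : ℝ :=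
  wX x t.2 / (Fintype.card G'.edgeSet).factorial

theorem wX_nonneg {E : Type} [Fintype E] {x : E → ℝ} (hx : ∀ e, 0 ≤ x e ∧ x e ≤ 1) (X : E → Bool) : 0 ≤ wX x X := by
  unfold wX
  refine Finset.prod_nonneg fun f _ => ?_
  split_ifs
  · exact (hx f).1
  · linarith [(hx f).2]

theorem wT_nonneg {x : G'.edgeSet → ℝ} (hx : ∀ e, 0 ≤ x e ∧ x e ≤ 1)
    (t : (Fin (Fintype.card G'.edgeSet) ≃ G'.edgeSet) × (G'.edgeSet → Bool)) : 0 ≤ wT x t :=
  div_nonneg (wX_nonneg hx _) (Nat.cast_nonneg _)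

theorem card_orders (E : Type) [Fintype E] [DecidableEq E] :
    Fintype.card (Fin (Fintype.card E) ≃ E) = (Fintype.card E).factorial := by
  rw [Fintype.card_equiv (Fintype.equivFin E).symm, Fintype.card_fin]

theorem wT_sum (x : G'.edgeSet → ℝ) :
    ∑ t : (Fin (Fintype.card G'.edgeSet) ≃ G'.edgeSet) × (G'.edgeSet → Bool), wT x t = 1 := by
  unfold wT
  rw [Fintype.sum_prod_type]
  have h1 : ∀ σ : Fin (Fintype.card G'.edgeSet) ≃ G'.edgeSet, ∑ Y : G'.edgeSet → Bool,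
      wX x ((σ, Y) : (Fin (Fintype.card G'.edgeSet) ≃ G'.edgeSet) × (G'.edgeSet → Bool)).2 / ((Fintype.card G'.edgeSet).factorial : ℝ) =
      1 / ((Fintype.card G'.edgeSet).factorial : ℝ) := by
    intro σ
    rw [← Finset.sum_div, sum_wX]
  rw [Finset.sum_congr rfl fun σ _ => h1 σ, Finset.sum_const, card_univ, card_orders, nsmul_eq_mul]
  have : ((Fintype.card G'.edgeSet).factorial : ℝ) ≠ 0 := by positivity
  field_simp

/-- the orders of the edges -/
abbrev Ord (G : SimpleGraph V) [Fintype G.edgeSet] : Type := Fin (Fintype.card G.edgeSet) ≃ G.edgeSet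

/-- the internal randomness: an order and the states of the edges of the big graph -/
def TT (G' : SimpleGraph V') [Fintype G'.edgeSet] : Type := Ord G' × (G'.edgeSet → Bool)

noncomputable instance : Fintype (TT G') := by unfold TT; infer_instance

instance : MeasurableSpace (TT G') := ⊤

instance : DiscreteMeasurableSpace (TT G') := ⟨fun _ => trivial⟩

section rs

variable (ι : G.edgeSet ↪ G'.edgeSet)

noncomputable def rs (π : Ord G) (σ : Ord G') : Ord G' := resort ι rfl π σ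

noncomputable def ps (σ : Ord G') : Fin (Fintype.card G.edgeSet) ↪o Fin (Fintype.card G'.edgeSet) := pos ι rfl σ

theorem rs_pos (π : Ord G) (σ : Ord G') (k : Fin (Fintype.card G.edgeSet)) : rs ι π σ (ps ι σ k) = ι (π k) :=
  resort_pos ι rfl π σ k

theorem rs_not (π : Ord G) (σ : Ord G') {k : Fin (Fintype.card G'.edgeSet)} (h : ¬ ∃ e, ι e = σ k) : rs ι π σ k = σ k :=
  resort_not ι rfl π σ h

theorem exists_ps (σ : Ord G') {k : Fin (Fintype.card G'.edgeSet)} (h : ∃ e, ι e = σ k) : ∃ j, ps ι σ j = k :=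
  exists_pos ι rfl σ h

theorem sum_rs (F : Ord G' → ℝ) :
    ∑ π : Ord G, ∑ σ : Ord G', F (rs ι π σ) = ((Fintype.card G.edgeSet).factorial : ℝ) * ∑ σ : Ord G', F σ :=
  sum_resort ι rfl F

end rs

attribute [irreducible] rs ps

/-- the selected set -/
def selR (ι : G.edgeSet ↪ G'.edgeSet) (S' : Scheme G') (ω : S'.Ω) (t : TT G') (π : Ord G) (X : G.edgeSet → Bool) : Set G.edgeSet :=
  {e | ι e ∈ S'.select ω (rs ι π t.1) (mergeX ι X t.2)}

theorem mem_selR {ι : G.edgeSet ↪ G'.edgeSet} {S' : Scheme G'} {ω : S'.Ω} {t : TT G'} {π : Ord G} {X : G.edgeSet → Bool} {e : G.edgeSet} :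
    e ∈ selR ι S' ω t π X ↔ ι e ∈ S'.select ω (rs ι π t.1) (mergeX ι X t.2) := Iff.rfl

theorem selR_online {ι : G.edgeSet ↪ G'.edgeSet} {S' : Scheme G'} {ω : S'.Ω} {t : TT G'} {π π' : Ord G} {X X' : G.edgeSet → Bool}
    {k : Fin (Fintype.card G.edgeSet)} (h : ∀ j ≤ k, π j = π' j ∧ X (π j) = X' (π' j)) :
    π k ∈ selR ι S' ω t π X ↔ π' k ∈ selR ι S' ω t π' X' := by
  have h0 : ∀ j ≤ ps ι t.1 k, rs ι π t.1 j = rs ι π' t.1 j ∧
      mergeX ι X t.2 (rs ι π t.1 j) = mergeX ι X' t.2 (rs ι π' t.1 j) := by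
    intro j hj
    by_cases hmem : ∃ e, ι e = t.1 j
    · obtain ⟨i, rfl⟩ := exists_ps ι t.1 hmem
      have hik : i ≤ k := (ps ι t.1).le_iff_le.1 hj
      obtain ⟨h2, h3⟩ := h i hik
      rw [rs_pos, rs_pos, mergeX_apply, mergeX_apply]
      exact ⟨congrArg ι h2, h3⟩
    · rw [rs_not ι π t.1 hmem, rs_not ι π' t.1 hmem, mergeX_not ι X t.2 hmem, mergeX_not ι X' t.2 hmem]
      exact ⟨rfl, rfl⟩
  have h1 := S'.online ω (rs ι π t.1) (rs ι π' t.1) (mergeX ι X t.2) (mergeX ι X' t.2) (ps ι t.1 k) h0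
  rw [rs_pos, rs_pos] at h1
  exact h1

theorem selR_measurable (ι : G.edgeSet ↪ G'.edgeSet) (S' : Scheme G') (π : Ord G) (X : G.edgeSet → Bool) (e : G.edgeSet) :
    @MeasurableSet (S'.Ω × TT G') (@Prod.instMeasurableSpace _ _ S'.mΩ inferInstance) {ω | e ∈ selR ι S' ω.1 ω.2 π X} := by
  letI := S'.mΩ
  have h1 := measurable_fiber (Ω := S'.Ω) (T := TT G') (A := fun t => {ω | ι e ∈ S'.select ω (rs ι π t.1) (mergeX ι X t.2)})
    (fun t => S'.measurable _ _ _)
  exact h1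

/-- the weights as a function on the internal randomness -/
noncomputable def wTT (x : G'.edgeSet → ℝ) (t : TT G') : ℝ := wT x t

theorem wTT_nonneg {x : G'.edgeSet → ℝ} (hx : ∀ e, 0 ≤ x e ∧ x e ≤ 1) (t : TT G') : 0 ≤ wTT x t := wT_nonneg hx t

/-- the measure on the internal randomness -/
noncomputable def muR (S' : Scheme G') (x : G'.edgeSet → ℝ) :
    @Measure (S'.Ω × TT G') (@Prod.instMeasurableSpace _ _ S'.mΩ inferInstance) :=
  @muT S'.Ω (TT G') S'.mΩ inferInstance inferInstance S'.μ (wTT x)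

theorem sum_TT (F : TT G' → ℝ) : ∑ t : TT G', F t = ∑ σ : Ord G', ∑ Y : G'.edgeSet → Bool, F (σ, Y) := by
  rw [← Fintype.sum_prod_type']
  rfl

theorem muR_prob (S' : Scheme G') {x : G'.edgeSet → ℝ} (hx : ∀ e, 0 ≤ x e ∧ x e ≤ 1) :
    @IsProbabilityMeasure (S'.Ω × TT G') (@Prod.instMeasurableSpace _ _ S'.mΩ inferInstance) (muR S' x) := by
  letI := S'.mΩ
  haveI := S'.prob
  refine muT_prob S'.μ (wTT_nonneg hx) ?_
  have h1 := wT_sum x
  rw [Fintype.sum_prod_type] at h1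
  rw [sum_TT]
  exact h1

theorem muR_real (ι : G.edgeSet ↪ G'.edgeSet) (S' : Scheme G') {x : G'.edgeSet → ℝ} (hx : ∀ e, 0 ≤ x e ∧ x e ≤ 1) (π : Ord G)
    (X : G.edgeSet → Bool) (e : G.edgeSet) :
    @Measure.real (S'.Ω × TT G') (@Prod.instMeasurableSpace _ _ S'.mΩ inferInstance) (muR S' x) {ω | e ∈ selR ι S' ω.1 ω.2 π X} =
      ∑ σ : Ord G', ∑ Y : G'.edgeSet → Bool, wX x Y / ((Fintype.card G'.edgeSet).factorial : ℝ) *
        @Measure.real S'.Ω S'.mΩ S'.μ {ω | ι e ∈ S'.select ω (rs ι π σ) (mergeX ι X Y)} := by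
  letI := S'.mΩ
  haveI := S'.prob
  have h1 := muT_real S'.μ (wTT_nonneg hx) (selR_measurable ι S' π X e)
  refine h1.trans ?_
  rw [sum_TT]
  rfl

/-- the restricted scheme -/
noncomputable def restrictScheme (ι : G.edgeSet ↪ G'.edgeSet)
    (hι : ∀ e f : G.edgeSet, ∀ v, v ∈ (e : Sym2 V) → v ∈ (f : Sym2 V) →
      ∃ v', v' ∈ (ι e : Sym2 V') ∧ v' ∈ (ι f : Sym2 V'))
    {x : G'.edgeSet → ℝ} (hx : ∀ e, 0 ≤ x e ∧ x e ≤ 1) (S' : Scheme G') : Scheme G where
  Ω := S'.Ω × TT G'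
  mΩ := @Prod.instMeasurableSpace _ _ S'.mΩ inferInstance
  μ := muR S' x
  prob := muR_prob S' hx
  select ω π X := selR ι S' ω.1 ω.2 π X
  measurable π X e := selR_measurable ι S' π X e
  active ω π X e he := by
    have h1 := S'.active _ _ _ _ (mem_selR.1 he)
    rwa [mergeX_apply] at h1
  matching ω π X e f he hf hne v hv := by
    obtain ⟨v', h1, h2⟩ := hι e f v hv.1 hv.2
    exact S'.matching _ _ _ _ _ (mem_selR.1 he) (mem_selR.1 hf) (fun h => hne (ι.injective h)) v' ⟨h1, h2⟩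
  online ω π π' X X' k h := selR_online h

theorem restrict (ι : G.edgeSet ↪ G'.edgeSet)
    (hι : ∀ e f : G.edgeSet, ∀ v, v ∈ (e : Sym2 V) → v ∈ (f : Sym2 V) →
      ∃ v', v' ∈ (ι e : Sym2 V') ∧ v' ∈ (ι f : Sym2 V'))
    {x : G'.edgeSet → ℝ} (hx : ∀ e, 0 ≤ x e ∧ x e ≤ 1) (S' : Scheme G') :
    ∃ S : Scheme G, ∀ e, S.selProb (fun e => x (ι e)) e = S'.selProb x (ι e) := by
  refine ⟨restrictScheme ι hι hx S', fun e => ?_⟩
  have hreal : ∀ (π : Ord G) (X : G.edgeSet → Bool),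
      (@Measure.real (restrictScheme ι hι hx S').Ω (restrictScheme ι hι hx S').mΩ (restrictScheme ι hι hx S').μ
        {ω | e ∈ (restrictScheme ι hι hx S').select ω π X}) =
      ∑ σ : Ord G', ∑ Y : G'.edgeSet → Bool, wX x Y / ((Fintype.card G'.edgeSet).factorial : ℝ) *
        @Measure.real S'.Ω S'.mΩ S'.μ {ω | ι e ∈ S'.select ω (rs ι π σ) (mergeX ι X Y)} :=
    fun π X => muR_real ι S' hx π X e
  generalize hQd : (fun (σ : Ord G') (Y : G'.edgeSet → Bool) => @Measure.real S'.Ω S'.mΩ S'.μ {ω | ι e ∈ S'.select ω σ Y}) = Q at *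
  have hQ : ∀ σ Y, @Measure.real S'.Ω S'.mΩ S'.μ {ω | ι e ∈ S'.select ω σ Y} = Q σ Y := fun σ Y => by rw [← hQd]
  simp only [hQ] at hreal
  set N' : ℝ := ((Fintype.card G'.edgeSet).factorial : ℝ) with hN'
  have h1 : ∀ (π : Ord G), ∑ X : G.edgeSet → Bool, wX (fun e => x (ι e)) X *
      ∑ σ : Ord G', ∑ Y : G'.edgeSet → Bool, wX x Y / N' * Q (rs ι π σ) (mergeX ι X Y) =
      ∑ σ : Ord G', (∑ Y : G'.edgeSet → Bool, wX x Y * Q (rs ι π σ) Y) / N' := by
    intro π
    have h2 : ∀ X : G.edgeSet → Bool, wX (fun e => x (ι e)) X *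
        ∑ σ : Ord G', ∑ Y : G'.edgeSet → Bool, wX x Y / N' * Q (rs ι π σ) (mergeX ι X Y) =
        ∑ σ : Ord G', (∑ Y : G'.edgeSet → Bool, wX (fun e => x (ι e)) X * wX x Y * Q (rs ι π σ) (mergeX ι X Y)) / N' := by
      intro X
      rw [Finset.mul_sum]
      refine Finset.sum_congr rfl fun σ _ => ?_
      rw [Finset.mul_sum, Finset.sum_div]
      refine Finset.sum_congr rfl fun Y _ => ?_
      ring
    rw [Finset.sum_congr rfl fun X _ => h2 X, Finset.sum_comm]
    refine Finset.sum_congr rfl fun σ _ => ?_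
    rw [← Finset.sum_div, sum_merge ι x (fun Y => Q (rs ι π σ) Y)]
  have h3 : ∑ π : Ord G, ∑ X : G.edgeSet → Bool, wX (fun e => x (ι e)) X *
      (@Measure.real (restrictScheme ι hι hx S').Ω (restrictScheme ι hι hx S').mΩ (restrictScheme ι hι hx S').μ
        {ω | e ∈ (restrictScheme ι hι hx S').select ω π X}) =
      ((Fintype.card G.edgeSet).factorial : ℝ) * ((∑ σ : Ord G', ∑ Y : G'.edgeSet → Bool, wX x Y * Q σ Y) / N') := by
    rw [Finset.sum_div, ← sum_rs ι (fun σ => (∑ Y : G'.edgeSet → Bool, wX x Y * Q σ Y) / N')]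
    refine Finset.sum_congr rfl fun π _ => ?_
    rw [← h1 π]
    refine Finset.sum_congr rfl fun X _ => ?_
    rw [hreal π X]
  have hf : ((Fintype.card G.edgeSet).factorial : ℝ) ≠ 0 := by positivity
  have h5 : (restrictScheme ι hι hx S').selProb (fun e => x (ι e)) e =
      (∑ π : Ord G, ∑ X : G.edgeSet → Bool, wX (fun e => x (ι e)) X *
      (@Measure.real (restrictScheme ι hι hx S').Ω (restrictScheme ι hι hx S').mΩ (restrictScheme ι hι hx S').μ
        {ω | e ∈ (restrictScheme ι hι hx S').select ω π X})) / ((Fintype.card G.edgeSet).factorial : ℝ) := rfl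
  have h6 : S'.selProb x (ι e) = (∑ σ : Ord G', ∑ Y : G'.edgeSet → Bool, wX x Y * Q σ Y) / N' := by
    rw [← hQd]
    rfl
  rw [h5, h6, h3, mul_div_cancel_left₀ _ hf]

end Pool.Agent.RZ.RCM9
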